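import Pool.Agent.H59.CPT.I7
import Pool.Agent.H10.FL.WHE
import Pool.Agent.H42.FL.TR2

/-!
MP_6a7a6f_gt: wheels with seven spokes at the level of `rad 3`.
-/

set_option autoImplicit false

open Pool.Agent.H58.FL Pool.Agent.H59 Pool.Agent.H48.FR Pool.Agent.H58.FN

namespace Pool.Agent.H59.CPT

section

variable {E : Type} [NormedAddCommGroup E] [InnerProductSpace ℂ E]

theorem ad3_symm {a b : E} (h : Ad3 a b) : Ad3 b a := by
  unfold Ad3 at h ⊢
  rw [norm_inner_symm]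
  exact h

theorem ad3_self {a : E} (h : ‖a‖ = 1) : Ad3 a a := by
  unfold Ad3
  rw [inner_self_eq_norm_sq_to_K, h]
  have := k3_bd.2
  simp
  linarith

theorem cos_ge {δ β : ℝ} (h1 : |δ| ≤ β) (h2 : β ≤ Real.pi) : Real.cos β ≤ Real.cos δ := by
  rw [← Real.cos_abs δ]
  exact Real.cos_le_cos_of_nonneg_of_le_pi (abs_nonneg _) h2 h1

/-- the rim of a wheel with seven spokes -/
def x7 (p : Fin 7 → E) : ℕ → E := fun j => p ⟨j % 7, Nat.mod_lt _ (by norm_num)⟩

/-- W7: wheels with seven spokes -/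
theorem W7 (h : E) (p : Fin 7 → E) (hh : ‖h‖ = 1) (hs : ∀ i, Sp3 h (p i))
    (hr : ∀ i, Ad3 (p i) (p (i + 1))) (ha : ∀ i, |ar h (p i) (p (i + 1))| < 11 * Real.pi / 14) :
    ∑ i, ar h (p i) (p (i + 1)) < 9 * Real.pi / 2 := by
  have hk := k3_bd
  have hpi := Real.pi_pos
  have hx : ∀ j, Ad3 (x7 p j) (x7 p (j + 1)) ∧
      |ar h (x7 p j) (x7 p (j + 1))| < 11 * Real.pi / 14 := by
    intro j
    have e : x7 p (j + 1) = p (⟨j % 7, Nat.mod_lt _ (by norm_num)⟩ + 1) := by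
      unfold x7
      congr 1
      apply Fin.ext
      rw [Fin.val_add]
      simp [Nat.add_mod]
    rw [e]
    exact ⟨hr _, ha _⟩
  have hsum : ∑ j ∈ Finset.range 7, ar h (x7 p j) (x7 p (j + 1)) =
      ∑ i, ar h (p i) (p (i + 1)) := by
    simp only [Finset.sum_range_succ, Finset.sum_range_zero, zero_add, Fin.sum_univ_seven]
    rfl
  by_contra hP
  push Not at hP
  rw [← hsum] at hP
  obtain ⟨P, hPe⟩ : ∃ P, P = ∑ j ∈ Finset.range 7, ar h (x7 p j) (x7 p (j + 1)) := ⟨_, rfl⟩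
  have hP2 : P < 11 * Real.pi / 2 := by
    rw [hPe]
    simp only [Finset.sum_range_succ, Finset.sum_range_zero, zero_add]
    have h0 := (abs_lt.1 (hx 0).2).2
    have h1 := (abs_lt.1 (hx 1).2).2
    have h2 := (abs_lt.1 (hx 2).2).2
    have h3 := (abs_lt.1 (hx 3).2).2
    have h4 := (abs_lt.1 (hx 4).2).2
    have h5 := (abs_lt.1 (hx 5).2).2
    have h6 := (abs_lt.1 (hx 6).2).2
    linarith
  rw [← hPe] at hP
  obtain ⟨δ, hδ⟩ : ∃ δ, δ = (P - 5 * Real.pi) / 7 := ⟨_, rfl⟩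
  have hd1 : -(Real.pi / 14) ≤ δ := by linarith
  have hd2 : δ < Real.pi / 14 := by linarith
  have hdabs : |δ| ≤ Real.pi / 14 := by rw [abs_le]; constructor <;> linarith
  have hcos : Real.cos (Real.pi / 14) ≤ Real.cos δ := cos_ge hdabs (by linarith)
  have hcosp : 0 < Real.cos δ := by
    apply Real.cos_pos_of_mem_Ioo
    constructor <;> linarith
  have hsum2 : ∑ j ∈ Finset.range 7, (ar h (x7 p j) (x7 p (j + 1)) - δ) =
      (2 * ((2 : ℤ) : ℝ) + 1) * Real.pi := by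
    rw [Finset.sum_sub_distrib, ← hPe]
    simp only [Finset.sum_const, Finset.card_range, nsmul_eq_mul]
    push_cast
    linarith
  obtain ⟨t, γ, ht0, ht, hγ, hγs, hineq⟩ := Pool.Agent.H10.FL.pf_WHE Pool.Agent.H42.FL.pf_STI E k3 7
    h (x7 p) δ 2 k3_pos (by linarith) hh (fun j => (hs _).1) rfl
    (fun j => ⟨(hs _).2.1.le, (hs _).2.2⟩) (fun j => (hx j).1) hcosp hsum2
  rw [ta_eq, ta_inv] at ht
  refine I7 t (fun j => ar h (x7 p j) (x7 p (j + 1)) - δ) γ ht0 ht ?_ ?_ hγ hγs ?_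
  · intro j _
    obtain ⟨h1, h2⟩ := abs_lt.1 (hx j).2
    rw [abs_le]
    constructor <;> linarith
  · rw [hsum2]; push_cast; ring
  · intro j hj
    refine lt_of_le_of_lt ?_ (hineq j)
    have hT : 0 ≤ 1 + t j * t (j + 1) := by
      have := mul_pos (ht j).1 (ht (j + 1)).1
      linarith
    apply mul_le_mul_of_nonneg_right _ hT
    rw [← sqrt_k3]
    exact mul_le_mul_of_nonneg_left hcos (Real.sqrt_nonneg _)

end

end Pool.Agent.H59.CPT
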