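import Pool.Agent.H59.CPT.Num

/-!
MP_6a7a6f_gt: certificates of rank one: `0 ≤ ‖∑ v_i e^(i α_i) x_i‖ ^ 2`.
-/

set_option autoImplicit false

open Pool.Agent.H58.FL Pool.Agent.H59 Pool.Agent.H48.FR Pool.Agent.H58.FN

namespace Pool.Agent.H59.CPT

section

variable {E : Type} [NormedAddCommGroup E] [InnerProductSpace ℂ E]

/-- the rotation by the angle `a` -/
noncomputable def ei (a : ℝ) : ℂ := Complex.exp ((a : ℂ) * Complex.I)

theorem ei_add (a b : ℝ) : ei (a + b) = ei a * ei b := by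
  unfold ei
  rw [← Complex.exp_add]
  congr 1
  push_cast
  ring

theorem ei_conj (a : ℝ) : (starRingEnd ℂ) (ei a) = ei (-a) := by
  unfold ei
  rw [← Complex.exp_conj]
  congr 1
  simp

theorem ei_zero : ei 0 = 1 := by simp [ei]

theorem ei_re (a : ℝ) : (ei a).re = Real.cos a := by
  unfold ei
  exact Complex.exp_ofReal_mul_I_re a

theorem polar (z : ℂ) : z = (‖z‖ : ℂ) * ei z.arg := by
  unfold ei
  exact (Complex.norm_mul_exp_arg_mul_I z).symm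

/-- the real part of a product of a complex number with a rotation -/
theorem re_mul_ei (z : ℂ) (a : ℝ) : (z * ei a).re = ‖z‖ * Real.cos (z.arg + a) := by
  conv_lhs => rw [polar z]
  rw [mul_assoc, ← ei_add, Complex.re_ofReal_mul, ei_re]

/-- the square of the norm of a combination of `n` vectors is nonnegative -/
theorem cert_sum {n : ℕ} (x : Fin n → E) (v α : Fin n → ℝ) :
    0 ≤ ∑ i, ∑ j, v i * v j * (inner ℂ (x i) (x j) * ei (α j - α i)).re := by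
  have h1 : inner ℂ (∑ i, ((v i : ℂ) * ei (α i)) • x i) (∑ i, ((v i : ℂ) * ei (α i)) • x i) =
      ∑ i, ∑ j, ((v i * v j : ℝ) : ℂ) * (inner ℂ (x i) (x j) * ei (α j - α i)) := by
    rw [sum_inner]
    refine Finset.sum_congr rfl fun i _ => ?_
    rw [inner_sum]
    refine Finset.sum_congr rfl fun j _ => ?_
    rw [inner_smul_left, inner_smul_right, map_mul, Complex.conj_ofReal, ei_conj]
    have : ei (α j - α i) = ei (-(α i)) * ei (α j) := by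
      rw [← ei_add]
      congr 1
      ring
    rw [this]
    push_cast
    ring
  have h2 : 0 ≤ (inner ℂ (∑ i, ((v i : ℂ) * ei (α i)) • x i)
      (∑ i, ((v i : ℂ) * ei (α i)) • x i) : ℂ).re := inner_self_nonneg (𝕜 := ℂ)
  rw [h1, Complex.re_sum] at h2
  refine h2.trans (le_of_eq ?_)
  refine Finset.sum_congr rfl fun i _ => ?_
  rw [Complex.re_sum]
  refine Finset.sum_congr rfl fun j _ => ?_
  rw [Complex.re_ofReal_mul]

/-- the same for four vectors -/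
theorem cert_four (h a b c : E) (hh : ‖h‖ = 1) (ha : ‖a‖ = 1) (hb : ‖b‖ = 1) (hc : ‖c‖ = 1)
    (v0 v1 v2 v3 α1 α2 α3 : ℝ) :
    0 ≤ v0 ^ 2 + v1 ^ 2 + v2 ^ 2 + v3 ^ 2 + 2 * (v0 * v1 * (inner ℂ h a * ei α1).re +
      v0 * v2 * (inner ℂ h b * ei α2).re + v0 * v3 * (inner ℂ h c * ei α3).re +
      v1 * v2 * (inner ℂ a b * ei (α2 - α1)).re + v2 * v3 * (inner ℂ b c * ei (α3 - α2)).re +
      v1 * v3 * (inner ℂ a c * ei (α3 - α1)).re) := by
  have h0 := cert_sum (E := E) ![h, a, b, c] ![v0, v1, v2, v3] ![0, α1, α2, α3]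
  have hs : ∀ y : E, ‖y‖ = 1 → (inner ℂ y y : ℂ) = 1 := by
    intro y hy
    rw [inner_self_eq_norm_sq_to_K, hy]
    simp
  have hsym : ∀ (y z : E) (s : ℝ), (inner ℂ z y * ei (-s)).re = (inner ℂ y z * ei s).re := by
    intro y z s
    rw [← inner_conj_symm, ← ei_conj, ← map_mul, Complex.conj_re]
  simp only [Fin.sum_univ_four, Matrix.cons_val_zero, Matrix.cons_val_one, Matrix.cons_val,
    sub_zero, zero_sub, sub_self, neg_zero, ei_zero, hs h hh, hs a ha, hs b hb, hs c hc, mul_one,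
    Complex.one_re] at h0
  rw [hsym h a α1, hsym h b α2, hsym h c α3] at h0
  have e1 := hsym a b (α2 - α1)
  have e2 := hsym b c (α3 - α2)
  have e3 := hsym a c (α3 - α1)
  rw [neg_sub] at e1 e2 e3
  rw [e1, e2, e3] at h0
  linarith

/-- the phase of a triangle in terms of the phases of the inner products -/
theorem tri_phase (h a b : E) (h1 : inner ℂ h a ≠ 0) (h2 : inner ℂ h b ≠ 0) (s : ℝ) :
    (inner ℂ a b * ei ((inner ℂ h a : ℂ).arg - (inner ℂ h b : ℂ).arg + s)).re =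
      ‖(inner ℂ a b : ℂ)‖ * Real.cos (ar h a b + s) := by
  have n1 : (0 : ℝ) < ‖(inner ℂ h a : ℂ)‖ := norm_pos_iff.2 h1
  have n2 : (0 : ℝ) < ‖(inner ℂ h b : ℂ)‖ := norm_pos_iff.2 h2
  have e1 : inner ℂ h a * inner ℂ a b * inner ℂ b h =
      ((‖(inner ℂ h a : ℂ)‖ * ‖(inner ℂ h b : ℂ)‖ : ℝ) : ℂ) *
        (inner ℂ a b * ei ((inner ℂ h a : ℂ).arg - (inner ℂ h b : ℂ).arg)) := by
    have p1 := polar (inner ℂ h a)
    have p2 : inner ℂ b h = (‖(inner ℂ h b : ℂ)‖ : ℂ) * ei (-(inner ℂ h b : ℂ).arg) := by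
      rw [← inner_conj_symm]
      conv_lhs => rw [polar (inner ℂ h b)]
      rw [map_mul, Complex.conj_ofReal, ei_conj]
    conv_lhs => rw [p1, p2]
    rw [sub_eq_add_neg, ei_add]
    push_cast
    ring
  have e2 : (inner ℂ a b * ei ((inner ℂ h a : ℂ).arg - (inner ℂ h b : ℂ).arg)).arg =
      ar h a b := by
    unfold ar
    rw [e1, Complex.arg_real_mul _ (mul_pos n1 n2)]
  have e3 : ‖inner ℂ a b * ei ((inner ℂ h a : ℂ).arg - (inner ℂ h b : ℂ).arg)‖ =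
      ‖(inner ℂ a b : ℂ)‖ := by
    rw [norm_mul]
    unfold ei
    rw [Complex.norm_exp_ofReal_mul_I, mul_one]
  rw [ei_add, ← mul_assoc, re_mul_ei, e2, e3]

/-- CERT: certificates for four vectors in the gauge of the first one. The phases satisfy
`D_ij + D_jk + D_ki = π - ar x_i x_j x_k`. -/
theorem cert4 (κ : ℝ) (hκ : 0 < κ) (h a b c : E) (hh : ‖h‖ = 1) (ha : ‖a‖ = 1) (hb : ‖b‖ = 1)
    (hc : ‖c‖ = 1) (h1 : κ < ‖inner ℂ h a‖ ^ 2) (h2 : κ < ‖inner ℂ h b‖ ^ 2)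
    (h3 : κ < ‖inner ℂ h c‖ ^ 2) (h4 : κ < ‖inner ℂ a b‖ ^ 2) (h5 : κ < ‖inner ℂ b c‖ ^ 2)
    (h6 : κ < ‖inner ℂ a c‖ ^ 2) (v0 v1 v2 v3 d1 d2 d3 D1 D2 D3 : ℝ) (hv0 : 0 ≤ v0)
    (hv1 : 0 ≤ v1) (hv2 : 0 ≤ v2) (hv3 : 0 ≤ v3)
    (hD1 : d1 + D1 - d2 = Real.pi - ar h a b) (hD2 : d2 + D2 - d3 = Real.pi - ar h b c)
    (hD3 : d1 + D3 - d3 = Real.pi - ar h a c)
    (c1 : 0 ≤ Real.cos d1) (c2 : 0 ≤ Real.cos d2) (c3 : 0 ≤ Real.cos d3)
    (C1 : 0 ≤ Real.cos D1) (C2 : 0 ≤ Real.cos D2) (C3 : 0 ≤ Real.cos D3)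
    (hpos : 0 < v0 * v1 * Real.cos d1 + v0 * v2 * Real.cos d2 + v0 * v3 * Real.cos d3 +
      v1 * v2 * Real.cos D1 + v2 * v3 * Real.cos D2 + v1 * v3 * Real.cos D3) :
    2 * Real.sqrt κ * (v0 * v1 * Real.cos d1 + v0 * v2 * Real.cos d2 + v0 * v3 * Real.cos d3 +
      v1 * v2 * Real.cos D1 + v2 * v3 * Real.cos D2 + v1 * v3 * Real.cos D3) <
      v0 ^ 2 + v1 ^ 2 + v2 ^ 2 + v3 ^ 2 := by
  have hne : ∀ y z : E, κ < ‖inner ℂ y z‖ ^ 2 → inner ℂ y z ≠ (0 : ℂ) ∧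
      Real.sqrt κ < ‖(inner ℂ y z : ℂ)‖ := by
    intro y z hyz
    have h0 : inner ℂ y z ≠ (0 : ℂ) := by
      intro h0
      rw [h0] at hyz
      norm_num at hyz
      linarith
    exact ⟨h0, by rwa [Real.sqrt_lt' (norm_pos_iff.2 h0)]⟩
  obtain ⟨n1, s1⟩ := hne h a h1
  obtain ⟨n2, s2⟩ := hne h b h2
  obtain ⟨n3, s3⟩ := hne h c h3
  obtain ⟨-, s4⟩ := hne a b h4
  obtain ⟨-, s5⟩ := hne b c h5
  obtain ⟨-, s6⟩ := hne a c h6
  have k0 := cert_four h a b c hh ha hb hc v0 v1 v2 v3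
    (Real.pi - d1 - (inner ℂ h a : ℂ).arg) (Real.pi - d2 - (inner ℂ h b : ℂ).arg)
    (Real.pi - d3 - (inner ℂ h c : ℂ).arg)
  have g1 : ∀ (y : E) (d : ℝ), (inner ℂ h y * ei (Real.pi - d - (inner ℂ h y : ℂ).arg)).re =
      -(‖(inner ℂ h y : ℂ)‖ * Real.cos d) := by
    intro y d
    rw [re_mul_ei, show (inner ℂ h y : ℂ).arg + (Real.pi - d - (inner ℂ h y : ℂ).arg) =
      Real.pi - d by ring, Real.cos_pi_sub]
    ring
  have g2 : ∀ (y z : E) (d d' D : ℝ), inner ℂ h y ≠ (0 : ℂ) → inner ℂ h z ≠ (0 : ℂ) →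
      d + D - d' = Real.pi - ar h y z →
      (inner ℂ y z * ei (Real.pi - d' - (inner ℂ h z : ℂ).arg -
        (Real.pi - d - (inner ℂ h y : ℂ).arg))).re = -(‖(inner ℂ y z : ℂ)‖ * Real.cos D) := by
    intro y z d d' D hy hz hD
    rw [show Real.pi - d' - (inner ℂ h z : ℂ).arg - (Real.pi - d - (inner ℂ h y : ℂ).arg) =
      (inner ℂ h y : ℂ).arg - (inner ℂ h z : ℂ).arg + (d - d') by ring,
      tri_phase h y z hy hz, show ar h y z + (d - d') = Real.pi - D by linarith,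
      Real.cos_pi_sub]
    ring
  rw [g1 a d1, g1 b d2, g1 c d3, g2 a b d1 d2 D1 n1 n2 hD1, g2 b c d2 d3 D2 n2 n3 hD2,
    g2 a c d1 d3 D3 n1 n3 hD3] at k0
  -- comparison of the terms
  have t1 : ∀ (p q g : ℝ), 0 ≤ p → 0 ≤ q → Real.sqrt κ < g → Real.sqrt κ * (p * q) ≤ g * (p * q) :=
    fun p q g hp hq hg => mul_le_mul_of_nonneg_right hg.le (mul_nonneg hp hq)
  have t2 : ∀ (p q g : ℝ), 0 < p * q → Real.sqrt κ < g → Real.sqrt κ * (p * q) < g * (p * q) :=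
    fun p q g hp hg => mul_lt_mul_of_pos_right hg hp
  have a1 := t1 (v0 * v1) (Real.cos d1) _ (mul_nonneg hv0 hv1) c1 s1
  have a2 := t1 (v0 * v2) (Real.cos d2) _ (mul_nonneg hv0 hv2) c2 s2
  have a3 := t1 (v0 * v3) (Real.cos d3) _ (mul_nonneg hv0 hv3) c3 s3
  have a4 := t1 (v1 * v2) (Real.cos D1) _ (mul_nonneg hv1 hv2) C1 s4
  have a5 := t1 (v2 * v3) (Real.cos D2) _ (mul_nonneg hv2 hv3) C2 s5
  have a6 := t1 (v1 * v3) (Real.cos D3) _ (mul_nonneg hv1 hv3) C3 s6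
  have b1 := mul_nonneg (mul_nonneg hv0 hv1) c1
  have b2 := mul_nonneg (mul_nonneg hv0 hv2) c2
  have b3 := mul_nonneg (mul_nonneg hv0 hv3) c3
  have b4 := mul_nonneg (mul_nonneg hv1 hv2) C1
  have b5 := mul_nonneg (mul_nonneg hv2 hv3) C2
  have b6 := mul_nonneg (mul_nonneg hv1 hv3) C3
  rcases lt_or_eq_of_le b1 with e | e1
  · have := t2 _ _ _ e s1
    linarith
  rcases lt_or_eq_of_le b2 with e | e2
  · have := t2 _ _ _ e s2
    linarith
  rcases lt_or_eq_of_le b3 with e | e3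
  · have := t2 _ _ _ e s3
    linarith
  rcases lt_or_eq_of_le b4 with e | e4
  · have := t2 _ _ _ e s4
    linarith
  rcases lt_or_eq_of_le b5 with e | e5
  · have := t2 _ _ _ e s5
    linarith
  rcases lt_or_eq_of_le b6 with e | e6
  · have := t2 _ _ _ e s6
    linarith
  exfalso
  linarith

end

/-- Jensen for the cosine, four points -/
theorem cos_jensen (l0 l1 l2 l3 d0 d1 d2 d3 : ℝ) (h0 : 0 ≤ l0) (h1 : 0 ≤ l1) (h2 : 0 ≤ l2)
    (h3 : 0 ≤ l3) (hl : l0 + l1 + l2 + l3 = 1) (e0 : |d0| ≤ Real.pi / 2)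
    (e1 : |d1| ≤ Real.pi / 2) (e2 : |d2| ≤ Real.pi / 2) (e3 : |d3| ≤ Real.pi / 2) :
    l0 * Real.cos d0 + l1 * Real.cos d1 + l2 * Real.cos d2 + l3 * Real.cos d3 ≤
      Real.cos (l0 * d0 + l1 * d1 + l2 * d2 + l3 * d3) ∧
    |l0 * d0 + l1 * d1 + l2 * d2 + l3 * d3| ≤ Real.pi / 2 := by
  have hc := strictConcaveOn_cos_Icc.concaveOn
  have hw : ∀ i ∈ (Finset.univ : Finset (Fin 4)), 0 ≤ (![l0, l1, l2, l3] : Fin 4 → ℝ) i := by
    intro i _
    fin_cases i <;> simpa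
  have hs : ∑ i ∈ (Finset.univ : Finset (Fin 4)), (![l0, l1, l2, l3] : Fin 4 → ℝ) i = 1 := by
    simp [Fin.sum_univ_four, hl]
  have hm : ∀ i ∈ (Finset.univ : Finset (Fin 4)), (![d0, d1, d2, d3] : Fin 4 → ℝ) i ∈
      Set.Icc (-(Real.pi / 2)) (Real.pi / 2) := by
    intro i _
    fin_cases i
    · exact abs_le.1 e0
    · exact abs_le.1 e1
    · exact abs_le.1 e2
    · exact abs_le.1 e3
  have h4 := hc.le_map_sum hw hs hm
  simp only [Fin.sum_univ_four, smul_eq_mul, Matrix.cons_val_zero, Matrix.cons_val_one,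
    Matrix.cons_val] at h4
  refine ⟨h4, ?_⟩
  have h5 := (convex_Icc (-(Real.pi / 2)) (Real.pi / 2)).sum_mem hw hs hm
  simp only [Fin.sum_univ_four, smul_eq_mul, Matrix.cons_val_zero, Matrix.cons_val_one,
    Matrix.cons_val] at h5
  exact abs_le.2 h5

end Pool.Agent.H59.CPT
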