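import Pool.Agent.H59.CPT.HPT
import Pool.Agent.H59.CPT.LP7
import Pool.Agent.H59.CPT.W7
import Pool.Agent.H59.CPT.MN3

/-!
MP_6a7a6f_gt, row HP3: no heptagonal pyramids at the level of `rad 3`.
-/

set_option autoImplicit false

open Pool.Agent.H58.FL Pool.Agent.H59 Pool.Agent.H48.FR Pool.Agent.H58.FN

namespace Pool.Agent.H59.CPT

section

variable {E : Type} [NormedAddCommGroup E] [InnerProductSpace ℂ E]

/-- the relation of four phases -/
private theorem four (a b c d : E) (z : ℝ) (h : mn a b c d = z) :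
    ar b c d = ar a c d - ar a b d + ar a b c + 2 * Real.pi * z := by
  have hp := Real.pi_pos
  unfold mn at h
  rw [div_eq_iff (by positivity)] at h
  linarith

/-- a large phase at an edge: the end points are far -/
theorem far_of (a b c : E) (ha : ‖a‖ = 1) (hb : ‖b‖ = 1) (hc : ‖c‖ = 1) (h1 : Ad3 a b)
    (h2 : Ad3 b c) (h3 : Ad3 c a) (h4 : Real.pi / 3 ≤ |ar a b c|) :
    ‖inner ℂ a b‖ ^ 2 ≤ 1 - k3 := by
  have hk := k3_pos
  have hp := Real.pi_pos
  have h5 := (Pool.Agent.H42.FL.pf_TR2 Pool.Agent.H49.FL.pf_GRM Pool.Agent.H35.FL.pf_NU3 E a b c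
    ha hb hc).1 k3 hk h1.le h2.le h3.le
  have hpi : |ar a b c| ≤ Real.pi := Complex.abs_arg_le_pi _
  have h6 : Real.cos |ar a b c| ≤ Real.cos (Real.pi / 3) :=
    Real.cos_le_cos_of_nonneg_of_le_pi (by positivity) hpi h4
  rw [Real.cos_abs, Real.cos_pi_div_three] at h6
  have hr1 : ‖(inner ℂ a b : ℂ)‖ ≤ 1 := by
    have := norm_inner_le_norm (𝕜 := ℂ) a b
    rw [ha, hb] at this
    linarith
  have hr0 : 0 < ‖(inner ℂ a b : ℂ)‖ := by
    rcases lt_or_eq_of_le (norm_nonneg (inner ℂ a b : ℂ)) with h | h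
    · exact h
    · unfold Ad3 at h1
      rw [← h] at h1
      norm_num at h1
      linarith
  by_contra hc'
  push Not at hc'
  have h7 := h5.trans h6
  rw [div_le_iff₀ (by positivity)] at h7
  have h8 : 2 * k3 * ‖(inner ℂ a b : ℂ)‖ ≤ 2 * k3 * 1 := mul_le_mul_of_nonneg_left hr1 (by positivity)
  linarith

end

/-- the rim -/
private def ri (k : Fin 7) : Fin 8 := k.castSucc

private theorem tab : ∀ k : Fin 7,
    hep 7 (ri (k + 3)) (ri (k + 1)) (ri k) = 0 ∧ hep 7 (ri (k + 1)) (ri k) (ri (k + 5)) = 0 ∧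
    hep 7 (ri (k + 1)) (ri k) (ri (k + 4)) = -1 ∧ hep 7 (ri (k + 4)) (ri k) (ri (k + 1)) = 1 ∧
    hep 7 (ri (k + 5)) (ri (k + 1)) (ri k) = 0 ∧ hep 7 (ri (k + 5)) (ri k) (ri (k + 2)) = 1 ∧
    hep 7 (ri (k + 4)) (ri k) (ri (k + 2)) = 1 ∧ hep 7 (ri (k + 4)) (ri (k + 2)) (ri (k + 1)) = 0 ∧
    hep 7 (ri (k + 6)) (ri (k + 2)) (ri k) = 0 ∧ hep 7 (ri (k + 6)) (ri k) (ri (k + 3)) = 1 ∧
    hep 7 (ri (k + 4)) (ri k) (ri (k + 3)) = 1 ∧ hep 7 (ri (k + 4)) (ri (k + 3)) (ri (k + 1)) = 0 := by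
  decide

theorem pf_HP3 (hW33 : T_W33) (hW4 : T_W4R) (hZA : T_ZA) (hZB : T_ZB) (hQC : T_QC) : T_HP3 := by
  intro E _ _ p hp hpat
  have hpi := Real.pi_pos
  obtain ⟨H, hH⟩ : ∃ H, H = p 7 := ⟨_, rfl⟩
  obtain ⟨P, hP⟩ : ∃ P : Fin 7 → E, P = fun k => p (ri k) := ⟨_, rfl⟩
  have nH : ‖H‖ = 1 := by rw [hH]; exact hp.1 _
  have nP : ∀ k, ‖P k‖ = 1 := fun k => by rw [hP]; exact hp.1 _
  have aH : ∀ k, Ad3 H (P k) := fun k => by rw [hH, hP]; exact hp.2 _ _
  have aH' : ∀ k, Ad3 (P k) H := fun k => by rw [hH, hP]; exact hp.2 _ _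
  have aP : ∀ k l, Ad3 (P k) (P l) := fun k l => by rw [hP]; exact hp.2 _ _
  have hm : ∀ i j l : Fin 7, mn H (P i) (P j) (P l) = (hep 7 (ri i) (ri j) (ri l) : ℤ) := by
    intro i j l
    rw [hH, hP]
    exact hpat 7 (ri i) (ri j) (ri l)
  have hcl : ∀ i j l : Fin 7, Cl3 ![H, P i, P j, P l] := by
    intro i j l
    have e : ![H, P i, P j, P l] = fun x : Fin 4 => p (![7, ri i, ri j, ri l] x) := by
      funext x
      rw [hH, hP]
      fin_cases x <;> rfl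
    rw [e]
    exact ⟨fun _ => hp.1 _, fun _ _ => hp.2 _ _⟩
  have hcl' : ∀ i j l : Fin 7, Cl3 ![P i, H, P j, P l] := by
    intro i j l
    have e : ![P i, H, P j, P l] = fun x : Fin 4 => p (![ri i, 7, ri j, ri l] x) := by
      funext x
      rw [hH, hP]
      fin_cases x <;> rfl
    rw [e]
    exact ⟨fun _ => hp.1 _, fun _ _ => hp.2 _ _⟩
  -- symmetries of the phases at the hub
  have hs : ∀ i j : Fin 7, ar H (P j) (P i) = -ar H (P i) (P j) ∧
      ar (P i) (P j) H = ar H (P i) (P j) ∧ ar (P i) H (P j) = -ar H (P i) (P j) ∧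
      |ar H (P i) (P j)| < 11 * Real.pi / 14 := by
    intro i j
    have t := MN3.tri pf_TR3 p hp 7 (ri i) (ri j)
    rw [hH, hP]
    exact ⟨t.2.1, t.2.2.1, t.1, t.2.2.2.2.2⟩
  obtain ⟨a, ha⟩ : ∃ a : Fin 7 → Fin 7 → ℝ, ∀ i j, a i j = ar H (P i) (P j) / Real.pi :=
    ⟨_, fun _ _ => rfl⟩
  have haπ : ∀ i j, ar H (P i) (P j) = a i j * Real.pi := by
    intro i j
    rw [ha]
    field_simp
  have hsym : ∀ i j, a j i = -a i j := by
    intro i j
    rw [ha, ha, (hs i j).1]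
    ring
  have hub : ∀ i j, a i j ≤ 11 / 14 := by
    intro i j
    rw [ha, div_le_iff₀ hpi]
    have := (abs_lt.1 (hs i j).2.2.2).2
    linarith
  -- the phases of the rim
  have hrim : ∀ i j l : Fin 7, ar (P i) (P j) (P l) =
      (a j l - a i l + a i j + 2 * (hep 7 (ri i) (ri j) (ri l) : ℤ)) * Real.pi := by
    intro i j l
    rw [four H (P i) (P j) (P l) _ (hm i j l), haπ, haπ, haπ]
    ring
  -- the gap
  have hgap : ∀ x v1 v2 v3 : Fin 7,
      hep 7 (ri x) (ri v1) (ri v2) + hep 7 (ri x) (ri v2) (ri v3) = 1 →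
      a v1 v2 + a v2 v3 + 932 / 10000 ≤ 0 := by
    intro x v1 v2 v3 hx
    have h1 := hW4 E (P x) H (P v1) (P v2) (P v3) (nP _) nH (nP _) (nP _) (nP _) (aH' _) (aP _ _)
      (aP _ _) (aP _ _) (aH _) (aP _ _) (aP _ _) (aH' _)
    rw [(hs x v1).2.2.1, (hs x v3).2.1, hrim, hrim, haπ, haπ] at h1
    have hx' : ((hep 7 (ri x) (ri v1) (ri v2) : ℤ) : ℝ) + (hep 7 (ri x) (ri v2) (ri v3) : ℤ) = 1 := by
      exact_mod_cast hx
    have h2 : (a v1 v2 + a v2 v3 + 2 - 4767 / 2500) * Real.pi < 0 := by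
      have : (a v1 v2 + a v2 v3 + 2 - 4767 / 2500) * Real.pi = (-(a x v1 * Real.pi) +
          (a v1 v2 - a x v2 + a x v1 + 2 * (hep 7 (ri x) (ri v1) (ri v2) : ℤ)) * Real.pi +
          (a v2 v3 - a x v3 + a x v2 + 2 * (hep 7 (ri x) (ri v2) (ri v3) : ℤ)) * Real.pi +
          a x v3 * Real.pi) - 4767 / 2500 * Real.pi := by
        linear_combination (-2 * Real.pi) * hx'
      linarith
    have h3 := neg_of_mul_neg_left h2 hpi.le
    linarith
  obtain ⟨e, he⟩ : ∃ e : Fin 7 → ℝ, ∀ k, e k = a (k + 1) k := ⟨_, fun _ => rfl⟩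
  obtain ⟨m, hmm⟩ : ∃ m : Fin 7 → ℝ, ∀ k, m k = a (k + 2) k := ⟨_, fun _ => rfl⟩
  obtain ⟨t, ht⟩ : ∃ t : Fin 7 → ℝ, ∀ k, t k = a (k + 3) k := ⟨_, fun _ => rfl⟩
  have hw1 : ∀ k, e k + 932 / 10000 ≤ m k := by
    intro k
    obtain ⟨-, -, -, -, c5, c6, -⟩ := tab k
    have := hgap (k + 5) (k + 1) k (k + 2) (by rw [c5, c6]; rfl)
    rw [hsym (k + 2) k] at this
    rw [he, hmm]
    linarith
  have hw2 : ∀ k, e (k + 1) + 932 / 10000 ≤ m k := by
    intro k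
    obtain ⟨-, -, -, -, -, -, c7, c8, -⟩ := tab k
    have := hgap (k + 4) k (k + 2) (k + 1) (by rw [c7, c8]; rfl)
    rw [hsym (k + 2) k] at this
    have e1 : ∀ k : Fin 7, k + 1 + 1 = k + 2 := by decide
    rw [he, hmm, e1]
    linarith
  have hw3 : ∀ k, m k + 932 / 10000 ≤ t k := by
    intro k
    obtain ⟨-, -, -, -, -, -, -, -, c9, c10, -⟩ := tab k
    have := hgap (k + 6) (k + 2) k (k + 3) (by rw [c9, c10]; rfl)
    rw [hsym (k + 3) k] at this
    rw [ht, hmm]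
    linarith
  have hw4 : ∀ k, m (k + 1) + 932 / 10000 ≤ t k := by
    intro k
    obtain ⟨-, -, -, -, -, -, -, -, -, -, c11, c12⟩ := tab k
    have := hgap (k + 4) k (k + 3) (k + 1) (by rw [c11, c12]; rfl)
    rw [hsym (k + 3) k] at this
    have e1 : ∀ k : Fin 7, k + 1 + 2 = k + 3 := by decide
    rw [ht, hmm, e1]
    linarith
  have y1 : ∀ k : Fin 7, t (k + 1) = a (k + 4) (k + 1) := by
    intro k
    have e1 : ∀ k : Fin 7, k + 1 + 3 = k + 4 := by decide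
    rw [ht, e1]
  have y4 : ∀ k : Fin 7, t (k + 4) = a k (k + 4) := by
    intro k
    have e1 : ∀ k : Fin 7, k + 4 + 3 = k := by decide
    rw [ht, e1]
  -- the small faces
  have hle : ∀ s r : ℝ, s * Real.pi ≤ r * Real.pi → s ≤ r :=
    fun s r h => le_of_mul_le_mul_right h hpi
  have hlt : ∀ s r : ℝ, s * Real.pi < r * Real.pi → s < r :=
    fun s r h => lt_of_mul_lt_mul_right h hpi.le
  have h3e : ∀ k, 3 / 14 ≤ e k := by
    intro k
    obtain ⟨-, -, -, c4, -⟩ := tab k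
    have h1 := hW33 E ![P (k + 4), H, P k, P (k + 1)] (hcl' _ _ _)
    change ar (P (k + 4)) H (P k) + ar (P (k + 4)) (P k) (P (k + 1)) +
      ar (P (k + 4)) (P (k + 1)) H < _ at h1
    rw [(hs (k + 4) k).2.2.1, (hs (k + 4) (k + 1)).2.1, hrim, haπ, haπ, c4] at h1
    rw [he]
    apply hle
    rw [hsym (k + 1) k] at h1
    push_cast at h1
    linarith
  have h3m : ∀ k, 3074 / 10000 ≤ m k := by
    intro k
    have := hw1 k
    have := h3e k
    linarith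
  have h3t : ∀ k, 4 / 10 ≤ t k := by
    intro k
    have := hw3 k
    have := hw1 k
    have := h3e k
    linarith
  -- W7
  have hS : t 0 + t 1 + t 2 + t 3 + t 4 + t 5 + t 6 ≤ 9 / 2 := by
    have hfar : ∀ k, ‖inner ℂ H (P k)‖ ^ 2 ≤ 1 - k3 := by
      intro k
      refine far_of H (P k) (P (k + 3)) nH (nP _) (nP _) (aH _) (aP _ _) (aH' _) ?_
      rw [haπ, hsym (k + 3) k, ← ht]
      have := h3t k
      have h1 : -t k * Real.pi = -(t k * Real.pi) := by ring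
      rw [h1, abs_neg, abs_of_nonneg (by positivity)]
      nlinarith
    have h7 := W7 H (fun i => P (4 * i)) nH (fun i => ⟨nP _, aH _, hfar _⟩) (fun i => aP _ _)
      (fun i => (hs _ _).2.2.2)
    have e1 : ∀ i : Fin 7, ar H (P (4 * i)) (P (4 * (i + 1))) = t (4 * (i + 1)) * Real.pi := by
      intro i
      have e2 : ∀ i : Fin 7, 4 * (i + 1) + 3 = 4 * i := by decide
      rw [haπ, ht, e2]
    simp only [e1] at h7
    rw [← Finset.sum_mul] at h7
    have e3 : ∑ i : Fin 7, t (4 * (i + 1)) = t 4 + t 1 + t 5 + t 2 + t 6 + t 3 + t 0 := by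
      rw [Fin.sum_univ_seven]
      rfl
    rw [e3] at h7
    apply hle
    linarith
  refine LPC.absurd (e := e) (m := m) (t := t) ⟨fun k => ?_, fun k => ?_, fun k => ?_, hw1, hw2,
    hw3, hw4, fun k hk => ?_, fun k hk => ?_, hS⟩
  · rw [ht]
    exact hub _ _
  · obtain ⟨c1, -⟩ := tab k
    have h1 := hZB E ![H, P (k + 3), P (k + 1), P k] (hcl _ _ _)
      (by change mn H (P (k + 3)) (P (k + 1)) (P k) = 0; rw [hm, c1]; exact Int.cast_zero)
    change 3074 / 10000 * Real.pi ≤ ar H (P (k + 3)) (P (k + 1)) →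
      3 / 14 * Real.pi ≤ ar H (P (k + 1)) (P k) → 4 / 10 * Real.pi ≤ ar H (P (k + 3)) (P k) →
      ar H (P (k + 3)) (P (k + 1)) + ar H (P (k + 1)) (P k) ≤
        (6755 / 10000 - 1 / 10 * (11 / 14)) * Real.pi + 1 / 10 * ar H (P (k + 3)) (P k) at h1
    have e1 : ∀ k : Fin 7, k + 1 + 2 = k + 3 := by decide
    have b1 : a (k + 3) (k + 1) = m (k + 1) := by rw [hmm, e1]
    rw [haπ, haπ, haπ, b1, ← he, ← ht] at h1
    have h2 := h1 (mul_le_mul_of_nonneg_right (h3m _) hpi.le)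
      (mul_le_mul_of_nonneg_right (h3e _) hpi.le) (mul_le_mul_of_nonneg_right (h3t _) hpi.le)
    apply hle
    linarith
  · obtain ⟨-, c2, -⟩ := tab k
    have h1 := hZA E ![H, P (k + 1), P k, P (k + 5)] (hcl _ _ _)
      (by change mn H (P (k + 1)) (P k) (P (k + 5)) = 0; rw [hm, c2]; exact Int.cast_zero)
    change 3 / 14 * Real.pi ≤ ar H (P (k + 1)) (P k) →
      3074 / 10000 * Real.pi ≤ ar H (P k) (P (k + 5)) →
      4 / 10 * Real.pi ≤ ar H (P (k + 1)) (P (k + 5)) →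
      ar H (P (k + 1)) (P k) + ar H (P k) (P (k + 5)) ≤
        (6755 / 10000 - 1 / 10 * (11 / 14)) * Real.pi + 1 / 10 * ar H (P (k + 1)) (P (k + 5)) at h1
    have e1 : ∀ k : Fin 7, k + 5 + 2 = k := by decide
    have e2 : ∀ k : Fin 7, k + 5 + 3 = k + 1 := by decide
    have b1 : a k (k + 5) = m (k + 5) := by rw [hmm, e1]
    have b2 : a (k + 1) (k + 5) = t (k + 5) := by rw [ht, e2]
    rw [haπ, haπ, haπ, b1, b2, ← he] at h1
    have h2 := h1 (mul_le_mul_of_nonneg_right (h3e _) hpi.le)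
      (mul_le_mul_of_nonneg_right (h3m _) hpi.le) (mul_le_mul_of_nonneg_right (h3t _) hpi.le)
    apply hle
    linarith
  · obtain ⟨-, -, c3, -⟩ := tab k
    have h1 := hQC E ![H, P (k + 1), P k, P (k + 4)] (hcl _ _ _)
      (by change mn H (P (k + 1)) (P k) (P (k + 4)) = -1; rw [hm, c3]; push_cast; ring)
    change 4 / 10 * Real.pi ≤ ar H (P k) (P (k + 4)) →
      4 / 10 * Real.pi ≤ ar H (P (k + 4)) (P (k + 1)) →
      (ar H (P k) (P (k + 4)) + ar H (P (k + 4)) (P (k + 1)) ≤ 9 / 7 * Real.pi →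
        292 / 1000 * Real.pi ≤ ar H (P (k + 1)) (P k)) ∧ _ at h1
    rw [haπ, haπ, haπ, ← y1, ← y4, ← he] at h1
    have h2 := (h1 (mul_le_mul_of_nonneg_right (h3t _) hpi.le)
      (mul_le_mul_of_nonneg_right (h3t _) hpi.le)).1 (by
        have := mul_le_mul_of_nonneg_right hk hpi.le
        linarith)
    exact hle _ _ h2
  · obtain ⟨-, -, c3, -⟩ := tab k
    have h1 := hQC E ![H, P (k + 1), P k, P (k + 4)] (hcl _ _ _)
      (by change mn H (P (k + 1)) (P k) (P (k + 4)) = -1; rw [hm, c3]; push_cast; ring)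
    change 4 / 10 * Real.pi ≤ ar H (P k) (P (k + 4)) →
      4 / 10 * Real.pi ≤ ar H (P (k + 4)) (P (k + 1)) →
      _ ∧ (9 / 7 * Real.pi ≤ ar H (P k) (P (k + 4)) + ar H (P (k + 4)) (P (k + 1)) →
        292 / 1000 * Real.pi - 275 / 1000 * (ar H (P k) (P (k + 4)) +
          ar H (P (k + 4)) (P (k + 1)) - 9 / 7 * Real.pi) ≤ ar H (P (k + 1)) (P k)) at h1
    rw [haπ, haπ, haπ, ← y1, ← y4, ← he] at h1
    have h2 := (h1 (mul_le_mul_of_nonneg_right (h3t _) hpi.le)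
      (mul_le_mul_of_nonneg_right (h3t _) hpi.le)).2 (by
        have := mul_le_mul_of_nonneg_right hk hpi.le
        linarith)
    apply hle
    linarith

end Pool.Agent.H59.CPT
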