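import Pool.Agent.H58.FN.Targets

/-!
MP_6a7a6f_gt: the inequalities for four points which exclude the heptagonal pyramid (the form and
the constants are due to helper41).
-/

set_option autoImplicit false

open Pool.Agent.H58.FL Pool.Agent.H59 Pool.Agent.H48.FR Pool.Agent.H58.FN

namespace Pool.Agent.H59.CPT

/-- W33: the three phases at a vertex. -/
def T_W33 : Prop := ∀ (E : Type) [NormedAddCommGroup E] [InnerProductSpace ℂ E] (p : Fin 4 → E),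
  Cl3 p → ar (p 0) (p 1) (p 2) + ar (p 0) (p 2) (p 3) + ar (p 0) (p 3) (p 1) <
    25 * Real.pi / 14

/-- W4R: the wheels with four spokes, sharp constant. -/
def T_W4R : Prop := ∀ (E : Type) [NormedAddCommGroup E] [InnerProductSpace ℂ E] (h a b c d : E),
  ‖h‖ = 1 → ‖a‖ = 1 → ‖b‖ = 1 → ‖c‖ = 1 → ‖d‖ = 1 → Ad3 h a → Ad3 h b → Ad3 h c → Ad3 h d →
  Ad3 a b → Ad3 b c → Ad3 c d → Ad3 d a →
  ar h a b + ar h b c + ar h c d + ar h d a < 4767 / 2500 * Real.pi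

/-- ZA: two neighbouring phases of a quadrilateral without monopole, first form. -/
def T_ZA : Prop := ∀ (E : Type) [NormedAddCommGroup E] [InnerProductSpace ℂ E] (p : Fin 4 → E),
  Cl3 p → mn (p 0) (p 1) (p 2) (p 3) = 0 → 3 / 14 * Real.pi ≤ ar (p 0) (p 1) (p 2) →
  3074 / 10000 * Real.pi ≤ ar (p 0) (p 2) (p 3) → 4 / 10 * Real.pi ≤ ar (p 0) (p 1) (p 3) →
  ar (p 0) (p 1) (p 2) + ar (p 0) (p 2) (p 3) ≤
    (6755 / 10000 - 1 / 10 * (11 / 14)) * Real.pi + 1 / 10 * ar (p 0) (p 1) (p 3)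

/-- ZB: two neighbouring phases of a quadrilateral without monopole, second form. -/
def T_ZB : Prop := ∀ (E : Type) [NormedAddCommGroup E] [InnerProductSpace ℂ E] (p : Fin 4 → E),
  Cl3 p → mn (p 0) (p 1) (p 2) (p 3) = 0 → 3074 / 10000 * Real.pi ≤ ar (p 0) (p 1) (p 2) →
  3 / 14 * Real.pi ≤ ar (p 0) (p 2) (p 3) → 4 / 10 * Real.pi ≤ ar (p 0) (p 1) (p 3) →
  ar (p 0) (p 1) (p 2) + ar (p 0) (p 2) (p 3) ≤
    (6755 / 10000 - 1 / 10 * (11 / 14)) * Real.pi + 1 / 10 * ar (p 0) (p 1) (p 3)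

/-- QC: the smallest phase of a monopole in terms of the phases at the opposite edge. -/
def T_QC : Prop := ∀ (E : Type) [NormedAddCommGroup E] [InnerProductSpace ℂ E] (p : Fin 4 → E),
  Cl3 p → mn (p 0) (p 1) (p 2) (p 3) = -1 → 4 / 10 * Real.pi ≤ ar (p 0) (p 2) (p 3) →
  4 / 10 * Real.pi ≤ ar (p 0) (p 3) (p 1) →
  (ar (p 0) (p 2) (p 3) + ar (p 0) (p 3) (p 1) ≤ 9 / 7 * Real.pi →
    292 / 1000 * Real.pi ≤ ar (p 0) (p 1) (p 2)) ∧
  (9 / 7 * Real.pi ≤ ar (p 0) (p 2) (p 3) + ar (p 0) (p 3) (p 1) →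
    292 / 1000 * Real.pi - 275 / 1000 * (ar (p 0) (p 2) (p 3) + ar (p 0) (p 3) (p 1) -
      9 / 7 * Real.pi) ≤ ar (p 0) (p 1) (p 2))

end Pool.Agent.H59.CPT
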