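import Pool.Agent.H59.CPT.VB
import Pool.Agent.H59.CPT.HPT

/-!
MP_6a7a6f_gt, QC: the smallest phase of a monopole in terms of the phases at the opposite edge.
-/

set_option autoImplicit false

open Pool.Agent.H58.FL Pool.Agent.H59 Pool.Agent.H48.FR Pool.Agent.H58.FN

namespace Pool.Agent.H59.CPT

namespace QCB

/-- first box -/
theorem bA1 : Box (-1) 0 0 (7927 / 10000) 1 (584 / 625) (6929 / 5000)
    ![0, 0, 1, 0] ![0, 1 / 2, 0, -1 / 2] ![0, 1 / 2, 0, 1 / 2]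
    (17 / 14) (-1) (73 / 250) 0 0 0 (-4 / 5) 1 (807 / 875) 1
    ![-1 / 2, -1 / 2, -1 / 2, -1 / 2,
      -6451 / 14000, -217 / 500, -1711 / 3500, -1291 / 2800]
    ![1 / 2, 1 / 2, 1 / 2, 1 / 2,
      497 / 1000, 1 / 2, 1 / 2, 1 / 2]
    ![13 / 14000, -593 / 14000, 13 / 14000, -593 / 14000,
      187 / 14000, -327 / 7000, 57 / 14000, -397 / 7000] := by
  decide +kernel

/-- second box -/
theorem bA2 : Box (-1) 0 0 (7927 / 10000) 1 (584 / 625) (6929 / 5000)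
    ![0, 0, 1, 0] ![0, 1 / 2, 0, -1 / 2] ![0, 1 / 2, 0, 1 / 2]
    (3 / 14) 0 (73 / 250) 0 0 0 (-4 / 5) 1 1 (209 / 200)
    ![-6451 / 14000, -217 / 500, -1711 / 3500, -1291 / 2800,
      -6303 / 14000, -5739 / 14000, -6549 / 14000, -6073 / 14000]
    ![497 / 1000, 1 / 2, 1 / 2, 1 / 2,
      6787 / 14000, 1 / 2, 1 / 2, 1 / 2]
    ![187 / 14000, -327 / 7000, 57 / 14000, -397 / 7000,
      1 / 80, -381 / 7000, 79 / 7000, -177 / 2800] := by
  decide +kernel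

/-- third box -/
theorem bB : Box (-1) 0 0 (4437 / 5000) 1 (8511 / 10000) (6963 / 5000)
    ![0, 0, 1, 0] ![0, 1 / 2, 0, -1 / 2] ![0, 1 / 2, 0, 1 / 2]
    (3 / 14) 0 (73 / 250) 0 0 0 (-4 / 5) 1 (209 / 200) (11 / 10)
    ![-5823 / 14000, -47 / 125, -1511 / 3500, -1101 / 2800,
      -5637 / 14000, -4849 / 14000, -33 / 80, -2517 / 7000]
    ![3427 / 7000, 1 / 2, 1 / 2, 1 / 2,
      6611 / 14000, 1 / 2, 1367 / 2800, 1 / 2]
    ![367 / 14000, -541 / 14000, 83 / 3500, -9 / 200,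
      339 / 14000, -6 / 125, 179 / 7000, -37 / 700] := by
  decide +kernel

/-- fourth box -/
theorem bC1 : Box (-1) 0 0 (9897 / 10000) 1 (319 / 400) (14191 / 10000)
    ![0, 0, 1, 0] ![0, 1 / 2, 0, -1 / 2] ![0, 1 / 2, 0, 1 / 2]
    (3 / 14) 0 (73 / 250) 0 0 0 (-4 / 5) 1 (11 / 10) (83 / 70)
    ![-5293 / 14000, -4449 / 14000, -337 / 875, -913 / 2800,
      -4973 / 14000, -3809 / 14000, -5021 / 14000, -73 / 250]
    ![3259 / 7000, 1 / 2, 67 / 140, 1 / 2,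
      6081 / 14000, 1 / 2, 3081 / 7000, 1 / 2]
    ![423 / 14000, -61 / 1750, 11 / 350, -53 / 1400,
      37 / 1400, -691 / 14000, 47 / 1750, -99 / 1750] := by
  decide +kernel

/-- fifth box -/
theorem bC2 : Box (-1) 0 0 (9897 / 10000) 1 (319 / 400) (14191 / 10000)
    ![0, 0, 1, 0] ![0, 1 / 2, 0, -1 / 2] ![0, 1 / 2, 0, 1 / 2]
    (3 / 14) 0 (73 / 250) 0 0 0 (11 / 7) (-1) (83 / 70) (9 / 7)
    ![-4973 / 14000, -3809 / 14000, -5021 / 14000, -73 / 250,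
      -2273 / 7000, -3541 / 14000, -4937 / 14000, -73 / 250]
    ![6081 / 14000, 1 / 2, 3081 / 7000, 1 / 2,
      5513 / 14000, 967 / 2000, 6151 / 14000, 1 / 2]
    ![37 / 1400, -691 / 14000, 47 / 1750, -99 / 1750,
      31 / 1400, -13 / 700, 351 / 14000, -39 / 1400] := by
  decide +kernel

/-- sixth box -/
theorem bD : Box (-1) 0 0 (2847 / 2500) 1 (4221 / 5000) (7253 / 5000)
    ![0, 0, 1, 0] ![0, 1 / 2, 0, -1 / 2] ![0, 1 / 2, 0, 1 / 2]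
    (3 / 14) 0 (4519 / 7000) (-11 / 40) 0 0 (11 / 7) (-1) (9 / 7) (3019 / 1925)
    ![-4633 / 14000, -1791 / 7000, -1269 / 3500, -73 / 250,
      -4533 / 14000, -4521 / 14000, -4533 / 14000, -4521 / 14000]
    ![5367 / 14000, 3209 / 7000, 1503 / 3500, 1 / 2,
      781 / 2000, 5479 / 14000, 781 / 2000, 5479 / 14000]
    ![227 / 14000, -9 / 350, 13 / 700, -13 / 500,
      171 / 14000, 33 / 2800, 171 / 14000, 33 / 2800] := by
  decide +kernel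

/-- the certificates, first half -/
theorem half (x y z : ℝ) (h1 : 3 / 14 ≤ x) (h2 : 17 / 14 ≤ x + y + z) (h3 : 4 / 10 ≤ y)
    (h4 : z ≤ 11 / 14) (h5 : y ≤ z) (h6 : x ≤ 292 / 1000)
    (h7 : x ≤ 292 / 1000 - 275 / 1000 * (y + z - 9 / 7)) :
    ∃ v0 v1 v2 v3 : ℝ, 0 < v0 ∧ 0 ≤ v1 ∧ 0 ≤ v2 ∧ 0 ≤ v3 ∧ Exc (-1) 0 0 v0 v1 v2 v3 x y z := by
  have key : ∀ {v0 v1 v2 v3 : ℚ} {a0 a1 b0 b1 g0 g1 t0 t1 : ℚ} {p q r : Fin 8 → ℚ},
      Box (-1) 0 0 v0 v1 v2 v3 ![0, 0, 1, 0] ![0, 1 / 2, 0, -1 / 2] ![0, 1 / 2, 0, 1 / 2]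
        a0 a1 b0 b1 0 0 g0 g1 t0 t1 p q r → 0 < v0 → (t0 : ℝ) ≤ y + z → y + z ≤ t1 →
      (a0 : ℝ) + a1 * (y + z) ≤ x → x ≤ b0 + b1 * (y + z) → z - y ≤ g0 + g1 * (y + z) →
      ∃ v0 v1 v2 v3 : ℝ, 0 < v0 ∧ 0 ≤ v1 ∧ 0 ≤ v2 ∧ 0 ≤ v3 ∧
        Exc (-1) 0 0 v0 v1 v2 v3 x y z := by
    intro v0 v1 v2 v3 a0 a1 b0 b1 g0 g1 t0 t1 p q r hB hv c1 c2 c3 c4 c5
    have hE := hB.exc (y + z) x (z - y) c1 c2 c3 c4 (by push_cast; linarith) c5
    have e1 : (((![0, 0, 1, 0] : Fin 4 → ℚ) 0 : ℚ) : ℝ) +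
        ((![0, 0, 1, 0] : Fin 4 → ℚ) 1 : ℚ) * (y + z) + ((![0, 0, 1, 0] : Fin 4 → ℚ) 2 : ℚ) * x +
        ((![0, 0, 1, 0] : Fin 4 → ℚ) 3 : ℚ) * (z - y) = x := by
      change ((0 : ℚ) : ℝ) + ((0 : ℚ) : ℝ) * (y + z) + ((1 : ℚ) : ℝ) * x +
        ((0 : ℚ) : ℝ) * (z - y) = x
      push_cast
      ring
    have e2 : (((![0, 1 / 2, 0, -1 / 2] : Fin 4 → ℚ) 0 : ℚ) : ℝ) +
        ((![0, 1 / 2, 0, -1 / 2] : Fin 4 → ℚ) 1 : ℚ) * (y + z) +
        ((![0, 1 / 2, 0, -1 / 2] : Fin 4 → ℚ) 2 : ℚ) * x +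
        ((![0, 1 / 2, 0, -1 / 2] : Fin 4 → ℚ) 3 : ℚ) * (z - y) = y := by
      change ((0 : ℚ) : ℝ) + ((1 / 2 : ℚ) : ℝ) * (y + z) + ((0 : ℚ) : ℝ) * x +
        ((-1 / 2 : ℚ) : ℝ) * (z - y) = y
      push_cast
      ring
    have e3 : (((![0, 1 / 2, 0, 1 / 2] : Fin 4 → ℚ) 0 : ℚ) : ℝ) +
        ((![0, 1 / 2, 0, 1 / 2] : Fin 4 → ℚ) 1 : ℚ) * (y + z) +
        ((![0, 1 / 2, 0, 1 / 2] : Fin 4 → ℚ) 2 : ℚ) * x +
        ((![0, 1 / 2, 0, 1 / 2] : Fin 4 → ℚ) 3 : ℚ) * (z - y) = z := by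
      change ((0 : ℚ) : ℝ) + ((1 / 2 : ℚ) : ℝ) * (y + z) + ((0 : ℚ) : ℝ) * x +
        ((1 / 2 : ℚ) : ℝ) * (z - y) = z
      push_cast
      ring
    rw [e1, e2, e3] at hE
    refine ⟨v0, v1, v2, v3, by exact_mod_cast hv, ?_, ?_, ?_, hE⟩
    · exact_mod_cast hB.1.1.1.2.1
    · exact_mod_cast hB.1.1.1.2.2.1
    · exact_mod_cast hB.1.1.1.2.2.2
  rcases le_total (y + z) 1 with g1 | g1
  · exact key bA1 (by norm_num) (by push_cast; linarith) (by push_cast; linarith)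
      (by push_cast; linarith) (by push_cast; linarith) (by push_cast; linarith)
  rcases le_total (y + z) (209 / 200) with g2 | g2
  · exact key bA2 (by norm_num) (by push_cast; linarith) (by push_cast; linarith)
      (by push_cast; linarith) (by push_cast; linarith) (by push_cast; linarith)
  rcases le_total (y + z) (11 / 10) with g3 | g3
  · exact key bB (by norm_num) (by push_cast; linarith) (by push_cast; linarith)
      (by push_cast; linarith) (by push_cast; linarith) (by push_cast; linarith)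
  rcases le_total (y + z) (83 / 70) with g4 | g4
  · exact key bC1 (by norm_num) (by push_cast; linarith) (by push_cast; linarith)
      (by push_cast; linarith) (by push_cast; linarith) (by push_cast; linarith)
  rcases le_total (y + z) (9 / 7) with g5 | g5
  · exact key bC2 (by norm_num) (by push_cast; linarith) (by push_cast; linarith)
      (by push_cast; linarith) (by push_cast; linarith) (by push_cast; linarith)
  · exact key bD (by norm_num) (by push_cast; linarith) (by push_cast; linarith)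
      (by push_cast; linarith) (by push_cast; linarith) (by push_cast; linarith)

/-- the certificates -/
theorem full (x y z : ℝ) (h1 : 3 / 14 ≤ x) (h2 : 17 / 14 ≤ x + y + z) (h3 : 4 / 10 ≤ y)
    (h3' : 4 / 10 ≤ z) (h4 : z ≤ 11 / 14) (h4' : y ≤ 11 / 14) (h6 : x ≤ 292 / 1000)
    (h7 : x ≤ 292 / 1000 - 275 / 1000 * (y + z - 9 / 7)) :
    ∃ v0 v1 v2 v3 : ℝ, 0 < v0 ∧ 0 ≤ v1 ∧ 0 ≤ v2 ∧ 0 ≤ v3 ∧ Exc (-1) 0 0 v0 v1 v2 v3 x y z := by
  rcases le_total y z with h | h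
  · exact half x y z h1 h2 h3 h4 h h6 h7
  · obtain ⟨v0, v1, v2, v3, a0, a1, a2, a3, hE⟩ := half x z y h1 (by linarith) h3' h4' h h6
      (by linarith)
    exact ⟨v0, v2, v1, v3, a0, a2, a1, a3, hE.mirror⟩

end QCB

theorem pf_QC (hW33 : T_W33) : T_QC := by
  intro E _ _ p hp hm hA hB
  have hpi := Real.pi_pos
  have s13 : ar (p 0) (p 3) (p 1) = -ar (p 0) (p 1) (p 3) := (MN3.tri pf_TR3 p hp 0 1 3).2.1
  -- the phases of the triangles at the vertex `3`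
  have hcl : Cl3 ![p 3, p 1, p 0, p 2] := by
    have e : ![p 3, p 1, p 0, p 2] = fun x : Fin 4 => p (![3, 1, 0, 2] x) := by
      funext x
      fin_cases x <;> rfl
    rw [e]
    exact ⟨fun _ => hp.1 _, fun _ _ => hp.2 _ _⟩
  have hw := hW33 E _ hcl
  change ar (p 3) (p 1) (p 0) + ar (p 3) (p 0) (p 2) + ar (p 3) (p 2) (p 1) < _ at hw
  have t1 : ar (p 3) (p 1) (p 0) = ar (p 0) (p 3) (p 1) := by
    have a := MN3.tri pf_TR3 p hp 0 3 1
    have b := MN3.tri pf_TR3 p hp 3 0 1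
    linarith [a.1, a.2.1, a.2.2.1, b.1, b.2.1, b.2.2.1]
  have t2 : ar (p 3) (p 0) (p 2) = ar (p 0) (p 2) (p 3) := by
    have a := MN3.tri pf_TR3 p hp 0 2 3
    linarith [a.1, a.2.1, a.2.2.1]
  have t3 : ar (p 3) (p 2) (p 1) = -ar (p 1) (p 2) (p 3) := by
    have a := MN3.tri pf_TR3 p hp 1 2 3
    have b := MN3.tri pf_TR3 p hp 3 1 2
    linarith [a.1, a.2.1, a.2.2.1, b.1, b.2.1, b.2.2.1]
  rw [t1, t2, t3] at hw
  have hmn : ar (p 1) (p 2) (p 3) = ar (p 0) (p 2) (p 3) - ar (p 0) (p 1) (p 3) +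
      ar (p 0) (p 1) (p 2) - 2 * Real.pi := by
    unfold mn at hm
    rw [div_eq_iff (by positivity)] at hm
    linarith
  obtain ⟨x, hx⟩ : ∃ x, x = ar (p 0) (p 1) (p 2) / Real.pi := ⟨_, rfl⟩
  obtain ⟨y, hy⟩ : ∃ y, y = ar (p 0) (p 2) (p 3) / Real.pi := ⟨_, rfl⟩
  obtain ⟨z, hz⟩ : ∃ z, z = ar (p 0) (p 3) (p 1) / Real.pi := ⟨_, rfl⟩
  have ex : ar (p 0) (p 1) (p 2) = x * Real.pi := by rw [hx]; field_simp
  have ey : ar (p 0) (p 2) (p 3) = y * Real.pi := by rw [hy]; field_simp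
  have ez : ar (p 0) (p 3) (p 1) = z * Real.pi := by rw [hz]; field_simp
  have ez' : ar (p 0) (p 1) (p 3) = -(z * Real.pi) := by linarith
  have hle : ∀ s r : ℝ, s * Real.pi ≤ r * Real.pi → s ≤ r :=
    fun s r h => le_of_mul_le_mul_right h hpi
  have k1 : 3 / 14 ≤ x := by
    apply hle
    linarith
  have k2 : 17 / 14 ≤ x + y + z := by
    have := (abs_lt.1 (MN3.tri pf_TR3 p hp 1 2 3).2.2.2.2.2).1
    apply hle
    linarith
  have k3' : 4 / 10 ≤ y := by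
    apply hle
    linarith
  have k4 : 4 / 10 ≤ z := by
    apply hle
    linarith
  have k5 : y ≤ 11 / 14 := by
    have := (abs_lt.1 (MN3.tri pf_TR3 p hp 0 2 3).2.2.2.2.2).2
    apply hle
    linarith
  have k6 : z ≤ 11 / 14 := by
    have := (abs_lt.1 (MN3.tri pf_TR3 p hp 0 3 1).2.2.2.2.2).2
    apply hle
    linarith
  have main : ¬ (x ≤ 292 / 1000 ∧ x ≤ 292 / 1000 - 275 / 1000 * (y + z - 9 / 7)) := by
    rintro ⟨h6, h7⟩
    obtain ⟨v0, v1, v2, v3, a0, a1, a2, a3, hE⟩ := QCB.full x y z k1 k2 k3' k4 k6 k5 h6 h7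
    rw [hx, hy, hz] at hE
    exact Exc.absurd a0 a1 a2 a3 p hp hE
  rw [ex, ey, ez]
  constructor
  · intro h
    have h' : y + z ≤ 9 / 7 := by
      apply hle
      linarith
    by_contra hc
    push Not at hc
    have hc' : x ≤ 292 / 1000 := hle _ _ hc.le
    exact main ⟨hc', by linarith⟩
  · intro h
    have h' : 9 / 7 ≤ y + z := by
      apply hle
      linarith
    by_contra hc
    push Not at hc
    have hc' : x ≤ 292 / 1000 - 275 / 1000 * (y + z - 9 / 7) := by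
      apply hle
      linarith
    exact main ⟨by linarith, hc'⟩

end Pool.Agent.H59.CPT
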