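import Pool.Agent.H59.CPT.HP3
import Pool.Agent.H59.CPT.QC
import Pool.Agent.H81.CP.Z
import Pool.Agent.H86.FRW.W4R

/-!
MP_6a7a6f_gt: the rows HP3 and X73 without hypotheses.
-/

set_option autoImplicit false

open Pool.Agent.H58.FL Pool.Agent.H59 Pool.Agent.H48.FR Pool.Agent.H58.FN

namespace Pool.Agent.H59.CPT

theorem cl_MN3 : T_MN3 := MN3.pf_MN3 pf_TR3

theorem cl_W33 : T_W33 := Pool.Agent.H81.CP.pf_W33 cl_MN3

theorem cl_W4R : T_W4R := Pool.Agent.H86.FRW.pf_W4R pf_TR3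

theorem cl_HP3 : T_HP3 :=
  pf_HP3 cl_W33 cl_W4R (Pool.Agent.H81.CP.pf_ZA cl_MN3) (Pool.Agent.H81.CP.pf_ZB cl_MN3)
    (pf_QC cl_W33)

theorem cl_X73 : T_X73 := Pool.Agent.H81.CP.pf_X73 cl_MN3 cl_W4R

end Pool.Agent.H59.CPT
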