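import Pool.Agent.H59.CPT.P7

/-!
MP_6a7a6f_gt: the inequality of the wheels with seven spokes.
-/

set_option autoImplicit false

open Pool.Agent.H58.FL Pool.Agent.H59 Pool.Agent.H48.FR Pool.Agent.H58.FN Set

namespace Pool.Agent.H59.CPT

private theorem inv_bound (a T : ℝ) (_ha : 0 < a) (hT : 0 < T) (h1 : a⁻¹ ≤ T) (h2 : T ≤ a) :
    T + T⁻¹ ≤ a + a⁻¹ := by
  have h3 : 0 ≤ (a - T) * (T - a⁻¹) := mul_nonneg (by linarith) (by linarith)
  have h4 : a * a⁻¹ = 1 := mul_inv_cancel₀ (by linarith)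
  have h5 : T * T⁻¹ = 1 := mul_inv_cancel₀ hT.ne'
  have h6 : 0 ≤ T⁻¹ * ((a - T) * (T - a⁻¹)) := mul_nonneg (inv_pos.2 hT).le h3
  have h7 : T⁻¹ * ((a - T) * (T - a⁻¹)) =
      (T * T⁻¹) * a - T⁻¹ * (a * a⁻¹) - (T * T⁻¹) * T + (T * T⁻¹) * a⁻¹ := by ring
  rw [h7, h4, h5] at h6
  linarith

/-- a cyclic word of length seven which is not constant has two changes -/
private theorem seven (P0 P1 P2 P3 P4 P5 P6 : Prop) (M0 M1 M2 M3 M4 M5 M6 A B : ℝ) (_hBA : B ≤ A)
    (m0 : M0 ≤ A) (m1 : M1 ≤ A) (m2 : M2 ≤ A) (m3 : M3 ≤ A) (m4 : M4 ≤ A) (m5 : M5 ≤ A)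
    (m6 : M6 ≤ A)
    (x0 : ¬ (P0 ↔ P1) → M0 ≤ B) (x1 : ¬ (P1 ↔ P2) → M1 ≤ B) (x2 : ¬ (P2 ↔ P3) → M2 ≤ B)
    (x3 : ¬ (P3 ↔ P4) → M3 ≤ B) (x4 : ¬ (P4 ↔ P5) → M4 ≤ B) (x5 : ¬ (P5 ↔ P6) → M5 ≤ B)
    (x6 : ¬ (P6 ↔ P0) → M6 ≤ B)
    (hb : P0 ∨ P1 ∨ P2 ∨ P3 ∨ P4 ∨ P5 ∨ P6)
    (hs : ¬ P0 ∨ ¬ P1 ∨ ¬ P2 ∨ ¬ P3 ∨ ¬ P4 ∨ ¬ P5 ∨ ¬ P6) :
    M0 + M1 + M2 + M3 + M4 + M5 + M6 ≤ 5 * A + 2 * B := by
  by_cases p0 : P0 <;> by_cases p1 : P1 <;> by_cases p2 : P2 <;> by_cases p3 : P3 <;>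
    by_cases p4 : P4 <;> by_cases p5 : P5 <;> by_cases p6 : P6 <;>
    simp only [p0, p1, p2, p3, p4, p5, p6, not_true_eq_false, not_false_eq_true, iff_true,
      iff_false, forall_const, IsEmpty.forall_iff, or_false, or_true, or_self]
      at x0 x1 x2 x3 x4 x5 x6 hb hs <;>
    linarith

/-- I7: the inequality of the wheels with seven spokes. -/
theorem I7 (t φ γ : ℕ → ℝ) (ht7 : t 7 = t 0)
    (ht : ∀ j, 0 < t j ∧ ta⁻¹ ≤ t j ^ 2 ∧ t j ^ 2 ≤ ta)
    (hφ : ∀ j, j < 7 → |φ j| ≤ 6 * Real.pi / 7)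
    (hφs : ∑ j ∈ Finset.range 7, φ j = 5 * Real.pi)
    (hγ : ∀ j, 0 ≤ γ j ∧ γ j ≤ Real.pi) (hγs : Real.pi ≤ ∑ j ∈ Finset.range 7, γ j)
    (hcon : ∀ j, j < 7 → 1 / 2 * (1 + t j * t (j + 1)) <
      Real.cos (φ j) + t j * t (j + 1) * Real.cos (γ j)) : False := by
  have hpi := Real.pi_pos
  have hpi1 := Real.pi_gt_d2
  have hpi2 := Real.pi_lt_d2
  obtain ⟨b1, b2⟩ := ta_bd
  obtain ⟨r, hr⟩ : ∃ r, r = Real.sqrt ta := ⟨_, rfl⟩
  have hr0 : 0 < r := by rw [hr]; exact Real.sqrt_pos.2 (by linarith)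
  have hr2 : r ^ 2 = ta := by rw [hr]; exact Real.sq_sqrt (by linarith)
  have hr1 : 16738 / 10000 < r := by
    by_contra hc
    push Not at hc
    have := pow_le_pow_left₀ hr0.le hc 2
    norm_num at this
    linarith
  have hr3 : r < 1674 / 1000 := by
    by_contra hc
    push Not at hc
    have := pow_le_pow_left₀ (by norm_num) hc 2
    norm_num at this
    linarith
  have hri : r * r⁻¹ = 1 := mul_inv_cancel₀ hr0.ne'
  have hri0 : 0 < r⁻¹ := inv_pos.2 hr0
  have hri1 : r⁻¹ < 5975 / 10000 := by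
    rw [inv_lt_iff_one_lt_mul₀ hr0]
    linarith
  have hti : ta⁻¹ = r⁻¹ * r⁻¹ := by rw [← hr2, sq, mul_inv]
  have htl : ∀ j, r⁻¹ ≤ t j := by
    intro j
    obtain ⟨h1, h2, -⟩ := ht j
    rw [← hr2, ← inv_pow] at h2
    exact le_of_sq_le_sq h2 h1.le
  have htu : ∀ j, t j ≤ r := by
    intro j
    obtain ⟨-, -, h3⟩ := ht j
    rw [← hr2] at h3
    exact le_of_sq_le_sq h3 hr0.le
  have hTl : ∀ j, ta⁻¹ ≤ t j * t (j + 1) := by
    intro j
    rw [hti]
    exact mul_le_mul (htl j) (htl (j + 1)) hri0.le (ht j).1.le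
  have hTu : ∀ j, t j * t (j + 1) ≤ ta := by
    intro j
    rw [← hr2, sq]
    exact mul_le_mul (htu j) (htu (j + 1)) (ht (j + 1)).1.le hr0.le
  have hT0 : ∀ j, 0 < t j * t (j + 1) := fun j => mul_pos (ht j).1 (ht (j + 1)).1
  simp only [Finset.sum_range_succ, Finset.sum_range_zero, zero_add] at hφs hγs
  by_cases hA : ∀ j, j < 7 → 1 ≤ t j * t (j + 1)
  · have h : ∀ j, j < 7 → γ j < Real.pi / 7 + la * (5 * Real.pi / 7 - φ j) := fun j hj =>
      P7A _ _ _ (hA j hj) (hTu j) (hφ j hj) (hγ j).2 (hcon j hj)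
    have h0 := h 0 (by norm_num)
    have h1 := h 1 (by norm_num)
    have h2 := h 2 (by norm_num)
    have h3 := h 3 (by norm_num)
    have h4 := h 4 (by norm_num)
    have h5 := h 5 (by norm_num)
    have h6 := h 6 (by norm_num)
    have h7 : la * (5 * Real.pi / 7 - φ 0) + la * (5 * Real.pi / 7 - φ 1) +
        la * (5 * Real.pi / 7 - φ 2) + la * (5 * Real.pi / 7 - φ 3) +
        la * (5 * Real.pi / 7 - φ 4) + la * (5 * Real.pi / 7 - φ 5) +
        la * (5 * Real.pi / 7 - φ 6) =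
        la * (5 * Real.pi - (φ 0 + φ 1 + φ 2 + φ 3 + φ 4 + φ 5 + φ 6)) := by ring
    rw [hφs, sub_self, mul_zero] at h7
    linarith
  · push Not at hA
    obtain ⟨j0, hj0, hj0T⟩ := hA
    have hM : ∀ j, t j * t (j + 1) + (t j * t (j + 1))⁻¹ ≤ 316 / 100 := by
      intro j
      have h1 := inv_bound ta _ (by linarith) (hT0 j) (hTl j) (hTu j)
      have h2 : ta⁻¹ ≤ 357 / 1000 := by
        rw [inv_le_iff_one_le_mul₀ (by linarith)]
        linarith
      linarith
    have hB : ∀ j, j < 7 → φ j + γ j ≤ 89 / 100 * Real.pi := fun j hj =>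
      (P7B _ _ _ (316 / 100) (89 / 100 * Real.pi) (hT0 j) (hM j) (hφ j hj) (hγ j).2
        (by positivity) (by
          have : Real.pi - 89 / 100 * Real.pi = 11 / 100 * Real.pi := by ring
          rw [this]
          nlinarith) (hcon j hj)).le
    have hC : ∀ j, j < 7 → t j * t (j + 1) ≤ r → r⁻¹ ≤ t j * t (j + 1) →
        φ j + γ j ≤ 73 / 100 * Real.pi := by
      intro j hj h1 h2
      have h3 := inv_bound r _ hr0 (hT0 j) h2 h1
      exact (P7B _ _ _ (2272 / 1000) (73 / 100 * Real.pi) (hT0 j) (by linarith) (hφ j hj) (hγ j).2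
        (by positivity) (by
          have : Real.pi - 73 / 100 * Real.pi = 27 / 100 * Real.pi := by ring
          rw [this]
          nlinarith) (hcon j hj)).le
    have hX : ∀ j, j < 7 → ¬ (1 ≤ t j ↔ 1 ≤ t (j + 1)) → φ j + γ j ≤ 73 / 100 * Real.pi := by
      intro j hj hne
      by_cases h1 : 1 ≤ t j
      · have h2 : t (j + 1) < 1 := by
          by_contra hc
          push Not at hc
          exact hne ⟨fun _ => hc, fun _ => h1⟩
        refine hC j hj ?_ ?_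
        · have := mul_le_mul (htu j) h2.le (ht (j + 1)).1.le hr0.le
          rwa [mul_one] at this
        · have := mul_le_mul h1 (htl (j + 1)) hri0.le (ht j).1.le
          rwa [one_mul] at this
      · have h2 : 1 ≤ t (j + 1) := by
          by_contra hc
          exact hne ⟨fun h => absurd h h1, fun h => absurd h hc⟩
        push Not at h1
        refine hC j hj ?_ ?_
        · have := mul_le_mul h1.le (htu (j + 1)) (ht (j + 1)).1.le zero_le_one
          rwa [one_mul] at this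
        · have := mul_le_mul (htl j) h2 zero_le_one (ht j).1.le
          rwa [mul_one] at this
    have hbig : ¬ ∀ j, j < 7 → t j < 1 := by
      intro hc
      have h7 : t 7 < 1 := by rw [ht7]; exact hc 0 (by norm_num)
      have hd : ∀ j, j < 7 → φ j < Real.pi / 2 := by
        intro j hj
        have h2 : t (j + 1) < 1 := by
          by_cases h : j = 6
          · rw [h]
            exact h7
          · exact hc (j + 1) (by omega)
        refine P7C _ _ _ (hT0 j) ?_ (hcon j hj) (hφ j hj)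
        have := mul_le_mul (hc j hj).le h2.le (ht (j + 1)).1.le zero_le_one
        rwa [one_mul] at this
      have h0 := hd 0 (by norm_num)
      have h1 := hd 1 (by norm_num)
      have h2 := hd 2 (by norm_num)
      have h3 := hd 3 (by norm_num)
      have h4 := hd 4 (by norm_num)
      have h5 := hd 5 (by norm_num)
      have h6 := hd 6 (by norm_num)
      linarith
    have hsmall : ¬ ∀ j, j < 7 → 1 ≤ t j := by
      intro hc
      have h1 : 1 ≤ t j0 := hc j0 hj0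
      have h2 : 1 ≤ t (j0 + 1) := by
        by_cases h : j0 = 6
        · rw [h]
          show 1 ≤ t 7
          rw [ht7]
          exact hc 0 (by norm_num)
        · exact hc (j0 + 1) (by omega)
      have h3 := mul_le_mul h1 h2 zero_le_one (ht j0).1.le
      rw [one_mul] at h3
      linarith
    have x6 := hX 6 (by norm_num)
    rw [show 6 + 1 = 7 from rfl, ht7] at x6
    have key := seven (1 ≤ t 0) (1 ≤ t 1) (1 ≤ t 2) (1 ≤ t 3) (1 ≤ t 4) (1 ≤ t 5) (1 ≤ t 6)
      (φ 0 + γ 0) (φ 1 + γ 1) (φ 2 + γ 2) (φ 3 + γ 3) (φ 4 + γ 4) (φ 5 + γ 5) (φ 6 + γ 6)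
      (89 / 100 * Real.pi) (73 / 100 * Real.pi) (by linarith)
      (hB 0 (by norm_num)) (hB 1 (by norm_num)) (hB 2 (by norm_num)) (hB 3 (by norm_num))
      (hB 4 (by norm_num)) (hB 5 (by norm_num)) (hB 6 (by norm_num))
      (hX 0 (by norm_num)) (hX 1 (by norm_num)) (hX 2 (by norm_num)) (hX 3 (by norm_num))
      (hX 4 (by norm_num)) (hX 5 (by norm_num)) x6
      (by
        by_contra hc
        push Not at hc
        obtain ⟨c0, c1, c2, c3, c4, c5, c6⟩ := hc
        apply hbig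
        intro j hj
        interval_cases j <;> assumption)
      (by
        by_contra hc
        push Not at hc
        obtain ⟨c0, c1, c2, c3, c4, c5, c6⟩ := hc
        apply hsmall
        intro j hj
        interval_cases j <;> assumption)
    linarith

end Pool.Agent.H59.CPT
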