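import Pool.Agent.H58.FN.Defs

/-!
MP_6a7a6f_gt, the level of `rad 3`: numbers.
-/

set_option autoImplicit false

open Pool.Agent.H58.FL Pool.Agent.H59 Pool.Agent.H48.FR Pool.Agent.H58.FN

namespace Pool.Agent.H59.CPT

noncomputable section

/-- the cosine of `π / 7` -/
def c7 : ℝ := Real.cos (Real.pi / 7)

/-- the quotient `(1 - k3) / k3` -/
def ta : ℝ := 1 + 2 * c7

section geo

variable {E : Type} [NormedAddCommGroup E] [InnerProductSpace ℂ E]

/-- spoke of a wheel at the level of `rad 3`: close and far -/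
def Sp3 (h a : E) : Prop := ‖a‖ = 1 ∧ Ad3 h a ∧ ‖inner ℂ h a‖ ^ 2 ≤ 1 - k3

end geo

theorem c7_gt' : 866 / 1000 < c7 := by
  have hp := Real.pi_pos
  have h1 : Real.cos (Real.pi / 6) < Real.cos (Real.pi / 7) :=
    Real.cos_lt_cos_of_nonneg_of_le_pi (by positivity) (by linarith) (by linarith)
  rw [Real.cos_pi_div_six] at h1
  have h2 : (1732 : ℝ) / 1000 < Real.sqrt 3 := by
    rw [Real.lt_sqrt (by norm_num)]
    norm_num
  unfold c7
  linarith

theorem c7_cubic : 8 * c7 ^ 3 - 4 * c7 ^ 2 - 4 * c7 + 1 = 0 := by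
  have h0 := c7_gt'
  have h1 : Real.cos (3 * (Real.pi / 7)) = -Real.cos (2 * (2 * (Real.pi / 7))) := by
    rw [← Real.cos_pi_sub]
    congr 1
    ring
  rw [Real.cos_three_mul, Real.cos_two_mul, Real.cos_two_mul] at h1
  change 4 * c7 ^ 3 - 3 * c7 = -(2 * (2 * c7 ^ 2 - 1) ^ 2 - 1) at h1
  have h2 : (c7 + 1) * (8 * c7 ^ 3 - 4 * c7 ^ 2 - 4 * c7 + 1) = 0 := by linear_combination h1
  rcases mul_eq_zero.1 h2 with h3 | h3
  · linarith
  · exact h3

theorem c7_gt : 90096 / 100000 < c7 := by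
  have h0 := c7_gt'
  have h1 := c7_cubic
  by_contra hc
  push Not at hc
  nlinarith [mul_nonneg (sub_nonneg.2 h0.le) (sub_nonneg.2 hc),
    mul_nonneg (mul_nonneg (sub_nonneg.2 h0.le) (sub_nonneg.2 hc)) (by linarith : (0 : ℝ) ≤ c7)]

theorem c7_lt : c7 < 90097 / 100000 := by
  have h0 := c7_gt'
  have h1 := c7_cubic
  by_contra hc
  push Not at hc
  nlinarith [mul_nonneg (sub_nonneg.2 hc) (sub_nonneg.2 hc),
    mul_nonneg (mul_nonneg (sub_nonneg.2 hc) (sub_nonneg.2 hc)) (by linarith : (0 : ℝ) ≤ c7)]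

theorem k3_eq : k3 = 1 / (2 * (1 + c7)) := by
  have h1 : Real.cos (2 * (Real.pi / 14)) = 2 * Real.cos (Real.pi / 14) ^ 2 - 1 :=
    Real.cos_two_mul _
  have h2 : Real.cos (2 * (Real.pi / 14)) = c7 := by
    unfold c7
    congr 1
    ring
  rw [h2] at h1
  unfold k3
  rw [h1]
  congr 1
  ring

theorem k3_pos : 0 < k3 := by
  have := c7_gt
  rw [k3_eq]
  positivity

theorem k3_bd : 26302 / 100000 < k3 ∧ k3 < 26303 / 100000 := by
  have h1 := c7_gt
  have h2 := c7_lt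
  rw [k3_eq]
  constructor
  · rw [lt_div_iff₀ (by linarith)]
    linarith
  · rw [div_lt_iff₀ (by linarith)]
    linarith

theorem k3_mul : k3 * (1 + c7) = 1 / 2 := by
  have := c7_gt
  rw [k3_eq]
  field_simp

theorem ta_eq : (1 - k3) / k3 = ta := by
  have h0 := k3_pos
  have h1 := k3_mul
  rw [div_eq_iff h0.ne']
  unfold ta
  linarith

theorem ta_inv : k3 / (1 - k3) = ta⁻¹ := by
  rw [← ta_eq, inv_div]

theorem ta_bd : 280192 / 100000 < ta ∧ ta < 280194 / 100000 := by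
  have h1 := c7_gt
  have h2 := c7_lt
  unfold ta
  constructor <;> linarith

theorem sqrt_k3 : Real.sqrt k3 * Real.cos (Real.pi / 14) = 1 / 2 := by
  have hp := Real.pi_pos
  have h0 := k3_pos
  have h1 : Real.cos (2 * (Real.pi / 14)) = 2 * Real.cos (Real.pi / 14) ^ 2 - 1 :=
    Real.cos_two_mul _
  have h2 : Real.cos (2 * (Real.pi / 14)) = c7 := by
    unfold c7
    congr 1
    ring
  rw [h2] at h1
  have h3 : 0 < Real.cos (Real.pi / 14) :=
    Real.cos_pos_of_mem_Ioo ⟨by linarith, by linarith⟩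
  have h4 : 0 < Real.sqrt k3 := Real.sqrt_pos.2 h0
  have h5 : (Real.sqrt k3 * Real.cos (Real.pi / 14)) ^ 2 = (1 / 2) ^ 2 := by
    rw [mul_pow, Real.sq_sqrt h0.le]
    have := k3_mul
    linear_combination 1 / 2 * this - 1 / 2 * k3 * h1
  exact (sq_eq_sq₀ (by positivity) (by norm_num)).1 h5

/-- the cosine of `5π / 7` in terms of the cosine of `π / 7` -/
theorem cos57 : Real.cos (5 * Real.pi / 7) = -(2 * c7 ^ 2 - 1) := by
  have h1 : Real.cos (5 * Real.pi / 7) = -Real.cos (2 * (Real.pi / 7)) := by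
    rw [← Real.cos_pi_sub]
    congr 1
    ring
  rw [h1, Real.cos_two_mul]
  rfl

theorem sin57 : Real.sin (5 * Real.pi / 7) = 2 * Real.sin (Real.pi / 7) * c7 := by
  have h1 : Real.sin (5 * Real.pi / 7) = Real.sin (2 * (Real.pi / 7)) := by
    rw [← Real.sin_pi_sub]
    congr 1
    ring
  rw [h1, Real.sin_two_mul]
  rfl

end

end Pool.Agent.H59.CPT
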