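import Pool.Agent.H59.CPT.Num

/-!
MP_6a7a6f_gt: one edge of a wheel with seven spokes.
-/

set_option autoImplicit false

open Pool.Agent.H58.FL Pool.Agent.H59 Pool.Agent.H48.FR Pool.Agent.H58.FN Set

namespace Pool.Agent.H59.CPT

/-- the tangent line of the cosine -/
theorem cos_tang (x0 x : ℝ) (h0 : -(Real.pi / 2) ≤ x0) (h0' : x0 ≤ Real.pi / 2)
    (h : -(Real.pi / 2) ≤ x) (h' : x ≤ Real.pi / 2) :
    Real.cos x ≤ Real.cos x0 - Real.sin x0 * (x - x0) := by
  rcases lt_trichotomy x x0 with hx | hx | hx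
  · obtain ⟨ξ, hξ, he⟩ := exists_hasDerivAt_eq_slope Real.cos (fun y => -Real.sin y) hx
      Real.continuous_cos.continuousOn (fun y _ => Real.hasDerivAt_cos y)
    have h1 : Real.sin ξ ≤ Real.sin x0 := Real.sin_le_sin_of_le_of_le_pi_div_two
      (by linarith [hξ.1]) h0' hξ.2.le
    have h2 : 0 < x0 - x := by linarith
    rw [eq_div_iff h2.ne'] at he
    nlinarith [mul_le_mul_of_nonneg_right h1 h2.le]
  · rw [hx]; simp
  · obtain ⟨ξ, hξ, he⟩ := exists_hasDerivAt_eq_slope Real.cos (fun y => -Real.sin y) hx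
      Real.continuous_cos.continuousOn (fun y _ => Real.hasDerivAt_cos y)
    have h1 : Real.sin x0 ≤ Real.sin ξ := Real.sin_le_sin_of_le_of_le_pi_div_two
      h0 (by linarith [hξ.2]) hξ.1.le
    have h2 : 0 < x - x0 := by linarith
    rw [eq_div_iff h2.ne'] at he
    nlinarith [mul_le_mul_of_nonneg_right h1 h2.le]

theorem cos_le_sub (x : ℝ) (h : x ≤ Real.pi / 2) : Real.cos x ≤ Real.pi / 2 - x := by
  rw [← Real.sin_pi_div_two_sub]
  exact Real.sin_le (by linarith)

/-- the slope of the tangent line -/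
noncomputable def la : ℝ := (ta - 1) / ta

theorem la_mul : la * ta = ta - 1 := by
  have := ta_bd
  unfold la
  exact div_mul_cancel₀ _ (by linarith)

theorem la_bd : 6431 / 10000 < la ∧ la < 64311 / 100000 := by
  have h1 := ta_bd
  unfold la
  constructor
  · rw [lt_div_iff₀ (by linarith)]
    linarith
  · rw [div_lt_iff₀ (by linarith)]
    linarith

/-- the case `T = 1` -/
private theorem one (φ : ℝ) (h0 : 0 ≤ φ) (h1 : φ ≤ Real.pi / 2)
    (h2 : Real.pi / 7 + la * (5 * Real.pi / 7 - φ) ≤ Real.pi / 2) :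
    Real.cos φ + Real.cos (Real.pi / 7 + la * (5 * Real.pi / 7 - φ)) ≤ 1 := by
  have hp := Real.pi_pos
  have hp4 := Real.pi_lt_d4
  have hp3 := Real.pi_gt_d4
  obtain ⟨l1, l2⟩ := la_bd
  have h3 := cos_le_sub _ h2
  have h5 := cos_tang (Real.pi / 4) φ (by linarith) (by linarith) (by linarith) h1
  rw [Real.cos_pi_div_four, Real.sin_pi_div_four] at h5
  have h6 : (14142 : ℝ) / 10000 < Real.sqrt 2 := by
    rw [Real.lt_sqrt (by norm_num)]
    norm_num
  have h7 : Real.sqrt 2 < 14143 / 10000 := by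
    rw [Real.sqrt_lt' (by norm_num)]
    norm_num
  have h8 : 0 ≤ (Real.sqrt 2 / 2 - la) * φ := mul_nonneg (by linarith) h0
  have h9 : Real.sqrt 2 / 2 * (Real.pi / 4) ≤ 14143 / 20000 * (3.1416 / 4) :=
    mul_le_mul (by linarith) (by linarith) (by positivity) (by norm_num)
  have h10 : 6431 / 10000 * (5 * 3.1415 / 7) ≤ la * (5 * Real.pi / 7) :=
    mul_le_mul l1.le (by linarith) (by norm_num) (by linarith)
  nlinarith

/-- the case `T = ta` -/
private theorem two (s : ℝ) (h1 : -(5 * Real.pi / 14 / la) ≤ s) (h2 : s ≤ Real.pi / 7) :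
    Real.cos (5 * Real.pi / 7 + s) + ta * Real.cos (Real.pi / 7 - la * s) ≤
      1 / 2 * (1 + ta) := by
  have hp := Real.pi_pos
  have hp4 := Real.pi_lt_d4
  have hp3 := Real.pi_gt_d4
  obtain ⟨l1, l2⟩ := la_bd
  obtain ⟨t1, t2⟩ := ta_bd
  have hc := la_mul
  have hl0 : 0 < la := by linarith
  have hL : la * (5 * Real.pi / 14 / la) = 5 * Real.pi / 14 := by field_simp
  have hL0 : 0 < 5 * Real.pi / 14 / la := by positivity
  have hL1 : 5 * Real.pi / 14 / la ≤ 7 / 4 := by
    rw [div_le_iff₀ hl0]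
    linarith
  set I : Set ℝ := Icc (-(5 * Real.pi / 14 / la)) (Real.pi / 7) with hI
  set F : ℝ → ℝ := fun s =>
    Real.cos (5 * Real.pi / 7 + s) + ta * Real.cos (Real.pi / 7 - la * s) with hF
  set F' : ℝ → ℝ := fun s =>
    -Real.sin (5 * Real.pi / 7 + s) + (ta - 1) * Real.sin (Real.pi / 7 - la * s) with hF'
  have dF : ∀ s, HasDerivAt F (F' s) s := by
    intro s
    have e1 : HasDerivAt (fun s : ℝ => 5 * Real.pi / 7 + s) 1 s := by
      simpa using (hasDerivAt_id s).const_add (5 * Real.pi / 7)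
    have e2 : HasDerivAt (fun s : ℝ => Real.pi / 7 - la * s) (-la) s := by
      simpa using ((hasDerivAt_id s).const_mul la).const_sub (Real.pi / 7)
    have e3 := e1.cos.add (e2.cos.const_mul ta)
    refine e3.congr_deriv ?_
    simp only [hF']
    linear_combination Real.sin (Real.pi / 7 - la * s) * hc
  have dF' : ∀ s, HasDerivAt F' (-(Real.cos (5 * Real.pi / 7 + s) +
      (ta - 1) * la * Real.cos (Real.pi / 7 - la * s))) s := by
    intro s
    have e1 : HasDerivAt (fun s : ℝ => 5 * Real.pi / 7 + s) 1 s := by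
      simpa using (hasDerivAt_id s).const_add (5 * Real.pi / 7)
    have e2 : HasDerivAt (fun s : ℝ => Real.pi / 7 - la * s) (-la) s := by
      simpa using ((hasDerivAt_id s).const_mul la).const_sub (Real.pi / 7)
    have e3 := e1.sin.neg.add (e2.sin.const_mul (ta - 1))
    refine e3.congr_deriv ?_
    ring
  have hco : 1 ≤ (ta - 1) * la := by nlinarith
  have hpos : ∀ s ∈ I, 0 ≤ Real.cos (5 * Real.pi / 7 + s) +
      (ta - 1) * la * Real.cos (Real.pi / 7 - la * s) := by
    intro s hs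
    obtain ⟨s1, s2⟩ := hs
    have u1 : la * s ≤ la * (Real.pi / 7) := mul_le_mul_of_nonneg_left s2 (by linarith)
    have u2 : la * (-(5 * Real.pi / 14 / la)) ≤ la * s := mul_le_mul_of_nonneg_left s1 (by linarith)
    rw [mul_neg, hL] at u2
    have u3 : la * (Real.pi / 7) ≤ 1 * (Real.pi / 7) :=
      mul_le_mul_of_nonneg_right (by linarith) (by positivity)
    have h3 : 0 ≤ Real.cos (Real.pi / 7 - la * s) :=
      Real.cos_nonneg_of_mem_Icc ⟨by linarith, by linarith⟩
    have h4 : 1 * Real.cos (Real.pi / 7 - la * s) ≤ (ta - 1) * la * Real.cos (Real.pi / 7 - la * s) :=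
      mul_le_mul_of_nonneg_right hco h3
    have h5 : 0 ≤ Real.cos (5 * Real.pi / 7 + s) + Real.cos (Real.pi / 7 - la * s) := by
      rw [Real.cos_add_cos]
      refine mul_nonneg (mul_nonneg (by norm_num) (Real.cos_nonneg_of_mem_Icc ⟨?_, ?_⟩))
        (Real.cos_nonneg_of_mem_Icc ⟨?_, ?_⟩)
      · nlinarith
      · nlinarith
      · nlinarith
      · nlinarith
    linarith
  have hanti : AntitoneOn F' I := by
    refine antitoneOn_of_deriv_nonpos (convex_Icc _ _)
      (fun x _ => (dF' x).continuousAt.continuousWithinAt)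
      (fun x _ => (dF' x).differentiableAt.differentiableWithinAt) (fun x hx => ?_)
    rw [(dF' x).deriv]
    exact neg_nonpos.mpr (hpos x (interior_subset hx))
  have h0I : (0 : ℝ) ∈ I := ⟨by linarith, by positivity⟩
  have hF0' : F' 0 = 0 := by
    simp only [hF', add_zero, mul_zero, sub_zero]
    rw [sin57]
    unfold ta
    ring
  have hF0 : F 0 = 1 / 2 * (1 + ta) := by
    simp only [hF, add_zero, mul_zero, sub_zero]
    rw [cos57]
    change -(2 * c7 ^ 2 - 1) + ta * c7 = _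
    unfold ta
    ring
  have hcont : ∀ J : Set ℝ, ContinuousOn F J := fun J x _ =>
    (dF x).continuousAt.continuousWithinAt
  have hsI : s ∈ I := ⟨h1, h2⟩
  change F s ≤ _
  rw [← hF0]
  rcases le_total s 0 with h3 | h3
  · have hm : MonotoneOn F (Icc s 0) := by
      refine monotoneOn_of_deriv_nonneg (convex_Icc _ _) (hcont _)
        (fun x _ => (dF x).differentiableAt.differentiableWithinAt) (fun x hx => ?_)
      rw [(dF x).deriv]
      have hx' := interior_subset hx
      have hxI : x ∈ I := ⟨h1.trans hx'.1, hx'.2.trans h0I.2⟩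
      have := hanti hxI h0I hx'.2
      rwa [hF0'] at this
    exact hm ⟨le_rfl, h3⟩ ⟨h3, le_rfl⟩ h3
  · have hm : AntitoneOn F (Icc 0 s) := by
      refine antitoneOn_of_deriv_nonpos (convex_Icc _ _) (hcont _)
        (fun x _ => (dF x).differentiableAt.differentiableWithinAt) (fun x hx => ?_)
      rw [(dF x).deriv]
      have hx' := interior_subset hx
      have hxI : x ∈ I := ⟨h0I.1.trans hx'.1, hx'.2.trans h2⟩
      have := hanti h0I hxI hx'.1
      rwa [hF0'] at this
    exact hm ⟨le_rfl, h3⟩ ⟨h3, le_rfl⟩ h3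

/-- P7A: one edge of a wheel with seven spokes, first part -/
theorem P7A (T φ γ : ℝ) (hT1 : 1 ≤ T) (hT2 : T ≤ ta) (hφ : |φ| ≤ 6 * Real.pi / 7)
    (hγ' : γ ≤ Real.pi) (hlt : 1 / 2 * (1 + T) < Real.cos φ + T * Real.cos γ) :
    γ < Real.pi / 7 + la * (5 * Real.pi / 7 - φ) := by
  have hp := Real.pi_pos
  have hp4 := Real.pi_lt_d4
  have hp3 := Real.pi_gt_d4
  obtain ⟨l1, l2⟩ := la_bd
  obtain ⟨t1, t2⟩ := ta_bd
  by_contra hge
  rw [not_lt] at hge
  obtain ⟨hφ1, hφ2⟩ := abs_le.mp hφ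
  set al : ℝ := Real.pi / 7 + la * (5 * Real.pi / 7 - φ) with hal
  have hal0 : 0 ≤ al := by
    have : la * (-(Real.pi / 7)) ≤ la * (5 * Real.pi / 7 - φ) :=
      mul_le_mul_of_nonneg_left (by linarith) (by linarith)
    nlinarith
  have hcos : Real.cos γ ≤ Real.cos al := Real.cos_le_cos_of_nonneg_of_le_pi hal0 hγ' hge
  have hT0 : 0 < T := by linarith
  have h1 : Real.cos φ + T * Real.cos γ ≤ Real.cos φ + T * Real.cos al := by
    have := mul_le_mul_of_nonneg_left hcos hT0.le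
    linarith
  rcases le_total (Real.pi / 2) al with h2 | h2
  · have h3 : Real.cos al ≤ 0 := Real.cos_nonpos_of_pi_div_two_le_of_le h2 (by linarith)
    have h4 := Real.cos_le_one φ
    nlinarith [mul_nonneg hT0.le (neg_nonneg.mpr h3)]
  · have h8 : la * (5 * Real.pi / 7 - φ) ≤ 5 * Real.pi / 14 := by rw [hal] at h2; linarith
    have hl0 : 0 < la := by linarith
    have h9 : -(5 * Real.pi / 14 / la) ≤ φ - 5 * Real.pi / 7 := by
      have : (5 * Real.pi / 7 - φ) ≤ 5 * Real.pi / 14 / la := by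
        rw [le_div_iff₀ hl0]
        linarith
      linarith
    have hL1 : 5 * Real.pi / 14 / la ≤ 7 / 4 := by
      rw [div_le_iff₀ hl0]
      linarith
    have hφ0 : 0 ≤ φ := by linarith
    have e1 : Real.cos φ + Real.cos al ≤ 1 := by
      rcases le_total φ (Real.pi / 2) with h5 | h5
      · exact one φ hφ0 h5 h2
      · have h6 : Real.cos φ ≤ 0 := Real.cos_nonpos_of_pi_div_two_le_of_le h5 (by linarith)
        linarith [Real.cos_le_one al]
    have e2 : Real.cos φ + ta * Real.cos al ≤ 1 / 2 * (1 + ta) := by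
      have h7 := two (φ - 5 * Real.pi / 7) h9 (by linarith)
      have h9 : 5 * Real.pi / 7 + (φ - 5 * Real.pi / 7) = φ := by ring
      have h10 : Real.pi / 7 - la * (φ - 5 * Real.pi / 7) = al := by rw [hal]; ring
      rwa [h9, h10] at h7
    have h11 : 0 ≤ (ta - T) * (1 - (Real.cos φ + Real.cos al)) :=
      mul_nonneg (by linarith) (by linarith)
    have h12 : 0 ≤ (T - 1) * (1 / 2 * (1 + ta) - (Real.cos φ + ta * Real.cos al)) :=
      mul_nonneg (by linarith) (by linarith)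
    have h13 : (ta - 1) * (Real.cos φ + T * Real.cos al) ≤ (ta - 1) * (1 / 2 * (1 + T)) := by
      nlinarith
    have h14 := le_of_mul_le_mul_left h13 (by linarith)
    linarith

/-- P7B: one edge of a wheel with seven spokes, second part -/
theorem P7B (T φ γ c θ : ℝ) (hT : 0 < T) (hTc : T + T⁻¹ ≤ c) (hφ : |φ| ≤ 6 * Real.pi / 7)
    (hγ' : γ ≤ Real.pi) (hθ0 : 0 ≤ θ)
    (hc : 3 / 8 * c - 1 / 4 ≤ 1 - (Real.pi - θ) ^ 2 / 2)
    (h : 1 / 2 * (1 + T) < Real.cos φ + T * Real.cos γ) : φ + γ < θ := by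
  have hp := Real.pi_pos
  obtain ⟨φ1, φ2⟩ := abs_le.1 hφ
  have hTi : T * T⁻¹ = 1 := mul_inv_cancel₀ hT.ne'
  by_contra hcon
  push Not at hcon
  -- the sum of the angles is below pi
  have hs : φ + γ < Real.pi := by
    by_contra hs
    push Not at hs
    have h1 : Real.cos φ ≤ Real.cos (Real.pi - γ) :=
      Real.cos_le_cos_of_nonneg_of_le_pi (by linarith) (by linarith) (by linarith)
    rw [Real.cos_pi_sub] at h1
    have h2 := Real.cos_le_one γ
    have h3 := Real.neg_one_le_cos γ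
    rcases le_total 1 T with hT | hT
    · have h4 : (T - 1) * Real.cos γ ≤ (T - 1) * 1 :=
        mul_le_mul_of_nonneg_left h2 (by linarith)
      nlinarith
    · have h4 : (1 - T) * (-1) ≤ (1 - T) * Real.cos γ :=
        mul_le_mul_of_nonneg_left h3 (by linarith)
      nlinarith
  -- Cauchy-Schwarz
  have hcs : (1 + T) ^ 2 / 4 < 1 + T ^ 2 + 2 * T * Real.cos (φ + γ) := by
    have e1 : Real.cos γ = Real.cos (φ + γ) * Real.cos φ + Real.sin (φ + γ) * Real.sin φ := by
      rw [← Real.cos_sub]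
      congr 1
      ring
    have e2 := Real.sin_sq_add_cos_sq (φ + γ)
    have e3 := Real.sin_sq_add_cos_sq φ
    rw [e1] at h
    obtain ⟨a, ha⟩ : ∃ a : ℝ, a = Real.cos (φ + γ) := ⟨_, rfl⟩
    obtain ⟨b, hb⟩ : ∃ b : ℝ, b = Real.sin (φ + γ) := ⟨_, rfl⟩
    obtain ⟨p, hp⟩ : ∃ p : ℝ, p = Real.cos φ := ⟨_, rfl⟩
    obtain ⟨q, hq⟩ : ∃ q : ℝ, q = Real.sin φ := ⟨_, rfl⟩
    rw [← ha, ← hb] at e2
    rw [← hp, ← hq] at e3
    rw [← ha, ← hb, ← hp, ← hq] at h
    rw [← ha]
    have h1 : (p + T * (a * p + b * q)) ^ 2 ≤ (1 + T * a) ^ 2 + (T * b) ^ 2 := by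
      have h2 : (1 + T * a) ^ 2 + (T * b) ^ 2 - (p + T * (a * p + b * q)) ^ 2 =
          ((1 + T * a) * q - T * b * p) ^ 2 + (1 - (q ^ 2 + p ^ 2)) *
            ((1 + T * a) ^ 2 + (T * b) ^ 2) := by ring
      rw [e3, sub_self, zero_mul, add_zero] at h2
      have := sq_nonneg ((1 + T * a) * q - T * b * p)
      linarith
    have h3 : (1 / 2 * (1 + T)) ^ 2 < (p + T * (a * p + b * q)) ^ 2 :=
      pow_lt_pow_left₀ h (by positivity) (by norm_num)
    have h4 : (1 + T * a) ^ 2 + (T * b) ^ 2 = 1 + T ^ 2 + 2 * T * a := by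
      have : (1 + T * a) ^ 2 + (T * b) ^ 2 = 1 + T ^ 2 * (b ^ 2 + a ^ 2) + 2 * T * a := by ring
      rw [this, e2]
      ring
    have h5 : (1 / 2 * (1 + T)) ^ 2 = (1 + T) ^ 2 / 4 := by ring
    linarith
  have h1 : Real.cos (φ + γ) ≤ Real.cos θ :=
    Real.cos_le_cos_of_nonneg_of_le_pi hθ0 hs.le hcon
  have h2 : Real.cos θ = -Real.cos (Real.pi - θ) := by
    rw [Real.cos_pi_sub]
    ring
  have h3 := Real.one_sub_sq_div_two_le_cos (x := Real.pi - θ)
  have h4 : Real.cos (φ + γ) ≤ -(3 / 8 * c - 1 / 4) := by linarith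
  have h5 : T * Real.cos (φ + γ) ≤ T * -(3 / 8 * c - 1 / 4) := mul_le_mul_of_nonneg_left h4 hT.le
  have h6 : T ^ 2 + 1 ≤ T * c := by
    have := mul_le_mul_of_nonneg_left hTc hT.le
    rw [mul_add, hTi] at this
    linarith
  nlinarith

/-- P7C: one edge of a wheel with seven spokes, third part -/
theorem P7C (T φ γ : ℝ) (hT : 0 < T) (hT1 : T ≤ 1)
    (h : 1 / 2 * (1 + T) < Real.cos φ + T * Real.cos γ) (hφ : |φ| ≤ 6 * Real.pi / 7) :
    φ < Real.pi / 2 := by
  have hp := Real.pi_pos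
  by_contra hc
  push Not at hc
  have h1 : Real.cos φ ≤ 0 := Real.cos_nonpos_of_pi_div_two_le_of_le hc
    (by linarith [(abs_le.1 hφ).2])
  have h2 : T * Real.cos γ ≤ T * 1 := mul_le_mul_of_nonneg_left (Real.cos_le_one γ) hT.le
  linarith

end Pool.Agent.H59.CPT
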