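import Pool.Agent.H59.CPT.Cert
import Pool.Agent.H59.CPT.MN3

/-!
MP_6a7a6f_gt: quadrilaterals without monopole at the level of `rad 3` (proof of helper81).
-/

set_option autoImplicit false

open Pool.Agent.H58.FL Pool.Agent.H59 Pool.Agent.H48.FR Pool.Agent.H58.FN

namespace Pool.Agent.H59.CPT

/-- the product formula for two of the phases -/
private theorem pair (o z : ℝ) : Real.cos (o + z) + Real.cos (o - z) =
    2 * (Real.cos o * Real.cos z) := by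
  rw [Real.cos_add, Real.cos_sub]
  ring

/-- the sum of the cosines at a vertex -/
private theorem vert (r : ℝ) (o z w q : ℝ)
    (hq : q ≤ Real.cos o * (1 + 2 * r * (Real.cos z + Real.cos w))) :
    q ≤ Real.cos o + r * (Real.cos (o - z) + Real.cos (o + z) + Real.cos (o + w) +
      Real.cos (-(o - w))) := by
  rw [Real.cos_neg]
  have h1 := pair o z
  have h2 := pair o w
  have h3 : Real.cos o + r * (Real.cos (o - z) + Real.cos (o + z) + Real.cos (o + w) +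
      Real.cos (o - w)) = Real.cos o * (1 + 2 * r * (Real.cos z + Real.cos w)) := by
    linear_combination r * h1 + r * h2
  rw [h3]
  exact hq

/-- numerical facts on `π / 14` -/
private theorem nums (u : ℝ) (hu : u = Real.pi / 14) :
    0 ≤ Real.cos u ∧ Real.cos u ≤ 9753 / 10000 ∧ 985 / 1000 < Real.cos (3 / 4 * u) ∧
      907 / 1000 < Real.cos (23 / 12 * u) ∧ 797 / 1000 < Real.cos (17 / 6 * u) ∧
      Real.cos (2 * u) = c7 := by
  have hp := Real.pi_pos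
  have hpu := Real.pi_lt_d4
  have hu0 : 0 < u := by rw [hu]; positivity
  have hu1 : u < 2244 / 10000 := by rw [hu]; linarith
  have hu2 : u ^ 2 < 5036 / 100000 := by nlinarith
  have b2 : Real.cos (2 * u) = c7 := by
    unfold c7
    rw [hu]
    congr 1
    ring
  have hcu0 : 0 ≤ Real.cos u := Real.cos_nonneg_of_mem_Icc ⟨by linarith, by linarith⟩
  have hcu : Real.cos u ≤ 9753 / 10000 := by
    have b1 : Real.cos (2 * u) = 2 * Real.cos u ^ 2 - 1 := Real.cos_two_mul _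
    rw [b2] at b1
    have := c7_lt
    clear hp hpu hu0 hu1 hu2 hu b2
    by_contra hc
    push Not at hc
    nlinarith
  have w1 : 1 - (3 / 4 * u) ^ 2 / 2 ≤ Real.cos (3 / 4 * u) := Real.one_sub_sq_div_two_le_cos
  have w2 : 1 - (23 / 12 * u) ^ 2 / 2 ≤ Real.cos (23 / 12 * u) := Real.one_sub_sq_div_two_le_cos
  have w3 : 1 - (17 / 6 * u) ^ 2 / 2 ≤ Real.cos (17 / 6 * u) := Real.one_sub_sq_div_two_le_cos
  refine ⟨hcu0, hcu, ?_, ?_, ?_, b2⟩
  · rw [mul_pow] at w1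
    linarith
  · rw [mul_pow] at w2
    linarith
  · rw [mul_pow] at w3
    linarith

private theorem val1 (r c d u3 : ℝ) (hr1 : 7071 / 10000 < r) (hr2 : 2 * r * r = 1)
    (hc : 907 / 1000 < c) (hd : 985 / 1000 < d) (hu : u3 ≤ 9753 / 10000) :
    3 * u3 ≤ c * (1 + 2 * r * (r + d)) := by
  have a1 : 2 * r * (985 / 1000) ≤ 2 * r * d := mul_le_mul_of_nonneg_left hd.le (by linarith)
  have a2 : 339 / 100 ≤ 1 + 2 * r * (r + d) := by
    rw [mul_add, hr2]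
    linarith
  have a3 : 907 / 1000 * (339 / 100) ≤ c * (1 + 2 * r * (r + d)) :=
    mul_le_mul hc.le a2 (by norm_num) (by linarith)
  linarith

private theorem val2 (r c d u3 : ℝ) (hr1 : 7071 / 10000 < r)
    (hc : 797 / 1000 < c) (hd : 985 / 1000 < d) (hu : u3 ≤ 9753 / 10000) :
    3 * u3 ≤ c * (1 + 2 * r * (d + d)) := by
  have a1 : 2 * r * (985 / 1000 + 985 / 1000) ≤ 2 * r * (d + d) :=
    mul_le_mul_of_nonneg_left (by linarith) (by linarith)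
  have a2 : 378 / 100 ≤ 1 + 2 * r * (d + d) := by linarith
  have a3 : 797 / 1000 * (378 / 100) ≤ c * (1 + 2 * r * (d + d)) :=
    mul_le_mul hc.le a2 (by norm_num) (by linarith)
  linarith

private theorem val3 (r c d : ℝ) (hr1 : 7071 / 10000 < r) (hc : 0 ≤ c)
    (hd : 90096 / 100000 < d) : 3 * c ≤ c * (1 + 2 * r * (d + d)) := by
  have a1 : 2 * r * (90096 / 100000 + 90096 / 100000) ≤ 2 * r * (d + d) :=
    mul_le_mul_of_nonneg_left (by linarith) (by linarith)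
  have a2 : 3 ≤ 1 + 2 * r * (d + d) := by linarith
  have := mul_le_mul_of_nonneg_left a2 hc
  linarith

private theorem comb (l0 l1 l2 l3 r m A B C D F a0 a1 a2 a3 b0 b1 b2 b3 c0 c1 c2 c3 d0 d1 d2 d3
    f0 f1 f2 f3 : ℝ) (p0 : 0 ≤ l0) (p1 : 0 ≤ l1) (p2 : 0 ≤ l2) (p3 : 0 ≤ l3)
    (ps : l0 + l1 + l2 + l3 = 1) (hr : 0 ≤ r)
    (j1 : l0 * a0 + l1 * a1 + l2 * a2 + l3 * a3 ≤ A)
    (j2 : l0 * b0 + l1 * b1 + l2 * b2 + l3 * b3 ≤ B)
    (j3 : l0 * c0 + l1 * c1 + l2 * c2 + l3 * c3 ≤ C)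
    (j4 : l0 * d0 + l1 * d1 + l2 * d2 + l3 * d3 ≤ D)
    (j5 : l0 * f0 + l1 * f1 + l2 * f2 + l3 * f3 ≤ F)
    (V0 : m ≤ a0 + r * (b0 + c0 + d0 + f0)) (V1 : m ≤ a1 + r * (b1 + c1 + d1 + f1))
    (V2 : m ≤ a2 + r * (b2 + c2 + d2 + f2)) (V3 : m ≤ a3 + r * (b3 + c3 + d3 + f3)) :
    m ≤ A + r * (B + C + D + F) := by
  have q0 := mul_le_mul_of_nonneg_left V0 p0
  have q1 := mul_le_mul_of_nonneg_left V1 p1
  have q2 := mul_le_mul_of_nonneg_left V2 p2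
  have q3 := mul_le_mul_of_nonneg_left V3 p3
  have k2 := mul_le_mul_of_nonneg_left j2 hr
  have k3 := mul_le_mul_of_nonneg_left j3 hr
  have k4 := mul_le_mul_of_nonneg_left j4 hr
  have k5 := mul_le_mul_of_nonneg_left j5 hr
  have hps : m = l0 * m + l1 * m + l2 * m + l3 * m := by
    rw [← add_mul, ← add_mul, ← add_mul, ps, one_mul]
  rw [hps]
  linarith

/-- the inequality of the certificate, `X ≤ Y` -/
private theorem quad_real (u r : ℝ) (hu : u = Real.pi / 14) (hr : r = Real.sqrt 2 / 2)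
    (X Y P : ℝ) (h1 : 11 ≤ P) (h2 : P - 11 ≤ X) (h3 : X ≤ Y) (h4 : Y ≤ P / 2) :
    (3 * Real.cos u ≤ Real.cos ((14 - P + (X + Y) / 2) / 3 * u) +
      r * (Real.cos (((14 - P + (X + Y) / 2) / 3 - 7 / 2 + X / 2) * u) +
        Real.cos (((14 - P + (X + Y) / 2) / 3 + 7 / 2 - X / 2) * u) +
        Real.cos (((14 - P + (X + Y) / 2) / 3 + 7 / 2 - Y / 2) * u) +
        Real.cos ((7 / 2 - (14 - P + (X + Y) / 2) / 3 - Y / 2) * u))) ∧
      |(14 - P + (X + Y) / 2) / 3 * u| ≤ Real.pi / 2 ∧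
      |((14 - P + (X + Y) / 2) / 3 - 7 / 2 + X / 2) * u| ≤ Real.pi / 2 ∧
      |((14 - P + (X + Y) / 2) / 3 + 7 / 2 - X / 2) * u| ≤ Real.pi / 2 ∧
      |((14 - P + (X + Y) / 2) / 3 + 7 / 2 - Y / 2) * u| ≤ Real.pi / 2 ∧
      |(7 / 2 - (14 - P + (X + Y) / 2) / 3 - Y / 2) * u| ≤ Real.pi / 2 := by
  have hp := Real.pi_pos
  have hpl := Real.pi_gt_d4
  have hpu := Real.pi_lt_d4
  have hu0 : 0 < u := by rw [hu]; positivity
  have hu1 : u < 2244 / 10000 := by rw [hu]; linarith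
  have h7 : Real.pi / 2 = 7 * u := by rw [hu]; ring
  have s2 : (14142 : ℝ) / 10000 < Real.sqrt 2 := by
    rw [Real.lt_sqrt (by norm_num)]
    norm_num
  have s22 : Real.sqrt 2 * Real.sqrt 2 = 2 := Real.mul_self_sqrt (by norm_num)
  have hr1 : 7071 / 10000 < r := by rw [hr]; linarith
  have hr2 : 2 * r * r = 1 := by
    rw [hr]
    linear_combination s22 / 2
  have hc45 : Real.cos (7 / 2 * u) = r := by
    rw [hr, ← Real.cos_pi_div_four]
    congr 1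
    rw [hu]
    ring
  obtain ⟨l0, hl0⟩ : ∃ l, l = (P - 2 * Y) / 11 := ⟨_, rfl⟩
  obtain ⟨l1, hl1⟩ : ∃ l, l = (Y - X) / (11 / 2) := ⟨_, rfl⟩
  obtain ⟨l2, hl2⟩ : ∃ l, l = (X - (P - 11)) / (11 / 2) := ⟨_, rfl⟩
  obtain ⟨l3, hl3⟩ : ∃ l, l = (P - 11) / 11 := ⟨_, rfl⟩
  have p0 : 0 ≤ l0 := by rw [hl0]; apply div_nonneg <;> linarith
  have p1 : 0 ≤ l1 := by rw [hl1]; apply div_nonneg <;> linarith
  have p2 : 0 ≤ l2 := by rw [hl2]; apply div_nonneg <;> linarith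
  have p3 : 0 ≤ l3 := by rw [hl3]; apply div_nonneg <;> linarith
  have ps : l0 + l1 + l2 + l3 = 1 := by rw [hl0, hl1, hl2, hl3]; ring
  have hab : ∀ c : ℝ, |c| ≤ 7 → |c * u| ≤ Real.pi / 2 := by
    intro c hc
    rw [abs_mul, abs_of_pos hu0, h7]
    exact mul_le_mul_of_nonneg_right hc hu0.le
  have j1 := cos_jensen l0 l1 l2 l3 (1 * u) (23 / 12 * u) (17 / 6 * u) (1 * u) p0 p1 p2 p3 ps
    (hab _ (by norm_num)) (hab _ (by norm_num [abs_le])) (hab _ (by norm_num [abs_le]))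
    (hab _ (by norm_num))
  have j2 := cos_jensen l0 l1 l2 l3 ((1 - 7 / 2) * u) ((23 / 12 - 7 / 2) * u)
    ((17 / 6 - 3 / 4) * u) ((1 + 2) * u) p0 p1 p2 p3 ps
    (hab _ (by norm_num [abs_le])) (hab _ (by norm_num [abs_le])) (hab _ (by norm_num [abs_le]))
    (hab _ (by norm_num [abs_le]))
  have j3 := cos_jensen l0 l1 l2 l3 ((1 + 7 / 2) * u) ((23 / 12 + 7 / 2) * u)
    ((17 / 6 + 3 / 4) * u) ((1 - 2) * u) p0 p1 p2 p3 ps
    (hab _ (by norm_num [abs_le])) (hab _ (by norm_num [abs_le])) (hab _ (by norm_num [abs_le]))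
    (hab _ (by norm_num [abs_le]))
  have j4 := cos_jensen l0 l1 l2 l3 ((1 + 7 / 2) * u) ((23 / 12 + 3 / 4) * u)
    ((17 / 6 + 3 / 4) * u) ((1 - 2) * u) p0 p1 p2 p3 ps
    (hab _ (by norm_num [abs_le])) (hab _ (by norm_num [abs_le])) (hab _ (by norm_num [abs_le]))
    (hab _ (by norm_num [abs_le]))
  have j5 := cos_jensen l0 l1 l2 l3 (-(1 - 7 / 2) * u) (-(23 / 12 - 3 / 4) * u)
    (-(17 / 6 - 3 / 4) * u) (-(1 + 2) * u) p0 p1 p2 p3 ps
    (hab _ (by norm_num [abs_le])) (hab _ (by norm_num [abs_le])) (hab _ (by norm_num [abs_le]))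
    (hab _ (by norm_num [abs_le]))
  have e1 : l0 * (1 * u) + l1 * (23 / 12 * u) + l2 * (17 / 6 * u) + l3 * (1 * u) =
      (14 - P + (X + Y) / 2) / 3 * u := by rw [hl0, hl1, hl2, hl3]; ring
  have e2 : l0 * ((1 - 7 / 2) * u) + l1 * ((23 / 12 - 7 / 2) * u) + l2 * ((17 / 6 - 3 / 4) * u) +
      l3 * ((1 + 2) * u) = ((14 - P + (X + Y) / 2) / 3 - 7 / 2 + X / 2) * u := by
    rw [hl0, hl1, hl2, hl3]; ring
  have e3 : l0 * ((1 + 7 / 2) * u) + l1 * ((23 / 12 + 7 / 2) * u) + l2 * ((17 / 6 + 3 / 4) * u) +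
      l3 * ((1 - 2) * u) = ((14 - P + (X + Y) / 2) / 3 + 7 / 2 - X / 2) * u := by
    rw [hl0, hl1, hl2, hl3]; ring
  have e4 : l0 * ((1 + 7 / 2) * u) + l1 * ((23 / 12 + 3 / 4) * u) + l2 * ((17 / 6 + 3 / 4) * u) +
      l3 * ((1 - 2) * u) = ((14 - P + (X + Y) / 2) / 3 + 7 / 2 - Y / 2) * u := by
    rw [hl0, hl1, hl2, hl3]; ring
  have e5 : l0 * (-(1 - 7 / 2) * u) + l1 * (-(23 / 12 - 3 / 4) * u) +
      l2 * (-(17 / 6 - 3 / 4) * u) + l3 * (-(1 + 2) * u) =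
      (7 / 2 - (14 - P + (X + Y) / 2) / 3 - Y / 2) * u := by
    rw [hl0, hl1, hl2, hl3]; ring
  rw [e1] at j1
  rw [e2] at j2
  rw [e3] at j3
  rw [e4] at j4
  rw [e5] at j5
  refine ⟨?_, j1.2, j2.2, j3.2, j4.2, j5.2⟩
  -- the four vertices
  obtain ⟨hcu0, hcu, w1', w2', w3', b2⟩ := nums u hu
  have V0 : 3 * Real.cos u ≤ Real.cos (1 * u) + r * (Real.cos ((1 - 7 / 2) * u) +
      Real.cos ((1 + 7 / 2) * u) + Real.cos ((1 + 7 / 2) * u) +
      Real.cos (-(1 - 7 / 2) * u)) := by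
    have := vert r (1 * u) (7 / 2 * u) (7 / 2 * u) (3 * Real.cos u) (by
      rw [hc45, one_mul]
      have : Real.cos u * (1 + 2 * r * (r + r)) = 3 * Real.cos u := by
        linear_combination 2 * Real.cos u * hr2
      linarith)
    rw [show (1 - 7 / 2) * u = 1 * u - 7 / 2 * u by ring,
      show (1 + 7 / 2) * u = 1 * u + 7 / 2 * u by ring,
      show -(1 - 7 / 2) * u = -(1 * u - 7 / 2 * u) by ring]
    exact this
  have V1 : 3 * Real.cos u ≤ Real.cos (23 / 12 * u) + r * (Real.cos ((23 / 12 - 7 / 2) * u) +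
      Real.cos ((23 / 12 + 7 / 2) * u) + Real.cos ((23 / 12 + 3 / 4) * u) +
      Real.cos (-(23 / 12 - 3 / 4) * u)) := by
    have := vert r (23 / 12 * u) (7 / 2 * u) (3 / 4 * u) (3 * Real.cos u) (by
      rw [hc45]
      exact val1 r _ _ _ hr1 hr2 w2' w1' hcu)
    rw [show (23 / 12 - 7 / 2) * u = 23 / 12 * u - 7 / 2 * u by ring,
      show (23 / 12 + 7 / 2) * u = 23 / 12 * u + 7 / 2 * u by ring,
      show (23 / 12 + 3 / 4) * u = 23 / 12 * u + 3 / 4 * u by ring,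
      show -(23 / 12 - 3 / 4) * u = -(23 / 12 * u - 3 / 4 * u) by ring]
    exact this
  have V2 : 3 * Real.cos u ≤ Real.cos (17 / 6 * u) + r * (Real.cos ((17 / 6 - 3 / 4) * u) +
      Real.cos ((17 / 6 + 3 / 4) * u) + Real.cos ((17 / 6 + 3 / 4) * u) +
      Real.cos (-(17 / 6 - 3 / 4) * u)) := by
    have := vert r (17 / 6 * u) (3 / 4 * u) (3 / 4 * u) (3 * Real.cos u)
      (val2 r _ _ _ hr1 w3' w1' hcu)
    rw [show (17 / 6 - 3 / 4) * u = 17 / 6 * u - 3 / 4 * u by ring,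
      show (17 / 6 + 3 / 4) * u = 17 / 6 * u + 3 / 4 * u by ring,
      show -(17 / 6 - 3 / 4) * u = -(17 / 6 * u - 3 / 4 * u) by ring]
    exact this
  have V3 : 3 * Real.cos u ≤ Real.cos (1 * u) + r * (Real.cos ((1 + 2) * u) +
      Real.cos ((1 - 2) * u) + Real.cos ((1 - 2) * u) +
      Real.cos (-(1 + 2) * u)) := by
    have := vert r (1 * u) (-(2 * u)) (-(2 * u)) (3 * Real.cos u) (by
      rw [Real.cos_neg, b2, one_mul]
      exact val3 r _ _ hr1 hcu0 c7_gt)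
    rw [show (1 + 2) * u = 1 * u - -(2 * u) by ring,
      show (1 - 2) * u = 1 * u + -(2 * u) by ring,
      show -(1 + 2) * u = -(1 * u - -(2 * u)) by ring]
    exact this
  exact comb _ _ _ _ _ _ _ _ _ _ _ _ _ _ _ _ _ _ _ _ _ _ _ _ _ _ _ _ _ _ _ p0 p1 p2 p3 ps
    (by linarith) j1.1 j2.1 j3.1 j4.1 j5.1 V0 V1 V2 V3

section

variable {E : Type} [NormedAddCommGroup E] [InnerProductSpace ℂ E]

private theorem core (p : Fin 4 → E) (hp : Cl3 p)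
    (he : ar (p 1) (p 2) (p 3) = ar (p 0) (p 2) (p 3) - ar (p 0) (p 1) (p 3) +
      ar (p 0) (p 1) (p 2))
    (hP : 11 * Real.pi / 14 ≤ ar (p 0) (p 1) (p 2) + ar (p 0) (p 2) (p 3))
    (hx : ar (p 0) (p 1) (p 2) ≤ (ar (p 0) (p 1) (p 2) + ar (p 0) (p 2) (p 3)) / 2)
    (hy : ar (p 0) (p 1) (p 3) ≤ (ar (p 0) (p 1) (p 2) + ar (p 0) (p 2) (p 3)) / 2) : False := by
  have hpi := Real.pi_pos
  obtain ⟨u, hu⟩ : ∃ u, u = Real.pi / 14 := ⟨_, rfl⟩
  obtain ⟨r, hr⟩ : ∃ r, r = Real.sqrt 2 / 2 := ⟨_, rfl⟩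
  have hu0 : 0 < u := by rw [hu]; positivity
  have hr0 : 0 < r := by rw [hr]; positivity
  have hr2 : r ^ 2 = 1 / 2 := by
    have : Real.sqrt 2 * Real.sqrt 2 = 2 := Real.mul_self_sqrt (by norm_num)
    rw [hr]
    linear_combination this / 4
  have t1 := MN3.tri pf_TR3 p hp 0 2 3
  have t2 := MN3.tri pf_TR3 p hp 1 2 3
  have b1 := (abs_lt.1 t1.2.2.2.2.2).2
  have b2 := (abs_lt.1 t2.2.2.2.2.2).2
  obtain ⟨X, hX⟩ : ∃ X, X = ar (p 0) (p 1) (p 2) / u := ⟨_, rfl⟩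
  obtain ⟨Y, hY⟩ : ∃ Y, Y = ar (p 0) (p 1) (p 3) / u := ⟨_, rfl⟩
  obtain ⟨P, hPe⟩ : ∃ P, P = (ar (p 0) (p 1) (p 2) + ar (p 0) (p 2) (p 3)) / u := ⟨_, rfl⟩
  have eX : ar (p 0) (p 1) (p 2) = X * u := by rw [hX]; field_simp
  have eY : ar (p 0) (p 1) (p 3) = Y * u := by rw [hY]; field_simp
  have eP : ar (p 0) (p 1) (p 2) + ar (p 0) (p 2) (p 3) = P * u := by rw [hPe]; field_simp
  have eQ : ar (p 0) (p 2) (p 3) = P * u - X * u := by rw [← eP, ← eX]; ring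
  have e11 : 11 * Real.pi / 14 = 11 * u := by rw [hu]; ring
  have e14 : Real.pi = 14 * u := by rw [hu]; ring
  have hle : ∀ s t : ℝ, s * u ≤ t * u → s ≤ t := fun s t h => le_of_mul_le_mul_right h hu0
  have h1 : 11 ≤ P := hle _ _ (by rw [← e11, ← eP]; exact hP)
  have h2x : P - 11 ≤ X := hle _ _ (by rw [eQ, e11] at b1; linarith)
  have h2y : P - 11 ≤ Y := hle _ _ (by rw [he, e11, eQ, eY, eX] at b2; linarith)
  have h4x : X ≤ P / 2 := hle _ _ (by rw [eP, eX] at hx; linarith)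
  have h4y : Y ≤ P / 2 := hle _ _ (by rw [eP, eY] at hy; linarith)
  obtain ⟨o, ho⟩ : ∃ o, o = (14 - P + (X + Y) / 2) / 3 := ⟨_, rfl⟩
  have key : 3 * Real.cos u ≤ Real.cos (o * u) +
      r * (Real.cos ((o - 7 / 2 + X / 2) * u) + Real.cos ((o + 7 / 2 - X / 2) * u) +
        Real.cos ((o + 7 / 2 - Y / 2) * u) + Real.cos ((7 / 2 - o - Y / 2) * u)) ∧
      |o * u| ≤ Real.pi / 2 ∧ |(o - 7 / 2 + X / 2) * u| ≤ Real.pi / 2 ∧
      |(o + 7 / 2 - X / 2) * u| ≤ Real.pi / 2 ∧ |(o + 7 / 2 - Y / 2) * u| ≤ Real.pi / 2 ∧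
      |(7 / 2 - o - Y / 2) * u| ≤ Real.pi / 2 := by
    rcases le_total X Y with h | h
    · rw [ho]
      exact quad_real u r hu hr X Y P h1 h2x h h4y
    · have hq := quad_real u r hu hr Y X P h1 h2y h h4x
      have ho' : (14 - P + (Y + X) / 2) / 3 = o := by rw [ho]; ring
      rw [ho'] at hq
      obtain ⟨q0, q1, q2, q3, q4, q5⟩ := hq
      have n1 : (7 / 2 - o - Y / 2) * u = -((o - 7 / 2 + Y / 2) * u) := by ring
      have n2 : (7 / 2 - o - X / 2) * u = -((o - 7 / 2 + X / 2) * u) := by ring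
      rw [n2, Real.cos_neg] at q0
      rw [n2, abs_neg] at q5
      rw [n1, Real.cos_neg, abs_neg]
      exact ⟨by linarith, q1, q5, q4, q3, q2⟩
  obtain ⟨k0, k1, k2, k3', k4, k5⟩ := key
  have hc : ∀ z : ℝ, |z| ≤ Real.pi / 2 → 0 ≤ Real.cos z := fun z hz =>
    Real.cos_nonneg_of_mem_Icc (abs_le.1 hz)
  have hcu : 0 < Real.cos u := Real.cos_pos_of_mem_Ioo ⟨by rw [hu]; linarith, by rw [hu]; linarith⟩
  have hS : r * r * Real.cos (Real.pi / 2) + r * 1 * Real.cos ((o - 7 / 2 + X / 2) * u) +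
      r * 1 * Real.cos (-((o + 7 / 2 - Y / 2) * u)) +
      r * 1 * Real.cos ((o + 7 / 2 - X / 2) * u) + 1 * 1 * Real.cos (o * u) +
      r * 1 * Real.cos ((7 / 2 - o - Y / 2) * u) = Real.cos (o * u) +
      r * (Real.cos ((o - 7 / 2 + X / 2) * u) + Real.cos ((o + 7 / 2 - X / 2) * u) +
        Real.cos ((o + 7 / 2 - Y / 2) * u) + Real.cos ((7 / 2 - o - Y / 2) * u)) := by
    rw [Real.cos_pi_div_two, Real.cos_neg]
    ring
  have hcert := cert4 k3 k3_pos (p 0) (p 1) (p 2) (p 3) (hp.1 0) (hp.1 1) (hp.1 2) (hp.1 3)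
    (hp.2 0 1) (hp.2 0 2) (hp.2 0 3) (hp.2 1 2) (hp.2 2 3) (hp.2 1 3) r r 1 1
    (Real.pi / 2) ((o - 7 / 2 + X / 2) * u) (-((o + 7 / 2 - Y / 2) * u))
    ((o + 7 / 2 - X / 2) * u) (o * u) ((7 / 2 - o - Y / 2) * u) hr0.le hr0.le zero_le_one
    zero_le_one (by rw [eX, e14]; ring) (by rw [eQ, ho]; linear_combination (-1) * e14)
    (by rw [eY, e14]; ring)
    (by rw [Real.cos_pi_div_two]) (hc _ k2) (by rw [Real.cos_neg]; exact hc _ k4) (hc _ k3')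
    (hc _ k1) (hc _ k5) (by rw [hS]; linarith)
  rw [hS, hr2] at hcert
  have h5 := sqrt_k3
  rw [← hu] at h5
  have h6 : 2 * Real.sqrt k3 * (3 * Real.cos u) ≤ 2 * Real.sqrt k3 * (Real.cos (o * u) +
      r * (Real.cos ((o - 7 / 2 + X / 2) * u) + Real.cos ((o + 7 / 2 - X / 2) * u) +
        Real.cos ((o + 7 / 2 - Y / 2) * u) + Real.cos ((7 / 2 - o - Y / 2) * u))) :=
    mul_le_mul_of_nonneg_left k0 (by positivity)
  have h7 : 2 * Real.sqrt k3 * (3 * Real.cos u) = 3 := by linear_combination 6 * h5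
  rw [h7] at h6
  linarith

/-- QUAD: quadrilaterals without monopole -/
theorem QUAD (p : Fin 4 → E) (hp : Cl3 p) (hm : mn (p 0) (p 1) (p 2) (p 3) = 0) :
    ar (p 0) (p 1) (p 2) + ar (p 0) (p 2) (p 3) < 11 * Real.pi / 14 := by
  have hpi := Real.pi_pos
  by_contra hP
  push Not at hP
  have he : ar (p 1) (p 2) (p 3) = ar (p 0) (p 2) (p 3) - ar (p 0) (p 1) (p 3) +
      ar (p 0) (p 1) (p 2) := by
    unfold mn at hm
    rw [div_eq_zero_iff] at hm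
    rcases hm with h | h
    · linarith
    · linarith
  have t012 := MN3.tri pf_TR3 p hp 0 1 2
  have t013 := MN3.tri pf_TR3 p hp 0 1 3
  have t023 := MN3.tri pf_TR3 p hp 0 2 3
  have t123 := MN3.tri pf_TR3 p hp 1 2 3
  have hq : ∀ f : Fin 4 → Fin 4, Cl3 (p ∘ f) := fun f => ⟨fun _ => hp.1 _, fun _ _ => hp.2 _ _⟩
  rcases le_total (ar (p 0) (p 1) (p 2))
    ((ar (p 0) (p 1) (p 2) + ar (p 0) (p 2) (p 3)) / 2) with hx | hx <;>
  rcases le_total (ar (p 0) (p 1) (p 3))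
    ((ar (p 0) (p 1) (p 2) + ar (p 0) (p 2) (p 3)) / 2) with hy | hy
  · exact core p hp he hP hx hy
  · refine core (p ∘ ![1, 2, 3, 0]) (hq _) ?_ ?_ ?_ ?_ <;>
      simp only [Function.comp, Matrix.cons_val_zero, Matrix.cons_val_one, Matrix.cons_val] <;>
      linarith [t013.2.2.1, t012.2.2.1, t023.2.2.1, t123.2.2.1]
  · refine core (p ∘ ![3, 0, 1, 2]) (hq _) ?_ ?_ ?_ ?_ <;>
      simp only [Function.comp, Matrix.cons_val_zero, Matrix.cons_val_one, Matrix.cons_val] <;>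
      linarith [t013.2.2.2.1, t012.2.2.2.1, t023.2.2.2.1, t123.2.2.2.1]
  · refine core (p ∘ ![2, 3, 0, 1]) (hq _) ?_ ?_ ?_ ?_ <;>
      simp only [Function.comp, Matrix.cons_val_zero, Matrix.cons_val_one, Matrix.cons_val] <;>
      linarith [t013.2.2.1, t012.2.2.1, t023.2.2.1, t123.2.2.1, t013.2.2.2.1, t012.2.2.2.1,
        t023.2.2.2.1, t123.2.2.2.1]

end

end Pool.Agent.H59.CPT
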