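import Pool.Agent.H93.CP.Targets

set_option autoImplicit false

namespace Pool.Agent.H59.CPT

open Set Filter Topology Pool.Agent.H93.CP

theorem pf_SML (hNES : T_NES) (hPWD : T_PWD) : T_SML := by
  intro G X _ _ _ _ H C b y hb hy O hO hyO
  obtain ⟨n1, n2, n3, n4, n5, n6, n7⟩ := hNES G X H C
  obtain ⟨p1, p2, p3, p4, p5, p6, p7, p8⟩ := hPWD G C.gr
  obtain ⟨ε, hε, hball⟩ := Metric.isOpen_iff.1 hO y hyO
  obtain ⟨k, hk⟩ := exists_pow_lt_of_lt_one hε (by norm_num : (1 / 2 : ℝ) < 1)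
  refine ⟨k + 1, fun w hw hkw => ?_⟩
  have hwne : w ≠ [] := by
    rintro rfl
    simp at hkw
  obtain ⟨w1, e, rfl⟩ : ∃ w1 e, w = w1 ++ [e] := by
    rcases List.eq_nil_or_concat w with h | ⟨w1, e, h⟩
    · exact absurd h hwne
    · exact ⟨w1, e, by rw [h, List.concat_eq_append]⟩
  have hleg : C.gr.Leg C.gr.root (w1 ++ [e]) := b.2.leg _ hw
  have hleg1 : C.gr.Leg C.gr.root w1 := ((p6 _ _ _).1 hleg).1
  have hlen : w1.length ≤ C.gr.lev (C.gr.fin C.gr.root w1) := p4 _ hleg1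
  intro u hu
  have hyw : y ∈ C.W (w1 ++ [e]) := hy _ hw
  have hd := (n7 w1 e hleg).2 u hu y hyw
  apply hball
  rw [Metric.mem_ball]
  refine lt_of_le_of_lt hd (lt_of_le_of_lt ?_ hk)
  have hk1 : k ≤ w1.length := by
    simp only [List.length_append, List.length_singleton] at hkw
    omega
  exact pow_le_pow_of_le_one (by norm_num) (by norm_num) (le_trans hk1 hlen)

end Pool.Agent.H59.CPT
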