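import Pool.Agent.H93.CP.Targets
import Pool.Agent.H59.TV.Smooth

set_option autoImplicit false

namespace Pool.Agent.H59.CPT

open Set Filter Topology Pool.Agent.H93.CP

theorem pf_TPA (hPCO : T_PCO) (hPBD : T_PBD) (_hORB : T_ORB) : T_TPA := by
  intro G X _ _ _ _ _ _ _ _ _ _ Y _ _ hP
  obtain ⟨f, hf, hne⟩ := hP
  obtain ⟨h1, h2, h3, h4, h5, h6⟩ := hPCO G Y.S
  have hpol : PolishSpace Y.S.Path := by
    let _ := TopologicalSpace.metrizableSpaceMetric Y.S.Path
    infer_instance
  have hInf : MeasurableSet {y : Y.S.Path | Y.S.Inf y} := by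
    have h7 := (hPBD G Y.S).2.2
    rwa [← BorelSpace.measurable_eq (α := Y.S.Path)] at h7
  have hI : StandardBorelSpace {b : Y.S.Path // Y.S.Inf b} := hInf.standardBorel
  have hPm : Measurable (fun b : {b : Y.S.Path // Y.S.Inf b} => Y.P b.1) := by
    have h7 := Y.meas
    have h8 : (inferInstance : MeasurableSpace {b : Y.S.Path // Y.S.Inf b}) = borel _ :=
      BorelSpace.measurable_eq
    rw [← h8] at h7
    exact h7
  let R : Set ((ℕ → Bool) × G × {b : Y.S.Path // Y.S.Inf b}) :=
    {r | r.2.1 • f r.1 = Y.P r.2.2.1}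
  have hR : MeasurableSet R := by
    let _ := upgradeStandardBorel X
    have ha : Measurable (fun r : (ℕ → Bool) × G × {b : Y.S.Path // Y.S.Inf b} =>
        r.2.1 • f r.1) :=
      (measurable_fst.comp measurable_snd).smul (hf.comp measurable_fst)
    have hb : Measurable (fun r : (ℕ → Bool) × G × {b : Y.S.Path // Y.S.Inf b} =>
        Y.P r.2.2.1) :=
      hPm.comp (measurable_snd.comp measurable_snd)
    exact measurableSet_eq_fun ha hb
  have : StandardBorelSpace R := hR.standardBorel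
  let Θ : R → ℕ → Bool := fun r => r.1.1
  have hΘ : Measurable Θ := measurable_fst.comp measurable_subtype_coe
  have hrange : range Θ = univ := by
    ext s
    simp only [mem_range, mem_univ, iff_true]
    obtain ⟨g, b, hb, hgb⟩ := Y.meet (f s)
    exact ⟨⟨(s, g, ⟨b, hb⟩), hgb⟩, rfl⟩
  have hunc : ¬ (range Θ).Countable := by
    rw [hrange]
    have : Uncountable (ℕ → Bool) := by
      rw [← Cardinal.aleph0_lt_mk_iff]
      simp only [Cardinal.mk_pi, Cardinal.mk_fintype, Fintype.card_bool, Nat.cast_ofNat,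
        Cardinal.prod_const, Cardinal.lift_ofNat, Cardinal.mk_nat, Cardinal.lift_aleph0,
        Cardinal.two_power_aleph0]
      exact Cardinal.aleph0_lt_continuum
    exact not_countable_univ
  obtain ⟨e, he, hee⟩ := Pool.Agent.H59.TV.exists_perfect_of_smooth Θ hΘ hunc
  refine ⟨fun u => (e u).1.2.2.1, ?_, ?_⟩
  · exact measurable_subtype_coe.comp (measurable_snd.comp (measurable_snd.comp
      (measurable_subtype_coe.comp he)))
  · intro u v huv γ hγ
    have hs := hee u v huv
    have hu : (e u).1.2.1 • f (e u).1.1 = Y.P (e u).1.2.2.1 := (e u).2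
    have hv : (e v).1.2.1 • f (e v).1.1 = Y.P (e v).1.2.2.1 := (e v).2
    have hγ' : (γ : HC Y.S.Path G).h (e u).1.2.2.1 = (e v).1.2.2.1 := hγ
    have hc := γ.2.2 (e u).1.2.2.1 (e u).1.2.2.2
    rw [hγ', ← hu, ← hv, smul_smul] at hc
    refine hne _ _ hs ((e v).1.2.1⁻¹ * ((γ : HC Y.S.Path G).c (e u).1.2.2.1 * (e u).1.2.1)) ?_
    rw [mul_smul, hc, inv_smul_smul]

end Pool.Agent.H59.CPT
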