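import Pool.Agent.H59.CPT.Num
import Pool.Agent.H58.FN.Targets
import Pool.Agent.H42.FL.TR2
import Pool.Agent.H35.FL.NU3
import Pool.Agent.H49.FL.GRM
import Pool.Agent.H49.FL.SYM

/-!
MP_6a7a6f_gt, row TR3: the phase of a triangle at the level of `rad 3`.
-/

set_option autoImplicit false

open Pool.Agent.H58.FL Pool.Agent.H59 Pool.Agent.H48.FR Pool.Agent.H58.FN

namespace Pool.Agent.H59.CPT

/-- the value of the cosine at `11π / 14` -/
theorem cos1114 : (3 * k3 - 1) / (2 * k3 * Real.sqrt k3) = Real.cos (11 * Real.pi / 14) := by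
  have hp := Real.pi_pos
  have hk := k3_pos
  have hs := Real.sqrt_pos.2 hk
  have hs2 := Real.sq_sqrt hk.le
  have h1 := sqrt_k3
  have h2 : Real.cos (11 * Real.pi / 14) = -Real.cos (3 * (Real.pi / 14)) := by
    rw [← Real.cos_pi_sub]
    congr 1
    ring
  rw [h2, Real.cos_three_mul, div_eq_iff (by positivity)]
  have hs3 : Real.sqrt k3 ^ 2 = k3 := hs2
  generalize Real.cos (Real.pi / 14) = c at *
  generalize Real.sqrt k3 = s at *
  rw [← hs3]
  have h3 : s * c = 1 / 2 := h1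
  have h4 : s ^ 3 * c ^ 3 = 1 / 8 := by
    have : s ^ 3 * c ^ 3 = (s * c) ^ 3 := by ring
    rw [this, h3]
    norm_num
  have h5 : s ^ 3 * c = s ^ 2 * (1 / 2) := by
    rw [← h3]
    ring
  linear_combination 8 * h4 - 6 * h5

theorem pf_TR3 : T_TR3 := by
  intro E _ _ a b c ha hb hc h1 h2 h3
  have hk := k3_pos
  have hcos : Real.cos (ar a b c) = Real.cos |ar a b c| := (Real.cos_abs _).symm
  have hpi : |ar a b c| ≤ Real.pi := Complex.abs_arg_le_pi _
  have h4 := (Pool.Agent.H42.FL.pf_TR2 Pool.Agent.H49.FL.pf_GRM Pool.Agent.H35.FL.pf_NU3 E a b c ha hb hc).1 k3 hk h1.le h2.le h3.le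
  unfold Ad3 at h1
  have hn1 := norm_nonneg (inner ℂ a b : ℂ)
  generalize ‖(inner ℂ a b : ℂ)‖ = r at *
  generalize ar a b c = F at *
  have hs := Real.sqrt_pos.2 hk
  have hs2 := Real.sq_sqrt hk.le
  have hsr : Real.sqrt k3 < r := by
    exact lt_of_pow_lt_pow_left₀ 2 hn1 (by rwa [hs2])
  have hr : 0 < r := hs.trans hsr
  have hk1 := k3_bd.2
  have h5 : (3 * k3 - 1) / (2 * k3 * Real.sqrt k3) < (r ^ 2 - (1 - 2 * k3)) / (2 * k3 * r) := by
    rw [div_lt_div_iff₀ (by positivity) (by positivity)]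
    generalize Real.sqrt k3 = s at *
    generalize k3 = κ at *
    subst hs2
    have e1 : 0 < (r - s) * (1 + s * r - 2 * s ^ 2) := by
      refine mul_pos (by linarith) ?_
      have : 0 < s * r := mul_pos hs hr
      nlinarith
    have e2 : 0 < 2 * s ^ 2 * ((r - s) * (1 + s * r - 2 * s ^ 2)) := by positivity
    nlinarith
  rw [cos1114] at h5
  by_contra hcon
  push Not at hcon
  have h6 : Real.cos |F| ≤ Real.cos (11 * Real.pi / 14) :=
    Real.cos_le_cos_of_nonneg_of_le_pi (by linarith [Real.pi_pos]) hpi hcon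
  rw [← hcos] at h6
  linarith

end Pool.Agent.H59.CPT
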