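import Pool.Agent.H59.CPT.VX

/-!
MP_6a7a6f_gt: certificates of rank one for graded boxes of phases: eight vertices.
-/

set_option autoImplicit false

open Pool.Agent.H58.FL Pool.Agent.H59 Pool.Agent.H48.FR Pool.Agent.H58.FN

namespace Pool.Agent.H59.CPT

/-- The vertices of the box `t0 ≤ t ≤ t1`, `a0 + a1 t ≤ e ≤ b0 + b1 t`,
`c0 + c1 t ≤ d ≤ g0 + g1 t`; the phases are `M 0 + M 1 t + M 2 e + M 3 d` with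
`M = M1, M2, M3`; `p, q, r` are the phases of the spokes at the vertices. -/
def Box (l1 l2 l3 : ℤ) (v0 v1 v2 v3 : ℚ) (M1 M2 M3 : Fin 4 → ℚ)
    (a0 a1 b0 b1 c0 c1 g0 g1 t0 t1 : ℚ) (p q r : Fin 8 → ℚ) : Prop :=
  Chk l1 l2 l3 v0 v1 v2 v3
    (M1 0 + M1 1 * t0 + M1 2 * (a0 + a1 * t0) + M1 3 * (c0 + c1 * t0))
    (M2 0 + M2 1 * t0 + M2 2 * (a0 + a1 * t0) + M2 3 * (c0 + c1 * t0))
    (M3 0 + M3 1 * t0 + M3 2 * (a0 + a1 * t0) + M3 3 * (c0 + c1 * t0)) (p 0) (q 0) (r 0) ∧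
  Chk l1 l2 l3 v0 v1 v2 v3
    (M1 0 + M1 1 * t0 + M1 2 * (a0 + a1 * t0) + M1 3 * (g0 + g1 * t0))
    (M2 0 + M2 1 * t0 + M2 2 * (a0 + a1 * t0) + M2 3 * (g0 + g1 * t0))
    (M3 0 + M3 1 * t0 + M3 2 * (a0 + a1 * t0) + M3 3 * (g0 + g1 * t0)) (p 1) (q 1) (r 1) ∧
  Chk l1 l2 l3 v0 v1 v2 v3
    (M1 0 + M1 1 * t0 + M1 2 * (b0 + b1 * t0) + M1 3 * (c0 + c1 * t0))
    (M2 0 + M2 1 * t0 + M2 2 * (b0 + b1 * t0) + M2 3 * (c0 + c1 * t0))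
    (M3 0 + M3 1 * t0 + M3 2 * (b0 + b1 * t0) + M3 3 * (c0 + c1 * t0)) (p 2) (q 2) (r 2) ∧
  Chk l1 l2 l3 v0 v1 v2 v3
    (M1 0 + M1 1 * t0 + M1 2 * (b0 + b1 * t0) + M1 3 * (g0 + g1 * t0))
    (M2 0 + M2 1 * t0 + M2 2 * (b0 + b1 * t0) + M2 3 * (g0 + g1 * t0))
    (M3 0 + M3 1 * t0 + M3 2 * (b0 + b1 * t0) + M3 3 * (g0 + g1 * t0)) (p 3) (q 3) (r 3) ∧
  Chk l1 l2 l3 v0 v1 v2 v3
    (M1 0 + M1 1 * t1 + M1 2 * (a0 + a1 * t1) + M1 3 * (c0 + c1 * t1))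
    (M2 0 + M2 1 * t1 + M2 2 * (a0 + a1 * t1) + M2 3 * (c0 + c1 * t1))
    (M3 0 + M3 1 * t1 + M3 2 * (a0 + a1 * t1) + M3 3 * (c0 + c1 * t1)) (p 4) (q 4) (r 4) ∧
  Chk l1 l2 l3 v0 v1 v2 v3
    (M1 0 + M1 1 * t1 + M1 2 * (a0 + a1 * t1) + M1 3 * (g0 + g1 * t1))
    (M2 0 + M2 1 * t1 + M2 2 * (a0 + a1 * t1) + M2 3 * (g0 + g1 * t1))
    (M3 0 + M3 1 * t1 + M3 2 * (a0 + a1 * t1) + M3 3 * (g0 + g1 * t1)) (p 5) (q 5) (r 5) ∧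
  Chk l1 l2 l3 v0 v1 v2 v3
    (M1 0 + M1 1 * t1 + M1 2 * (b0 + b1 * t1) + M1 3 * (c0 + c1 * t1))
    (M2 0 + M2 1 * t1 + M2 2 * (b0 + b1 * t1) + M2 3 * (c0 + c1 * t1))
    (M3 0 + M3 1 * t1 + M3 2 * (b0 + b1 * t1) + M3 3 * (c0 + c1 * t1)) (p 6) (q 6) (r 6) ∧
  Chk l1 l2 l3 v0 v1 v2 v3
    (M1 0 + M1 1 * t1 + M1 2 * (b0 + b1 * t1) + M1 3 * (g0 + g1 * t1))
    (M2 0 + M2 1 * t1 + M2 2 * (b0 + b1 * t1) + M2 3 * (g0 + g1 * t1))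
    (M3 0 + M3 1 * t1 + M3 2 * (b0 + b1 * t1) + M3 3 * (g0 + g1 * t1)) (p 7) (q 7) (r 7)

instance (l1 l2 l3 : ℤ) (v0 v1 v2 v3 : ℚ) (M1 M2 M3 : Fin 4 → ℚ)
    (a0 a1 b0 b1 c0 c1 g0 g1 t0 t1 : ℚ) (p q r : Fin 8 → ℚ) :
    Decidable (Box l1 l2 l3 v0 v1 v2 v3 M1 M2 M3 a0 a1 b0 b1 c0 c1 g0 g1 t0 t1 p q r) := by
  unfold Box
  infer_instance

theorem Box.exc {l1 l2 l3 : ℤ} {v0 v1 v2 v3 : ℚ} {M1 M2 M3 : Fin 4 → ℚ}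
    {a0 a1 b0 b1 c0 c1 g0 g1 t0 t1 : ℚ} {p q r : Fin 8 → ℚ}
    (h : Box l1 l2 l3 v0 v1 v2 v3 M1 M2 M3 a0 a1 b0 b1 c0 c1 g0 g1 t0 t1 p q r) (t e d : ℝ)
    (ht0 : (t0 : ℝ) ≤ t) (ht1 : t ≤ t1) (he0 : (a0 : ℝ) + a1 * t ≤ e) (he1 : e ≤ b0 + b1 * t)
    (hd0 : (c0 : ℝ) + c1 * t ≤ d) (hd1 : d ≤ g0 + g1 * t) :
    Exc l1 l2 l3 v0 v1 v2 v3 (M1 0 + M1 1 * t + M1 2 * e + M1 3 * d)
      (M2 0 + M2 1 * t + M2 2 * e + M2 3 * d) (M3 0 + M3 1 * t + M3 2 * e + M3 3 * d) := by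
  obtain ⟨h0, h1, h2, h3, h4, h5, h6, h7⟩ := h
  have w0 : (0 : ℝ) ≤ v0 := by exact_mod_cast h0.1.1.1
  have w1 : (0 : ℝ) ≤ v1 := by exact_mod_cast h0.1.1.2.1
  have w2 : (0 : ℝ) ≤ v2 := by exact_mod_cast h0.1.1.2.2.1
  have w3 : (0 : ℝ) ≤ v3 := by exact_mod_cast h0.1.1.2.2.2
  have k0 := h0.exc
  have k1 := h1.exc
  have k2 := h2.exc
  have k3 := h3.exc
  have k4 := h4.exc
  have k5 := h5.exc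
  have k6 := h6.exc
  have k7 := h7.exc
  push_cast at k0 k1 k2 k3 k4 k5 k6 k7
  -- the four edges in the direction of `t`
  have st : ∀ α α' γ γ' : ℝ,
      Exc l1 l2 l3 v0 v1 v2 v3
        (M1 0 + M1 1 * t0 + M1 2 * (α + α' * t0) + M1 3 * (γ + γ' * t0))
        (M2 0 + M2 1 * t0 + M2 2 * (α + α' * t0) + M2 3 * (γ + γ' * t0))
        (M3 0 + M3 1 * t0 + M3 2 * (α + α' * t0) + M3 3 * (γ + γ' * t0)) →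
      Exc l1 l2 l3 v0 v1 v2 v3
        (M1 0 + M1 1 * t1 + M1 2 * (α + α' * t1) + M1 3 * (γ + γ' * t1))
        (M2 0 + M2 1 * t1 + M2 2 * (α + α' * t1) + M2 3 * (γ + γ' * t1))
        (M3 0 + M3 1 * t1 + M3 2 * (α + α' * t1) + M3 3 * (γ + γ' * t1)) →
      Exc l1 l2 l3 v0 v1 v2 v3
        (M1 0 + M1 1 * t + M1 2 * (α + α' * t) + M1 3 * (γ + γ' * t))
        (M2 0 + M2 1 * t + M2 2 * (α + α' * t) + M2 3 * (γ + γ' * t))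
        (M3 0 + M3 1 * t + M3 2 * (α + α' * t) + M3 3 * (γ + γ' * t)) := by
    intro α α' γ γ' a b
    have ev : ∀ (M : Fin 4 → ℚ) (s : ℝ),
        (M 0 : ℝ) + M 1 * s + M 2 * (α + α' * s) + M 3 * (γ + γ' * s) =
        (M 0 + M 2 * α + M 3 * γ) + s * (M 1 + M 2 * α' + M 3 * γ') := by
      intro M s
      ring
    rw [ev, ev, ev] at a b ⊢
    exact Exc.bt w0 w1 w2 w3 _ _ _ _ _ _ _ _ a b t ht0 ht1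
  have s0 := st _ _ _ _ k0 k4
  have s1 := st _ _ _ _ k1 k5
  have s2 := st _ _ _ _ k2 k6
  have s3 := st _ _ _ _ k3 k7
  have se : ∀ γ : ℝ,
      Exc l1 l2 l3 v0 v1 v2 v3 (M1 0 + M1 1 * t + M1 2 * (a0 + a1 * t) + M1 3 * γ)
        (M2 0 + M2 1 * t + M2 2 * (a0 + a1 * t) + M2 3 * γ)
        (M3 0 + M3 1 * t + M3 2 * (a0 + a1 * t) + M3 3 * γ) →
      Exc l1 l2 l3 v0 v1 v2 v3 (M1 0 + M1 1 * t + M1 2 * (b0 + b1 * t) + M1 3 * γ)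
        (M2 0 + M2 1 * t + M2 2 * (b0 + b1 * t) + M2 3 * γ)
        (M3 0 + M3 1 * t + M3 2 * (b0 + b1 * t) + M3 3 * γ) →
      Exc l1 l2 l3 v0 v1 v2 v3 (M1 0 + M1 1 * t + M1 2 * e + M1 3 * γ)
        (M2 0 + M2 1 * t + M2 2 * e + M2 3 * γ) (M3 0 + M3 1 * t + M3 2 * e + M3 3 * γ) := by
    intro γ a b
    have ev : ∀ (M : Fin 4 → ℚ) (s : ℝ), (M 0 : ℝ) + M 1 * t + M 2 * s + M 3 * γ =
        (M 0 + M 1 * t + M 3 * γ) + s * M 2 := by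
      intro M s
      ring
    rw [ev, ev, ev] at a b ⊢
    exact Exc.bt w0 w1 w2 w3 _ _ _ _ _ _ _ _ a b e he0 he1
  have u0 := se _ s0 s2
  have u1 := se _ s1 s3
  have ev : ∀ (M : Fin 4 → ℚ) (s : ℝ), (M 0 : ℝ) + M 1 * t + M 2 * e + M 3 * s =
      (M 0 + M 1 * t + M 2 * e) + s * M 3 := by
    intro M s
    ring
  rw [ev, ev, ev] at u0 u1 ⊢
  exact Exc.bt w0 w1 w2 w3 _ _ _ _ _ _ _ _ u0 u1 d hd0 hd1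

end Pool.Agent.H59.CPT
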