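import Pool.Agent.H59.CPT.Cert
import Pool.Agent.H59.CPT.MN3
import Pool.Agent.H59.CPT.TR3

/-!
MP_6a7a6f_gt: certificates of rank one for polytopes of phases: a fixed vector of weights and
the vertices of the polytope are enough, since the cosine is concave on `[-π/2, π/2]`. All angles
are divided by `π`.
-/

set_option autoImplicit false

open Pool.Agent.H58.FL Pool.Agent.H59 Pool.Agent.H48.FR Pool.Agent.H58.FN

namespace Pool.Agent.H59.CPT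

/-- lower bound for the cosine -/
theorem cos_taylor (t : ℝ) (h0 : 0 ≤ t) (h1 : t ≤ 2) :
    1 - t ^ 2 / 2 * (1 - t ^ 2 / 12 * (1 - t ^ 2 / 30 * (1 - t ^ 2 / 56 *
      (1 - t ^ 2 / 90 * (1 + t ^ 2 / 66))))) ≤ Real.cos t := by
  have hx : ‖((t : ℂ) * Complex.I)‖ / (12 : ℕ).succ ≤ 1 / 2 := by
    rw [norm_mul, Complex.norm_I, mul_one, Complex.norm_real, Real.norm_of_nonneg h0]
    norm_num
    linarith
  have h2 := Complex.exp_bound' (n := 12) hx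
  rw [norm_mul, Complex.norm_I, mul_one, Complex.norm_real, Real.norm_of_nonneg h0] at h2
  have h3 := (Complex.abs_re_le_norm _).trans h2
  have hs : ∑ m ∈ Finset.range 12, ((t : ℂ) * Complex.I) ^ m / (m.factorial : ℂ) =
      ((1 - t ^ 2 / 2 + t ^ 4 / 24 - t ^ 6 / 720 + t ^ 8 / 40320 - t ^ 10 / 3628800 : ℝ) : ℂ) +
      ((t - t ^ 3 / 6 + t ^ 5 / 120 - t ^ 7 / 5040 + t ^ 9 / 362880 - t ^ 11 / 39916800 : ℝ) : ℂ) *
        Complex.I := by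
    have i2 : Complex.I ^ 2 = -1 := Complex.I_sq
    have i3 : Complex.I ^ 3 = -Complex.I := by rw [pow_succ, i2]; ring
    have i4 : Complex.I ^ 4 = 1 := by rw [pow_succ, i3]; linear_combination -i2
    have i5 : Complex.I ^ 5 = Complex.I := by rw [pow_succ, i4]; ring
    have i6 : Complex.I ^ 6 = -1 := by rw [pow_succ, i5]; linear_combination i2
    have i7 : Complex.I ^ 7 = -Complex.I := by rw [pow_succ, i6]; ring
    have i8 : Complex.I ^ 8 = 1 := by rw [pow_succ, i7]; linear_combination -i2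
    have i9 : Complex.I ^ 9 = Complex.I := by rw [pow_succ, i8]; ring
    have i10 : Complex.I ^ 10 = -1 := by rw [pow_succ, i9]; linear_combination i2
    have i11 : Complex.I ^ 11 = -Complex.I := by rw [pow_succ, i10]; ring
    simp only [Finset.sum_range_succ, Finset.sum_range_zero, mul_pow, i2, i3, i4, i5, i6, i7, i8,
      i9, i10, i11, Nat.factorial]
    push_cast
    ring
  rw [hs, Complex.sub_re, Complex.exp_ofReal_mul_I_re, Complex.add_re, Complex.ofReal_re,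
    Complex.re_ofReal_mul, Complex.I_re, mul_zero, add_zero] at h3
  have h4 := (abs_le.1 h3).1
  norm_num [Nat.factorial] at h4
  have e : 1 - t ^ 2 / 2 * (1 - t ^ 2 / 12 * (1 - t ^ 2 / 30 * (1 - t ^ 2 / 56 *
      (1 - t ^ 2 / 90 * (1 + t ^ 2 / 66))))) = 1 - t ^ 2 / 2 + t ^ 4 / 24 - t ^ 6 / 720 +
        t ^ 8 / 40320 - t ^ 10 / 3628800 - t ^ 12 / 479001600 * 2 := by ring
  rw [e]
  linarith

/-- a rational lower bound for `cos (π r)` -/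
def lc (r : ℚ) : ℚ :=
  1 - (3141593 / 1000000 * r) ^ 2 / 2 * (1 - (3141593 / 1000000 * r) ^ 2 / 12 *
    (1 - (3141593 / 1000000 * r) ^ 2 / 30 * (1 - (3141593 / 1000000 * r) ^ 2 / 56 *
      (1 - (3141593 / 1000000 * r) ^ 2 / 90 * (1 + (3141593 / 1000000 * r) ^ 2 / 66)))))

theorem lc_le (r : ℚ) (h : |(r : ℝ)| ≤ 1 / 2) : (lc r : ℝ) ≤ Real.cos (Real.pi * r) := by
  have hp := Real.pi_pos
  have hp2 : Real.pi < 3141593 / 1000000 := by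
    have := Real.pi_lt_d6
    norm_num at this ⊢
    linarith
  have h0 : 0 ≤ |(r : ℝ)| := abs_nonneg _
  have h1 := cos_taylor (3141593 / 1000000 * |(r : ℝ)|) (by positivity) (by linarith)
  have h2 : Real.cos (3141593 / 1000000 * |(r : ℝ)|) ≤ Real.cos (Real.pi * |(r : ℝ)|) := by
    refine Real.cos_le_cos_of_nonneg_of_le_pi (by positivity) ?_
      (mul_le_mul_of_nonneg_right hp2.le h0)
    have := Real.pi_gt_three
    linarith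
  have h3 : Real.cos (Real.pi * |(r : ℝ)|) = Real.cos (Real.pi * r) := by
    rw [← Real.cos_abs (Real.pi * r), abs_mul, abs_of_pos hp]
  rw [h3] at h2
  refine le_trans (le_of_eq ?_) (h1.trans h2)
  have e : (3141593 / 1000000 * |(r : ℝ)|) ^ 2 = (3141593 / 1000000 * (r : ℝ)) ^ 2 := by
    rw [mul_pow, sq_abs, mul_pow]
  rw [e]
  unfold lc
  push_cast
  ring

theorem cos14_lt : Real.cos (Real.pi / 14) < 974928 / 1000000 := by
  have h1 : Real.cos (Real.pi / 14) ^ 2 = (1 + c7) / 2 := by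
    have := Real.cos_sq (Real.pi / 14)
    rw [this]
    unfold c7
    rw [show 2 * (Real.pi / 14) = Real.pi / 7 by ring]
    ring
  have h2 : c7 < 900969 / 1000000 := by
    have hc := c7_cubic
    have hg := c7_gt
    by_contra h3
    push Not at h3
    nlinarith [mul_nonneg (sub_nonneg.2 h3) (sub_nonneg.2 h3), mul_nonneg
      (mul_nonneg (sub_nonneg.2 h3) (sub_nonneg.2 h3)) (sub_nonneg.2 h3)]
  by_contra h3
  push Not at h3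
  nlinarith

/-- The phases `x, y, z` at the hub are excluded by a certificate with the weights `v0, ..., v3`. -/
def Exc (l1 l2 l3 : ℤ) (v0 v1 v2 v3 x y z : ℝ) : Prop := ∃ d1 d2 d3 : ℝ,
  |d1| ≤ 1 / 2 ∧ |d2| ≤ 1 / 2 ∧ |d3| ≤ 1 / 2 ∧ |1 + 2 * l1 - x - d1 + d2| ≤ 1 / 2 ∧
  |1 + 2 * l2 - y - d2 + d3| ≤ 1 / 2 ∧ |1 + 2 * l3 - z - d3 + d1| ≤ 1 / 2 ∧
  Real.cos (Real.pi / 14) * (v0 ^ 2 + v1 ^ 2 + v2 ^ 2 + v3 ^ 2) ≤
    v0 * v1 * Real.cos (Real.pi * d1) + v0 * v2 * Real.cos (Real.pi * d2) +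
    v0 * v3 * Real.cos (Real.pi * d3) + v1 * v2 * Real.cos (Real.pi * (1 + 2 * l1 - x - d1 + d2)) +
    v2 * v3 * Real.cos (Real.pi * (1 + 2 * l2 - y - d2 + d3)) +
    v3 * v1 * Real.cos (Real.pi * (1 + 2 * l3 - z - d3 + d1))

/-- the cosine is concave -/
theorem cos_seg (a b s : ℝ) (ha : |a| ≤ 1 / 2) (hb : |b| ≤ 1 / 2) (h0 : 0 ≤ s) (h1 : s ≤ 1) :
    (1 - s) * Real.cos (Real.pi * a) + s * Real.cos (Real.pi * b) ≤
      Real.cos (Real.pi * ((1 - s) * a + s * b)) ∧ |(1 - s) * a + s * b| ≤ 1 / 2 := by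
  have hp := Real.pi_pos
  constructor
  · have hm : ∀ c : ℝ, |c| ≤ 1 / 2 → Real.pi * c ∈ Set.Icc (-(Real.pi / 2)) (Real.pi / 2) := by
      intro c hc
      have := abs_le.1 hc
      constructor <;> nlinarith
    have h := strictConcaveOn_cos_Icc.concaveOn.2 (hm a ha) (hm b hb) (sub_nonneg.2 h1) h0
      (by ring)
    simp only [smul_eq_mul] at h
    rw [show (1 - s) * (Real.pi * a) + s * (Real.pi * b) = Real.pi * ((1 - s) * a + s * b) by ring]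
      at h
    exact h
  · rw [abs_le] at *
    constructor <;> nlinarith

/-- convexity -/
theorem Exc.seg {l1 l2 l3 : ℤ} {v0 v1 v2 v3 x y z x' y' z' : ℝ} (hv0 : 0 ≤ v0) (hv1 : 0 ≤ v1)
    (hv2 : 0 ≤ v2) (hv3 : 0 ≤ v3) (h : Exc l1 l2 l3 v0 v1 v2 v3 x y z)
    (h' : Exc l1 l2 l3 v0 v1 v2 v3 x' y' z') (s : ℝ) (h0 : 0 ≤ s) (h1 : s ≤ 1) :
    Exc l1 l2 l3 v0 v1 v2 v3 ((1 - s) * x + s * x') ((1 - s) * y + s * y')
      ((1 - s) * z + s * z') := by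
  obtain ⟨d1, d2, d3, a1, a2, a3, a4, a5, a6, a7⟩ := h
  obtain ⟨e1, e2, e3, b1, b2, b3, b4, b5, b6, b7⟩ := h'
  have c1 := cos_seg _ _ s a1 b1 h0 h1
  have c2 := cos_seg _ _ s a2 b2 h0 h1
  have c3 := cos_seg _ _ s a3 b3 h0 h1
  have c4 := cos_seg _ _ s a4 b4 h0 h1
  have c5 := cos_seg _ _ s a5 b5 h0 h1
  have c6 := cos_seg _ _ s a6 b6 h0 h1
  rw [show (1 - s) * (1 + 2 * (l1 : ℝ) - x - d1 + d2) + s * (1 + 2 * l1 - x' - e1 + e2) =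
    1 + 2 * l1 - ((1 - s) * x + s * x') - ((1 - s) * d1 + s * e1) + ((1 - s) * d2 + s * e2) by
      ring] at c4
  rw [show (1 - s) * (1 + 2 * (l2 : ℝ) - y - d2 + d3) + s * (1 + 2 * l2 - y' - e2 + e3) =
    1 + 2 * l2 - ((1 - s) * y + s * y') - ((1 - s) * d2 + s * e2) + ((1 - s) * d3 + s * e3) by
      ring] at c5
  rw [show (1 - s) * (1 + 2 * (l3 : ℝ) - z - d3 + d1) + s * (1 + 2 * l3 - z' - e3 + e1) =
    1 + 2 * l3 - ((1 - s) * z + s * z') - ((1 - s) * d3 + s * e3) + ((1 - s) * d1 + s * e1) by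
      ring] at c6
  refine ⟨(1 - s) * d1 + s * e1, (1 - s) * d2 + s * e2, (1 - s) * d3 + s * e3, c1.2, c2.2, c3.2,
    c4.2, c5.2, c6.2, ?_⟩
  have g1 := mul_le_mul_of_nonneg_left c1.1 (mul_nonneg hv0 hv1)
  have g2 := mul_le_mul_of_nonneg_left c2.1 (mul_nonneg hv0 hv2)
  have g3 := mul_le_mul_of_nonneg_left c3.1 (mul_nonneg hv0 hv3)
  have g4 := mul_le_mul_of_nonneg_left c4.1 (mul_nonneg hv1 hv2)
  have g5 := mul_le_mul_of_nonneg_left c5.1 (mul_nonneg hv2 hv3)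
  have g6 := mul_le_mul_of_nonneg_left c6.1 (mul_nonneg hv3 hv1)
  have k1 := mul_le_mul_of_nonneg_left a7 (sub_nonneg.2 h1)
  have k2 := mul_le_mul_of_nonneg_left b7 h0
  linarith

/-- points of a line -/
theorem Exc.bt {l1 l2 l3 : ℤ} {v0 v1 v2 v3 : ℝ} (hv0 : 0 ≤ v0) (hv1 : 0 ≤ v1)
    (hv2 : 0 ≤ v2) (hv3 : 0 ≤ v3) (X Y Z u v w a b : ℝ)
    (h : Exc l1 l2 l3 v0 v1 v2 v3 (X + a * u) (Y + a * v) (Z + a * w))
    (h' : Exc l1 l2 l3 v0 v1 v2 v3 (X + b * u) (Y + b * v) (Z + b * w)) (t : ℝ) (h0 : a ≤ t)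
    (h1 : t ≤ b) : Exc l1 l2 l3 v0 v1 v2 v3 (X + t * u) (Y + t * v) (Z + t * w) := by
  rcases eq_or_lt_of_le (h0.trans h1) with e | e
  · have : t = a := le_antisymm (h1.trans e.ge) h0
    rw [this]
    exact h
  · have hb : 0 < b - a := sub_pos.2 e
    have hk := Exc.seg hv0 hv1 hv2 hv3 h h' ((t - a) / (b - a))
      (div_nonneg (sub_nonneg.2 h0) hb.le) ((div_le_one hb).2 (by linarith))
    have et : ∀ p q : ℝ, (1 - (t - a) / (b - a)) * (p + a * q) + (t - a) / (b - a) * (p + b * q) =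
        p + t * q := by
      intro p q
      field_simp
      ring
    rw [et, et, et] at hk
    exact hk

/-- the mirror image -/
theorem Exc.mirror {l1 l2 l3 : ℤ} {v0 v1 v2 v3 x y z : ℝ}
    (h : Exc l1 l2 l3 v0 v1 v2 v3 x y z) : Exc l1 l3 l2 v0 v2 v1 v3 x z y := by
  obtain ⟨d1, d2, d3, a1, a2, a3, a4, a5, a6, a7⟩ := h
  refine ⟨-d2, -d1, -d3, by rwa [abs_neg], by rwa [abs_neg], by rwa [abs_neg], ?_, ?_, ?_, ?_⟩
  · rwa [show 1 + 2 * (l1 : ℝ) - x - -d2 + -d1 = 1 + 2 * l1 - x - d1 + d2 by ring]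
  · rwa [show 1 + 2 * (l3 : ℝ) - z - -d1 + -d3 = 1 + 2 * l3 - z - d3 + d1 by ring]
  · rwa [show 1 + 2 * (l2 : ℝ) - y - -d3 + -d2 = 1 + 2 * l2 - y - d2 + d3 by ring]
  · rw [show 1 + 2 * (l1 : ℝ) - x - -d2 + -d1 = 1 + 2 * l1 - x - d1 + d2 by ring,
      show 1 + 2 * (l3 : ℝ) - z - -d1 + -d3 = 1 + 2 * l3 - z - d3 + d1 by ring,
      show 1 + 2 * (l2 : ℝ) - y - -d3 + -d2 = 1 + 2 * l2 - y - d2 + d3 by ring,
      mul_neg, mul_neg, mul_neg, Real.cos_neg, Real.cos_neg, Real.cos_neg]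
    linarith

/-- the vertices of the polytope: a rational check -/
def Chk (l1 l2 l3 : ℤ) (v0 v1 v2 v3 x y z d1 d2 d3 : ℚ) : Prop :=
  ((0 ≤ v0 ∧ 0 ≤ v1 ∧ 0 ≤ v2 ∧ 0 ≤ v3) ∧ (-1 / 2 ≤ d1 ∧ d1 ≤ 1 / 2) ∧
    (-1 / 2 ≤ d2 ∧ d2 ≤ 1 / 2) ∧ (-1 / 2 ≤ d3 ∧ d3 ≤ 1 / 2)) ∧
  ((-1 / 2 ≤ 1 + 2 * l1 - x - d1 + d2 ∧ 1 + 2 * l1 - x - d1 + d2 ≤ 1 / 2) ∧
    (-1 / 2 ≤ 1 + 2 * l2 - y - d2 + d3 ∧ 1 + 2 * l2 - y - d2 + d3 ≤ 1 / 2) ∧
    (-1 / 2 ≤ 1 + 2 * l3 - z - d3 + d1 ∧ 1 + 2 * l3 - z - d3 + d1 ≤ 1 / 2)) ∧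
  974928 / 1000000 * (v0 ^ 2 + v1 ^ 2 + v2 ^ 2 + v3 ^ 2) ≤
    v0 * v1 * lc d1 + v0 * v2 * lc d2 + v0 * v3 * lc d3 +
      v1 * v2 * lc (1 + 2 * l1 - x - d1 + d2) + v2 * v3 * lc (1 + 2 * l2 - y - d2 + d3) +
      v3 * v1 * lc (1 + 2 * l3 - z - d3 + d1)

instance (l1 l2 l3 : ℤ) (v0 v1 v2 v3 x y z d1 d2 d3 : ℚ) :
    Decidable (Chk l1 l2 l3 v0 v1 v2 v3 x y z d1 d2 d3) := by
  unfold Chk
  infer_instance

theorem Chk.exc {l1 l2 l3 : ℤ} {v0 v1 v2 v3 x y z d1 d2 d3 : ℚ}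
    (h : Chk l1 l2 l3 v0 v1 v2 v3 x y z d1 d2 d3) :
    Exc l1 l2 l3 v0 v1 v2 v3 x y z := by
  obtain ⟨⟨⟨hv0, hv1, hv2, hv3⟩, h1, h2, h3⟩, ⟨h4, h5, h6⟩, h7⟩ := h
  have ab : ∀ r : ℚ, (-1 / 2 ≤ r ∧ r ≤ 1 / 2) → |(r : ℝ)| ≤ 1 / 2 := by
    intro r hr
    have r1 : ((-1 / 2 : ℚ) : ℝ) ≤ r := Rat.cast_le.2 hr.1
    have r2 : (r : ℝ) ≤ ((1 / 2 : ℚ) : ℝ) := Rat.cast_le.2 hr.2
    push_cast at r1 r2
    rw [abs_le]
    constructor <;> linarith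
  have g1 := ab _ h1
  have g2 := ab _ h2
  have g3 := ab _ h3
  have g4 := ab _ h4
  have g5 := ab _ h5
  have g6 := ab _ h6
  have w0 : (0 : ℝ) ≤ v0 := by exact_mod_cast hv0
  have w1 : (0 : ℝ) ≤ v1 := by exact_mod_cast hv1
  have w2 : (0 : ℝ) ≤ v2 := by exact_mod_cast hv2
  have w3 : (0 : ℝ) ≤ v3 := by exact_mod_cast hv3
  have k1 := mul_le_mul_of_nonneg_left (lc_le _ g1) (mul_nonneg w0 w1)
  have k2 := mul_le_mul_of_nonneg_left (lc_le _ g2) (mul_nonneg w0 w2)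
  have k3 := mul_le_mul_of_nonneg_left (lc_le _ g3) (mul_nonneg w0 w3)
  have k4 := mul_le_mul_of_nonneg_left (lc_le _ g4) (mul_nonneg w1 w2)
  have k5 := mul_le_mul_of_nonneg_left (lc_le _ g5) (mul_nonneg w2 w3)
  have k6 := mul_le_mul_of_nonneg_left (lc_le _ g6) (mul_nonneg w3 w1)
  have h8 : (((974928 / 1000000 * (v0 ^ 2 + v1 ^ 2 + v2 ^ 2 + v3 ^ 2) : ℚ)) : ℝ) ≤
    ((v0 * v1 * lc d1 + v0 * v2 * lc d2 + v0 * v3 * lc d3 +
      v1 * v2 * lc (1 + 2 * l1 - x - d1 + d2) + v2 * v3 * lc (1 + 2 * l2 - y - d2 + d3) +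
      v3 * v1 * lc (1 + 2 * l3 - z - d3 + d1) : ℚ) : ℝ) := Rat.cast_le.2 h7
  push_cast at h8 g4 g5 g6 k4 k5 k6
  refine ⟨d1, d2, d3, g1, g2, g3, g4, g5, g6, ?_⟩
  have h9 : Real.cos (Real.pi / 14) * ((v0 : ℝ) ^ 2 + v1 ^ 2 + v2 ^ 2 + v3 ^ 2) ≤
      974928 / 1000000 * ((v0 : ℝ) ^ 2 + v1 ^ 2 + v2 ^ 2 + v3 ^ 2) :=
    mul_le_mul_of_nonneg_right cos14_lt.le (by positivity)
  linarith

section

variable {E : Type} [NormedAddCommGroup E] [InnerProductSpace ℂ E]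

theorem cos_nonneg' (a : ℝ) (h : |a| ≤ 1 / 2) : 0 ≤ Real.cos (Real.pi * a) := by
  have hp := Real.pi_pos
  have := abs_le.1 h
  refine Real.cos_nonneg_of_neg_pi_div_two_le_of_le ?_ ?_ <;> nlinarith

/-- The certificates exclude the phases of four close points. -/
theorem Exc.absurd {l1 l2 l3 : ℤ} {v0 v1 v2 v3 : ℝ} (hv0 : 0 < v0) (hv1 : 0 ≤ v1)
    (hv2 : 0 ≤ v2) (hv3 : 0 ≤ v3) (p : Fin 4 → E) (hp : Cl3 p)
    (h : Exc l1 l2 l3 v0 v1 v2 v3 (ar (p 0) (p 1) (p 2) / Real.pi)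
      (ar (p 0) (p 2) (p 3) / Real.pi) (ar (p 0) (p 3) (p 1) / Real.pi)) : False := by
  obtain ⟨d1, d2, d3, a1, a2, a3, a4, a5, a6, a7⟩ := h
  have hpi := Real.pi_pos
  have hs : ar (p 0) (p 3) (p 1) = -ar (p 0) (p 1) (p 3) := (MN3.tri pf_TR3 p hp 0 1 3).2.1
  obtain ⟨x, hx⟩ : ∃ x, x = ar (p 0) (p 1) (p 2) / Real.pi := ⟨_, rfl⟩
  obtain ⟨y, hy⟩ : ∃ y, y = ar (p 0) (p 2) (p 3) / Real.pi := ⟨_, rfl⟩
  obtain ⟨z, hz⟩ : ∃ z, z = ar (p 0) (p 3) (p 1) / Real.pi := ⟨_, rfl⟩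
  have ex : ar (p 0) (p 1) (p 2) = Real.pi * x := by rw [hx]; field_simp
  have ey : ar (p 0) (p 2) (p 3) = Real.pi * y := by rw [hy]; field_simp
  have ez : ar (p 0) (p 1) (p 3) = -(Real.pi * z) := by rw [hz, hs]; field_simp
  rw [← hx, ← hy, ← hz] at a7
  rw [← hx] at a4
  rw [← hy] at a5
  rw [← hz] at a6
  have per : ∀ (l : ℤ) (a : ℝ), Real.cos (Real.pi * (1 + 2 * l + a)) =
      Real.cos (Real.pi * (1 + a)) := by
    intro l a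
    rw [show Real.pi * (1 + 2 * (l : ℝ) + a) = Real.pi * (1 + a) + l * (2 * Real.pi) by ring,
      Real.cos_add_int_mul_two_pi]
  have e1 : Real.cos (Real.pi * (1 + 2 * l1 - x - d1 + d2)) =
      Real.cos (Real.pi * (1 - x - d1 + d2)) := by
    rw [show 1 + 2 * (l1 : ℝ) - x - d1 + d2 = 1 + 2 * l1 + (- x - d1 + d2) by ring, per,
      show 1 + (-x - d1 + d2) = 1 - x - d1 + d2 by ring]
  have e2 : Real.cos (Real.pi * (1 + 2 * l2 - y - d2 + d3)) =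
      Real.cos (Real.pi * (1 - y - d2 + d3)) := by
    rw [show 1 + 2 * (l2 : ℝ) - y - d2 + d3 = 1 + 2 * l2 + (- y - d2 + d3) by ring, per,
      show 1 + (-y - d2 + d3) = 1 - y - d2 + d3 by ring]
  have e3 : Real.cos (Real.pi * (1 + 2 * l3 - z - d3 + d1)) =
      Real.cos (Real.pi * (1 + z - d1 + d3)) := by
    rw [show 1 + 2 * (l3 : ℝ) - z - d3 + d1 = 1 + 2 * l3 + (- z - d3 + d1) by ring, per,
      show Real.pi * (1 + (-z - d3 + d1)) = 2 * Real.pi - Real.pi * (1 + z - d1 + d3) by ring,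
      Real.cos_two_pi_sub]
  have n4 := cos_nonneg' _ a4
  have n5 := cos_nonneg' _ a5
  have n6 := cos_nonneg' _ a6
  rw [e1] at n4 a7
  rw [e2] at n5 a7
  rw [e3] at n6 a7
  have hc : 0 < Real.cos (Real.pi / 14) :=
    Real.cos_pos_of_mem_Ioo ⟨by linarith, by linarith⟩
  have hS : 0 < v0 ^ 2 + v1 ^ 2 + v2 ^ 2 + v3 ^ 2 := by positivity
  have hm := mul_pos hc hS
  have ad : ∀ i j, k3 < ‖(inner ℂ (p i) (p j) : ℂ)‖ ^ 2 := hp.2
  have hcert := cert4 k3 k3_pos (p 0) (p 1) (p 2) (p 3) (hp.1 _) (hp.1 _) (hp.1 _) (hp.1 _)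
    (ad 0 1) (ad 0 2) (ad 0 3) (ad 1 2) (ad 2 3) (ad 1 3) v0 v1 v2 v3 (Real.pi * d1)
    (Real.pi * d2) (Real.pi * d3) (Real.pi * (1 - x - d1 + d2)) (Real.pi * (1 - y - d2 + d3))
    (Real.pi * (1 + z - d1 + d3)) hv0.le hv1 hv2 hv3 (by rw [ex]; ring) (by rw [ey]; ring)
    (by rw [ez]; ring) (cos_nonneg' _ a1) (cos_nonneg' _ a2) (cos_nonneg' _ a3) n4 n5 n6
    (by linarith)
  have hk := sqrt_k3
  have hq : 0 < Real.sqrt k3 := Real.sqrt_pos.2 k3_pos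
  have h1 : 2 * Real.sqrt k3 * (Real.cos (Real.pi / 14) * (v0 ^ 2 + v1 ^ 2 + v2 ^ 2 + v3 ^ 2)) =
      v0 ^ 2 + v1 ^ 2 + v2 ^ 2 + v3 ^ 2 := by
    calc _ = 2 * (Real.sqrt k3 * Real.cos (Real.pi / 14)) *
        (v0 ^ 2 + v1 ^ 2 + v2 ^ 2 + v3 ^ 2) := by ring
      _ = _ := by rw [hk]; ring
  have h2 : 2 * Real.sqrt k3 * (Real.cos (Real.pi / 14) * (v0 ^ 2 + v1 ^ 2 + v2 ^ 2 + v3 ^ 2)) ≤
      2 * Real.sqrt k3 * (v0 * v1 * Real.cos (Real.pi * d1) + v0 * v2 * Real.cos (Real.pi * d2) +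
        v0 * v3 * Real.cos (Real.pi * d3) + v1 * v2 * Real.cos (Real.pi * (1 - x - d1 + d2)) +
        v2 * v3 * Real.cos (Real.pi * (1 - y - d2 + d3)) +
        v1 * v3 * Real.cos (Real.pi * (1 + z - d1 + d3))) :=
    mul_le_mul_of_nonneg_left (by linarith) (by positivity)
  linarith

end

end Pool.Agent.H59.CPT
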