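import Pool.Agent.H58.FL.TargetsD
import Pool.Agent.H42.FL.TR2

/-!
MP_6a7a6f_gt: a wheel with `N` spokes, sharp form, for all spokes.
-/

set_option autoImplicit false

open Pool.Agent.H58.FL Pool.Agent.H59 Pool.Agent.H48.FR

namespace Pool.Agent.H59.CPT

noncomputable section

section

variable {E : Type} [NormedAddCommGroup E] [InnerProductSpace ℂ E]

/-- the overlap with the hub -/
def bb (h x : E) : ℝ := ‖inner ℂ h x‖

/-- the complementary number -/
def ss (h x : E) : ℝ := Real.sqrt (1 - bb h x ^ 2)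

private def yy (h x : E) : E := ((bb h x : ℂ) / inner ℂ h x) • x

private theorem y1 (h x : E) (hb : 0 < bb h x) : inner ℂ h (yy h x) = (bb h x : ℂ) := by
  have h0 : inner ℂ h x ≠ 0 := norm_pos_iff.1 hb
  unfold yy
  rw [inner_smul_right, div_mul_cancel₀ _ h0]

private theorem y2 (h x : E) (hb : 0 < bb h x) (hx : ‖x‖ = 1) : ‖yy h x‖ = 1 := by
  unfold yy
  rw [norm_smul, hx, mul_one, norm_div, Complex.norm_real, Real.norm_of_nonneg hb.le]
  exact div_self (ne_of_gt hb)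

private theorem conj_mul_self' (z : ℂ) : (starRingEnd ℂ) z * z = ((‖z‖ : ℝ) : ℂ) ^ 2 := by
  rw [mul_comm, Complex.mul_conj, Complex.normSq_eq_norm_sq]
  push_cast
  rfl

private theorem y3 (h x x' : E) (hb : 0 < bb h x) (hb' : 0 < bb h x') :
    (bb h x : ℂ) * bb h x' * inner ℂ (yy h x) (yy h x') =
      inner ℂ h x * inner ℂ x x' * inner ℂ x' h := by
  have h0 : inner ℂ h x ≠ 0 := norm_pos_iff.1 hb
  have h0' : inner ℂ h x' ≠ 0 := norm_pos_iff.1 hb'
  have h1 : (starRingEnd ℂ) (inner ℂ h x) ≠ 0 := by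
    rwa [Ne, map_eq_zero]
  unfold yy
  rw [inner_smul_left, inner_smul_right, map_div₀, Complex.conj_ofReal,
    ← inner_conj_symm x' h]
  have e1 : (starRingEnd ℂ) (inner ℂ h x) * inner ℂ h x = ((bb h x : ℝ) : ℂ) ^ 2 :=
    conj_mul_self' _
  have e2 : (starRingEnd ℂ) (inner ℂ h x') * inner ℂ h x' = ((bb h x' : ℝ) : ℂ) ^ 2 :=
    conj_mul_self' _
  have e3 : (bb h x : ℂ) * ((bb h x : ℂ) / (starRingEnd ℂ) (inner ℂ h x)) = inner ℂ h x := by
    rw [← mul_div_assoc, ← sq, ← e1, mul_comm, mul_div_assoc, div_self h1, mul_one]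
  have e4 : (bb h x' : ℂ) * ((bb h x' : ℂ) / inner ℂ h x') =
      (starRingEnd ℂ) (inner ℂ h x') := by
    rw [← mul_div_assoc, ← sq, ← e2, mul_div_assoc, div_self h0', mul_one]
  linear_combination (((bb h x' : ℂ) * ((bb h x' : ℂ) / inner ℂ h x')) * inner ℂ x x') * e3 +
    (inner ℂ h x * inner ℂ x x') * e4

theorem bb_le (h x : E) (hh : ‖h‖ = 1) (hx : ‖x‖ = 1) : bb h x ≤ 1 := by
  have := norm_inner_le_norm (𝕜 := ℂ) h x
  rw [hh, hx, one_mul] at this
  exact this

theorem ss_sq (h x : E) (hh : ‖h‖ = 1) (hx : ‖x‖ = 1) : ss h x ^ 2 = 1 - bb h x ^ 2 := by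
  unfold ss
  have h1 := bb_le h x hh hx
  have h2 : 0 ≤ bb h x := norm_nonneg _
  exact Real.sq_sqrt (by nlinarith)

/-- the unit vector orthogonal to the hub -/
private theorem exu (h x : E) (hh : ‖h‖ = 1) (hx : ‖x‖ = 1) (hb : 0 < bb h x) :
    ∃ u : E, ‖u‖ = 1 ∧ yy h x = (bb h x : ℂ) • h + (ss h x : ℂ) • u ∧
      (ss h x : ℂ) * inner ℂ h u = 0 := by
  have h3 : inner ℂ h h = (1 : ℂ) := by
    rw [inner_self_eq_norm_sq_to_K, hh]
    simp
  obtain ⟨w, hw⟩ : ∃ w, w = yy h x - (bb h x : ℂ) • h := ⟨_, rfl⟩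
  have hw1 : inner ℂ h w = (0 : ℂ) := by
    rw [hw, inner_sub_right, inner_smul_right, y1 h x hb, h3, mul_one, sub_self]
  have hy : yy h x = (bb h x : ℂ) • h + w := by rw [hw]; abel
  have hw2 : ‖w‖ ^ 2 = ss h x ^ 2 := by
    have h4 : ‖(bb h x : ℂ) • h + w‖ ^ 2 = ‖(bb h x : ℂ) • h‖ ^ 2 + ‖w‖ ^ 2 := by
      have := norm_add_sq_eq_norm_sq_add_norm_sq_of_inner_eq_zero (𝕜 := ℂ) ((bb h x : ℂ) • h) w
        (by rw [inner_smul_left, hw1, mul_zero])
      simpa [sq] using this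
    rw [← hy, y2 h x hb hx, norm_smul, hh, Complex.norm_real, Real.norm_of_nonneg hb.le] at h4
    rw [ss_sq h x hh hx]
    linarith
  have hs0 : 0 ≤ ss h x := Real.sqrt_nonneg _
  have hw3 : ‖w‖ = ss h x := (sq_eq_sq₀ (norm_nonneg _) hs0).1 hw2
  by_cases hs : ss h x = 0
  · refine ⟨h, hh, ?_, ?_⟩
    · rw [hs] at hw3
      rw [hy, norm_eq_zero.1 hw3, hs]
      simp
    · rw [hs]
      simp
  · have hs1 : (ss h x : ℂ) ≠ 0 := by exact_mod_cast hs
    refine ⟨((ss h x : ℂ))⁻¹ • w, ?_, ?_, ?_⟩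
    · rw [norm_smul, hw3, norm_inv, Complex.norm_real, Real.norm_of_nonneg hs0]
      exact inv_mul_cancel₀ hs
    · rw [smul_smul, mul_inv_cancel₀ hs1, one_smul, hy]
    · rw [inner_smul_right, hw1, mul_zero, mul_zero]

private theorem exU (h : E) (hh : ‖h‖ = 1) : ∃ U : E → E, ∀ x, ‖x‖ = 1 → 0 < bb h x →
    ‖U x‖ = 1 ∧ yy h x = (bb h x : ℂ) • h + (ss h x : ℂ) • U x ∧
      (ss h x : ℂ) * inner ℂ h (U x) = 0 := by
  classical
  refine ⟨fun x => if hx : ‖x‖ = 1 ∧ 0 < bb h x then (exu h x hh hx.1 hx.2).choose else h, ?_⟩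
  intro x h1 h2
  have h3 : ‖x‖ = 1 ∧ 0 < bb h x := ⟨h1, h2⟩
  simp only [dif_pos h3]
  exact (exu h x hh h1 h2).choose_spec

private theorem u1 (h : E) (U : E → E) (hh : ‖h‖ = 1) (hU : ∀ x, ‖x‖ = 1 → 0 < bb h x →
    ‖U x‖ = 1 ∧ yy h x = (bb h x : ℂ) • h + (ss h x : ℂ) • U x ∧
      (ss h x : ℂ) * inner ℂ h (U x) = 0) (x x' : E) (hx : ‖x‖ = 1) (hx' : ‖x'‖ = 1)
    (hb : 0 < bb h x) (hb' : 0 < bb h x') :
    (ss h x : ℂ) * ss h x' * inner ℂ (U x) (U x') =
      inner ℂ (yy h x) (yy h x') - bb h x * bb h x' := by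
  obtain ⟨-, e1, e2⟩ := hU x hx hb
  obtain ⟨-, e3, e4⟩ := hU x' hx' hb'
  have h3 : inner ℂ h h = (1 : ℂ) := by
    rw [inner_self_eq_norm_sq_to_K, hh]
    simp
  have e5 : (ss h x : ℂ) * inner ℂ (U x) h = 0 := by
    have := congrArg (starRingEnd ℂ) e2
    rw [map_mul, Complex.conj_ofReal, inner_conj_symm, map_zero] at this
    exact this
  rw [e1, e3, inner_add_left, inner_add_right, inner_add_right, inner_smul_left, inner_smul_left,
    inner_smul_left, inner_smul_left, inner_smul_right, inner_smul_right, inner_smul_right,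
    inner_smul_right, Complex.conj_ofReal, Complex.conj_ofReal, h3]
  linear_combination (-(bb h x : ℂ)) * e4 - (bb h x' : ℂ) * e5

end

/-- WHG: a wheel with `N` spokes, sharp form, for all spokes -/
theorem WHG {E : Type} [NormedAddCommGroup E] [InnerProductSpace ℂ E] (κ : ℝ) (N : ℕ)
    (h : E) (x : ℕ → E) (δ : ℝ) (k : ℤ) (hκ0 : 0 < κ) (hh : ‖h‖ = 1) (hx : ∀ j, ‖x j‖ = 1)
    (hxN : x N = x 0) (hsp : ∀ j, κ ≤ ‖inner ℂ h (x j)‖ ^ 2)
    (had : ∀ j, κ < ‖inner ℂ (x j) (x (j + 1))‖ ^ 2) (hδ : 0 < Real.cos δ)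
    (hsum : ∑ j ∈ Finset.range N, (ar h (x j) (x (j + 1)) - δ) = (2 * k + 1) * Real.pi) :
    ∃ t γ : ℕ → ℝ, t N = t 0 ∧
      (∀ j, 0 ≤ t j ∧ κ * (1 + t j ^ 2) ≤ 1 ∧ ‖inner ℂ h (x j)‖ ^ 2 * (1 + t j ^ 2) = 1) ∧
      (∀ j, 0 ≤ γ j ∧ γ j ≤ Real.pi) ∧ Real.pi ≤ ∑ j ∈ Finset.range N, γ j ∧
      ∀ j, (Real.sqrt κ * Real.cos δ * Real.sqrt ((1 + t j ^ 2) * (1 + t (j + 1) ^ 2)) <
          Real.cos (ar h (x j) (x (j + 1)) - δ) + t j * t (j + 1) * Real.cos (γ j)) ∧
        (|Real.cos δ * Real.sin (ar h (x j) (x (j + 1)) - δ) +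
          Real.sin δ * (Real.cos (ar h (x j) (x (j + 1)) - δ) +
            t j * t (j + 1) * Real.cos (γ j))| ≤
          Real.cos δ * (t j * t (j + 1) * Real.sin (γ j))) ∧
        Real.cos (ar h (x j) (x (j + 1)) - δ) + t j * t (j + 1) * Real.cos (γ j) =
          ‖inner ℂ (x j) (x (j + 1))‖ * Real.cos δ *
            Real.sqrt ((1 + t j ^ 2) * (1 + t (j + 1) ^ 2)) := by
  have hb : ∀ j, 0 < bb h (x j) := by
    intro j
    have h1 := hsp j
    rcases lt_or_eq_of_le (norm_nonneg (inner ℂ h (x j) : ℂ)) with h2 | h2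
    · exact h2
    · rw [← h2] at h1
      norm_num at h1
      linarith
  have hb1 : ∀ j, κ ≤ bb h (x j) ^ 2 := fun j => hsp j
  have hs2 : ∀ j, ss h (x j) ^ 2 = 1 - bb h (x j) ^ 2 := fun j => ss_sq h (x j) hh (hx j)
  have hs : ∀ j, 0 ≤ ss h (x j) := fun j => Real.sqrt_nonneg _
  obtain ⟨U, hU⟩ := exU h hh
  set θ : ℕ → ℝ := fun j => ar h (x j) (x (j + 1)) with hθ
  set z : ℕ → ℂ := fun j => Complex.exp (-((((θ j - δ : ℝ)) : ℂ) * Complex.I)) *
    inner ℂ (U (x j)) (U (x (j + 1))) with hz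
  have hu : ∀ j, ‖U (x j)‖ = 1 := fun j => (hU (x j) (hx j) (hb j)).1
  have hzn : ∀ j, ‖z j‖ ≤ 1 := by
    intro j
    simp only [hz]
    rw [norm_mul, ← neg_mul, ← Complex.ofReal_neg, Complex.norm_exp_ofReal_mul_I, one_mul]
    refine (norm_inner_le_norm _ _).trans ?_
    rw [hu, hu, one_mul]
  have hcn : ∀ j, |(z j).re| ≤ 1 := fun j => (Complex.abs_re_le_norm _).trans (hzn j)
  have hcos : ∀ j, Real.cos (Real.arccos (z j).re) = (z j).re := fun j =>
    Real.cos_arccos (abs_le.1 (hcn j)).1 (abs_le.1 (hcn j)).2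
  have hsin : ∀ j, |(z j).im| ≤ Real.sin (Real.arccos (z j).re) := by
    intro j
    rw [Real.sin_arccos]
    apply Real.abs_le_sqrt
    have h1 := hzn j
    have h2 : ‖z j‖ ^ 2 = (z j).re ^ 2 + (z j).im ^ 2 := by
      rw [← Complex.normSq_eq_norm_sq, Complex.normSq_apply]
      ring
    have h3 : ‖z j‖ ^ 2 ≤ 1 := by
      have := norm_nonneg (z j)
      nlinarith
    linarith
  -- the inner products of the points
  have hG : ∀ j, inner ℂ (yy h (x j)) (yy h (x (j + 1))) =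
      (‖(inner ℂ (x j) (x (j + 1)) : ℂ)‖ : ℂ) * Complex.exp ((θ j : ℂ) * Complex.I) := by
    intro j
    have h1 := y3 h (x j) (x (j + 1)) (hb j) (hb (j + 1))
    have hbb : 0 < bb h (x j) * bb h (x (j + 1)) := mul_pos (hb j) (hb (j + 1))
    have h2 : (inner ℂ (yy h (x j)) (yy h (x (j + 1))) : ℂ).arg = θ j := by
      have h3 : ((bb h (x j) * bb h (x (j + 1)) : ℝ) : ℂ) *
          inner ℂ (yy h (x j)) (yy h (x (j + 1))) =
          inner ℂ h (x j) * inner ℂ (x j) (x (j + 1)) * inner ℂ (x (j + 1)) h := by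
        rw [← h1]
        push_cast
        ring
      rw [← Complex.arg_real_mul _ hbb, h3]
      rfl
    have h3 : ‖(inner ℂ (yy h (x j)) (yy h (x (j + 1))) : ℂ)‖ =
        ‖(inner ℂ (x j) (x (j + 1)) : ℂ)‖ := by
      have h4 := congrArg norm h1
      rw [norm_mul, norm_mul, norm_mul, norm_mul, Complex.norm_real, Complex.norm_real,
        Real.norm_of_nonneg (hb j).le, Real.norm_of_nonneg (hb (j + 1)).le,
        norm_inner_symm (x (j + 1)) h] at h4
      have h5 : bb h (x j) * bb h (x (j + 1)) *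
          ‖(inner ℂ (yy h (x j)) (yy h (x (j + 1))) : ℂ)‖ =
          bb h (x j) * bb h (x (j + 1)) * ‖(inner ℂ (x j) (x (j + 1)) : ℂ)‖ := by
        rw [h4]
        show bb h (x j) * ‖(inner ℂ (x j) (x (j + 1)) : ℂ)‖ * bb h (x (j + 1)) = _
        ring
      exact mul_left_cancel₀ (ne_of_gt hbb) h5
    rw [← h2, ← h3]
    exact (Complex.norm_mul_exp_arg_mul_I _).symm
  -- the equation of an edge
  have hE : ∀ j, ss h (x j) * ss h (x (j + 1)) * (z j).re =
      ‖(inner ℂ (x j) (x (j + 1)) : ℂ)‖ * Real.cos δ -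
        bb h (x j) * bb h (x (j + 1)) * Real.cos (θ j - δ) ∧
      ss h (x j) * ss h (x (j + 1)) * (z j).im =
      ‖(inner ℂ (x j) (x (j + 1)) : ℂ)‖ * Real.sin δ +
        bb h (x j) * bb h (x (j + 1)) * Real.sin (θ j - δ) := by
    intro j
    have h1 := u1 h U hh hU (x j) (x (j + 1)) (hx j) (hx (j + 1)) (hb j) (hb (j + 1))
    rw [hG j] at h1
    have h2 : ((ss h (x j) * ss h (x (j + 1)) : ℝ) : ℂ) * z j =
        ((‖(inner ℂ (x j) (x (j + 1)) : ℂ)‖ : ℝ) : ℂ) * Complex.exp ((δ : ℂ) * Complex.I) -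
          ((bb h (x j) * bb h (x (j + 1)) : ℝ) : ℂ) *
            Complex.exp (((-(θ j - δ) : ℝ) : ℂ) * Complex.I) := by
      have e1 : Complex.exp ((δ : ℂ) * Complex.I) =
          Complex.exp (-((((θ j - δ : ℝ)) : ℂ) * Complex.I)) *
            Complex.exp ((θ j : ℂ) * Complex.I) := by
        rw [← Complex.exp_add]
        congr 1
        push_cast
        ring
      have e2 : Complex.exp (((-(θ j - δ) : ℝ) : ℂ) * Complex.I) =
          Complex.exp (-((((θ j - δ : ℝ)) : ℂ) * Complex.I)) := by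
        congr 1
        push_cast
        ring
      simp only [hz]
      rw [e1, e2]
      push_cast at h1 ⊢
      linear_combination (Complex.exp (-(((θ j : ℂ) - (δ : ℂ)) * Complex.I))) * h1
    have h3 := congrArg Complex.re h2
    have h4 := congrArg Complex.im h2
    rw [Complex.re_ofReal_mul, Complex.sub_re, Complex.re_ofReal_mul, Complex.re_ofReal_mul,
      Complex.exp_ofReal_mul_I_re, Complex.exp_ofReal_mul_I_re, Real.cos_neg] at h3
    rw [Complex.im_ofReal_mul, Complex.sub_im, Complex.im_ofReal_mul, Complex.im_ofReal_mul,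
      Complex.exp_ofReal_mul_I_im, Complex.exp_ofReal_mul_I_im, Real.sin_neg] at h4
    exact ⟨h3, by linarith⟩
  refine ⟨fun j => ss h (x j) / bb h (x j), fun j => Real.arccos (z j).re, ?_, ?_, ?_, ?_, ?_⟩
  · simp only [hxN]
  · intro j
    have b0 := hb j
    have b1 := hb1 j
    have hbp : 0 < bb h (x j) ^ 2 := by positivity
    have h1 : bb h (x j) ^ 2 * (1 + (ss h (x j) / bb h (x j)) ^ 2) = 1 := by
      rw [div_pow, hs2 j]
      field_simp
      ring
    refine ⟨div_nonneg (hs j) b0.le, ?_, h1⟩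
    have h2 : 0 < 1 + (ss h (x j) / bb h (x j)) ^ 2 := by positivity
    have := mul_le_mul_of_nonneg_right b1 h2.le
    simp only
    linarith
  · exact fun j => ⟨Real.arccos_nonneg _, Real.arccos_le_pi _⟩
  · exact Pool.Agent.H42.FL.pf_STI E N (fun j => U (x j)) (fun j => θ j - δ) k hu
      (by simp only [hxN]) hsum
  · intro j
    have b0 := hb j
    have b0' := hb (j + 1)
    have hbb : 0 < bb h (x j) * bb h (x (j + 1)) := mul_pos b0 b0'
    obtain ⟨h1, h1'⟩ := hE j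
    have hT : ss h (x j) / bb h (x j) * (ss h (x (j + 1)) / bb h (x (j + 1))) *
        (bb h (x j) * bb h (x (j + 1))) = ss h (x j) * ss h (x (j + 1)) := by
      field_simp
    have hT0 : 0 ≤ ss h (x j) / bb h (x j) * (ss h (x (j + 1)) / bb h (x (j + 1))) :=
      mul_nonneg (div_nonneg (hs j) b0.le) (div_nonneg (hs (j + 1)) b0'.le)
    -- the root
    have hroot : Real.sqrt ((1 + (ss h (x j) / bb h (x j)) ^ 2) *
        (1 + (ss h (x (j + 1)) / bb h (x (j + 1))) ^ 2)) =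
        1 / (bb h (x j) * bb h (x (j + 1))) := by
      have e1 : 1 + (ss h (x j) / bb h (x j)) ^ 2 = 1 / bb h (x j) ^ 2 := by
        rw [div_pow, hs2 j]
        field_simp
        ring
      have e2 : 1 + (ss h (x (j + 1)) / bb h (x (j + 1))) ^ 2 = 1 / bb h (x (j + 1)) ^ 2 := by
        rw [div_pow, hs2 (j + 1)]
        field_simp
        ring
      rw [e1, e2]
      have e3 : 1 / bb h (x j) ^ 2 * (1 / bb h (x (j + 1)) ^ 2) =
          (1 / (bb h (x j) * bb h (x (j + 1)))) ^ 2 := by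
        rw [div_pow, mul_pow]
        field_simp
      rw [e3]
      exact Real.sqrt_sq (by positivity)
    have hC : Real.cos (θ j - δ) + ss h (x j) / bb h (x j) *
        (ss h (x (j + 1)) / bb h (x (j + 1))) * (z j).re =
        ‖(inner ℂ (x j) (x (j + 1)) : ℂ)‖ * Real.cos δ *
          (1 / (bb h (x j) * bb h (x (j + 1)))) := by
      rw [mul_one_div, eq_div_iff (ne_of_gt hbb)]
      linear_combination h1 + (z j).re * hT
    have h4 : Real.sqrt κ < ‖(inner ℂ (x j) (x (j + 1)) : ℂ)‖ := by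
      rw [Real.sqrt_lt' (by
        rcases lt_or_eq_of_le (norm_nonneg (inner ℂ (x j) (x (j + 1)) : ℂ)) with h5 | h5
        · exact h5
        · have h6 := had j
          rw [← h5] at h6
          norm_num at h6
          linarith)]
      exact had j
    simp only [hcos j, hroot]
    change (Real.sqrt κ * Real.cos δ * (1 / (bb h (x j) * bb h (x (j + 1)))) <
      Real.cos (θ j - δ) + ss h (x j) / bb h (x j) *
        (ss h (x (j + 1)) / bb h (x (j + 1))) * (z j).re) ∧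
      (|Real.cos δ * Real.sin (θ j - δ) + Real.sin δ * (Real.cos (θ j - δ) +
        ss h (x j) / bb h (x j) * (ss h (x (j + 1)) / bb h (x (j + 1))) * (z j).re)| ≤
        Real.cos δ * (ss h (x j) / bb h (x j) * (ss h (x (j + 1)) / bb h (x (j + 1))) *
          Real.sin (Real.arccos (z j).re))) ∧
      Real.cos (θ j - δ) + ss h (x j) / bb h (x j) *
        (ss h (x (j + 1)) / bb h (x (j + 1))) * (z j).re = _
    refine ⟨?_, ?_, hC⟩
    · rw [hC]
      apply mul_lt_mul_of_pos_right _ (by positivity)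
      exact mul_lt_mul_of_pos_right h4 hδ
    · rw [hC]
      have h5 : Real.cos δ * Real.sin (θ j - δ) + Real.sin δ *
          (‖(inner ℂ (x j) (x (j + 1)) : ℂ)‖ * Real.cos δ *
            (1 / (bb h (x j) * bb h (x (j + 1))))) =
          Real.cos δ * (ss h (x j) / bb h (x j) * (ss h (x (j + 1)) / bb h (x (j + 1))) *
            (z j).im) := by
        have h6 : (bb h (x j) * bb h (x (j + 1))) *
            (1 / (bb h (x j) * bb h (x (j + 1)))) = 1 := by
          rw [mul_one_div, div_self (ne_of_gt hbb)]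
        have h7 : (bb h (x j) * bb h (x (j + 1))) * (Real.cos δ * Real.sin (θ j - δ) +
            Real.sin δ * (‖(inner ℂ (x j) (x (j + 1)) : ℂ)‖ * Real.cos δ *
              (1 / (bb h (x j) * bb h (x (j + 1)))))) =
            (bb h (x j) * bb h (x (j + 1))) * (Real.cos δ * (ss h (x j) / bb h (x j) *
              (ss h (x (j + 1)) / bb h (x (j + 1))) * (z j).im)) := by
          linear_combination (Real.sin δ * ‖(inner ℂ (x j) (x (j + 1)) : ℂ)‖ * Real.cos δ) * h6 -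
            (Real.cos δ * (z j).im) * hT - Real.cos δ * h1'
        exact mul_left_cancel₀ (ne_of_gt hbb) h7
      rw [h5, abs_mul, abs_of_pos hδ, abs_mul, abs_of_nonneg hT0]
      exact mul_le_mul_of_nonneg_left (mul_le_mul_of_nonneg_left (hsin j) hT0) hδ.le

end

end Pool.Agent.H59.CPT
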